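import Mathlib

/-!
# Almost Golomb sequences

Helper file for MP_ac9862_nt.
-/

namespace Q249.AlmostGolomb

open Finset

/-- `sm r a n = a n + a (n-1) + ... + a (n-r+1)`, where `a k = 0` for `k ≤ 0` (we use `a 0 = 0` and
truncated subtraction). -/
def sm (r : ℕ) (a : ℕ → ℕ) (n : ℕ) : ℕ := ∑ i ∈ range r, a (n - i)

/-- the constructed sequence -/
def al (r : ℕ) : ℕ → ℕ
  | 0 => 0
  | 1 => 1
  | 2 => 2
  | 3 => 2
  | (k+4) =>
    if (∑ i ∈ range r, al r (min (al r (k+3) + 1 - i) (k+3))) = k + 4 then al r (k+3) + 1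
    else al r (k+3)

theorem al_zero (r : ℕ) : al r 0 = 0 := by rw [al]
theorem al_one (r : ℕ) : al r 1 = 1 := by rw [al]
theorem al_two (r : ℕ) : al r 2 = 2 := by rw [al]
theorem al_three (r : ℕ) : al r 3 = 2 := by rw [al]

theorem al_succ_cases (r k : ℕ) : al r (k+1) = al r k ∨ al r (k+1) = al r k + 1 := by
  match k with
  | 0 => rw [al_zero, al_one]; simp
  | 1 => rw [al_two, al_one]; simp
  | 2 => rw [al_two, al_three]; simp
  | (k+3) =>
    rw [al]
    split_ifs
    · right; rfl
    · left; rfl

theorem al_mono (r : ℕ) : Monotone (al r) := by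
  apply monotone_nat_of_le_succ
  intro k
  rcases al_succ_cases r k with h | h <;> omega

theorem al_add_le (r k d : ℕ) : al r (k + d) ≤ al r k + d := by
  induction d with
  | zero => simp
  | succ d ih =>
    rcases al_succ_cases r (k+d) with h | h <;> rw [← add_assoc] <;> omega

theorem al_lt (r k : ℕ) (hk : 3 ≤ k) : al r k + 1 ≤ k := by
  obtain ⟨d, rfl⟩ : ∃ d, k = 3 + d := ⟨k-3, by omega⟩
  have := al_add_le r 3 d
  rw [al_three] at this
  omega

theorem al_succ (r k : ℕ) (hk : 3 ≤ k) :
    al r (k+1) = if sm r (al r) (al r k + 1) = k + 1 then al r k + 1 else al r k := by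
  obtain ⟨j, rfl⟩ : ∃ j, k = j + 3 := ⟨k-3, by omega⟩
  have h := al_lt r (j+3) hk
  rw [show j + 3 + 1 = j + 4 by ring, al]
  have e : (∑ i ∈ range r, al r (min (al r (j+3) + 1 - i) (j+3)))
      = sm r (al r) (al r (j+3) + 1) := by
    unfold sm
    refine sum_congr rfl fun i _ => ?_
    rw [Nat.min_eq_left (by omega)]
  rw [e]

theorem al_pos (r k : ℕ) (hk : 1 ≤ k) : 1 ≤ al r k := by
  have := al_mono r hk
  rw [al_one] at this
  exact this

theorem al_ge_two (r k : ℕ) (hk : 2 ≤ k) : 2 ≤ al r k := by
  have := al_mono r hk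
  rw [al_two] at this
  exact this

/-- telescoping: `sm (n+1) + a (n+1-r) = sm n + a (n+1)`. -/
theorem sm_succ (r : ℕ) (a : ℕ → ℕ) (n : ℕ) (_ : a 0 = 0) :
    sm r a (n+1) + a (n + 1 - r) = sm r a n + a (n+1) := by
  unfold sm
  have h1 := sum_range_succ (fun i => a (n + 1 - i)) r
  have h2 := sum_range_succ' (fun i => a (n + 1 - i)) r
  have h3 : ∑ i ∈ range r, a (n + 1 - (i+1)) = ∑ i ∈ range r, a (n - i) := by
    refine sum_congr rfl fun i _ => ?_
    congr 1
    omega
  rw [h3] at h2
  simp only [Nat.sub_zero] at h2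
  omega

theorem sm_one (r : ℕ) (hr : 1 ≤ r) : sm r (al r) 1 = 1 := by
  unfold sm
  obtain ⟨q, rfl⟩ : ∃ q, r = q + 1 := ⟨r-1, by omega⟩
  rw [sum_range_succ']
  have : ∑ i ∈ range q, al (q+1) (1 - (i+1)) = 0 := by
    apply sum_eq_zero
    intro i _
    rw [show 1 - (i+1) = 0 by omega, al_zero]
  rw [this]
  simp [al_one]

theorem sm_two (r : ℕ) (hr : 2 ≤ r) : sm r (al r) 2 = 3 := by
  have h := sm_succ r (al r) 1 (al_zero r)
  rw [sm_one r (by omega), show 1 + 1 - r = 0 by omega, al_zero] at h
  norm_num at h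
  rw [al_two] at h
  exact h

theorem sm_three (r : ℕ) (hr : 3 ≤ r) : sm r (al r) 3 = 5 := by
  have h := sm_succ r (al r) 2 (al_zero r)
  rw [sm_two r (by omega), show 2 + 1 - r = 0 by omega, al_zero] at h
  norm_num at h
  rw [al_three] at h
  exact h

theorem sm_three' : sm 2 (al 2) 3 = 4 := by
  have h := sm_succ 2 (al 2) 2 (al_zero 2)
  rw [sm_two 2 (by omega), show 2 + 1 - 2 = 1 by omega, al_one] at h
  norm_num at h
  rw [al_three] at h
  omega

/-- main invariants -/
theorem invariants (r : ℕ) (hr : 2 ≤ r) (k : ℕ) (hk : 3 ≤ k) :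
    (∀ j, 3 ≤ j → j ≤ k → sm r (al r) (al r j) ≤ j ∧ j < sm r (al r) (al r j + 1)) ∧
    (∀ j, 1 ≤ j → j ≤ k → al r (j - r) < al r j) := by
  induction k, hk using Nat.le_induction with
  | base =>
    constructor
    · intro j h1 h2
      have : j = 3 := by omega
      subst this
      rw [al_three, sm_two r hr]
      refine ⟨le_rfl, ?_⟩
      rcases Nat.lt_or_ge r 3 with h | h
      · have : r = 2 := by omega
        subst this
        rw [sm_three']; norm_num
      · rw [sm_three r h]; norm_num
    · intro j h1 h2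
      have : j = 1 ∨ j = 2 ∨ j = 3 := by omega
      rcases this with rfl | rfl | rfl
      · rw [show 1 - r = 0 by omega, al_zero, al_one]; norm_num
      · rw [show 2 - r = 0 by omega, al_zero, al_two]; norm_num
      · have : al r (3 - r) ≤ al r 1 := al_mono r (by omega)
        rw [al_one] at this
        rw [al_three]; omega
  | succ k hk ih =>
    obtain ⟨ih1, ih2⟩ := ih
    obtain ⟨i1, i2⟩ := ih1 k hk le_rfl
    have hlt := al_lt r k hk
    have hsucc := al_succ r k hk
    have h2k := al_ge_two r k (by omega)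
    -- the window statement at k+1
    have hw : al r (k + 1 - r) < al r (k+1) := by
      by_cases hc : sm r (al r) (al r k + 1) = k + 1
      · rw [if_pos hc] at hsucc
        have := al_mono r (show k + 1 - r ≤ k by omega)
        omega
      · rw [if_neg hc] at hsucc
        rw [hsucc]
        by_contra hcon
        have hm := al_mono r (show k + 1 - r ≤ k by omega)
        have heq : al r (k+1-r) = al r k := by omega
        have hj2 : 2 ≤ k + 1 - r := by
          by_contra hlt2
          have : al r (k+1-r) ≤ al r 1 := al_mono r (by omega)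
          rw [al_one] at this
          omega
        rcases Nat.lt_or_ge (k+1-r) 3 with h3 | h3
        · have hj : k + 1 - r = 2 := by omega
          rw [hj, al_two] at heq
          rw [← heq] at hc i2
          norm_num at hc i2
          rcases Nat.lt_or_ge r 3 with h4 | h4
          · have : r = 2 := by omega
            subst this
            rw [sm_three'] at hc i2
            omega
          · rw [sm_three r h4] at hc i2
            omega
        · obtain ⟨j1, _⟩ := ih1 (k+1-r) h3 (by omega)
          rw [heq] at j1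
          have ht := sm_succ r (al r) (al r k) (al_zero r)
          have hb : al r (al r k + 1) ≤ al r (al r k + 1 - r) + r := by
            have h1 := al_add_le r (al r k + 1 - r) r
            have h2 := al_mono r (show al r k + 1 ≤ al r k + 1 - r + r by omega)
            omega
          omega
    have hmm : ∀ j, 1 ≤ j → j ≤ k + 1 → al r (j - r) < al r j := by
      intro j h1 h2
      rcases Nat.lt_or_ge j (k+1) with h | h
      · exact ih2 j h1 (by omega)
      · have : j = k + 1 := by omega
        rw [this]; exact hw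
    refine ⟨?_, hmm⟩
    intro j h1 h2
    rcases Nat.lt_or_ge j (k+1) with h | h
    · exact ih1 j h1 (by omega)
    · have : j = k + 1 := by omega
      subst this
      by_cases hc : sm r (al r) (al r k + 1) = k + 1
      · rw [if_pos hc] at hsucc
        rw [hsucc]
        refine ⟨hc.le, ?_⟩
        have ht := sm_succ r (al r) (al r k + 1) (al_zero r)
        have := hmm (al r k + 1 + 1) (by omega) (by omega)
        omega
      · rw [if_neg hc] at hsucc
        rw [hsucc]
        exact ⟨by omega, by omega⟩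

theorem window_pos (r : ℕ) (hr : 2 ≤ r) (j : ℕ) (hj : 1 ≤ j) : al r (j - r) < al r j :=
  (invariants r hr (max j 3) (le_max_right _ _)).2 j hj (le_max_left _ _)

theorem inv (r : ℕ) (hr : 2 ≤ r) (j : ℕ) (hj : 3 ≤ j) :
    sm r (al r) (al r j) ≤ j ∧ j < sm r (al r) (al r j + 1) :=
  (invariants r hr j hj).1 j hj le_rfl

theorem sm_strictMono (r : ℕ) (hr : 2 ≤ r) : StrictMono (sm r (al r)) := by
  apply strictMono_nat_of_lt_succ
  intro n
  have h := sm_succ r (al r) n (al_zero r)
  have h2 := window_pos r hr (n+1) (by omega)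
  omega

/-- `al k ≥ m ↔ sm m ≤ k` for `m ≥ 3`. -/
theorem le_al_iff (r : ℕ) (hr : 2 ≤ r) (m k : ℕ) (hm : 3 ≤ m) :
    m ≤ al r k ↔ sm r (al r) m ≤ k := by
  have hs := sm_strictMono r hr
  rcases Nat.lt_or_ge k 3 with hk | hk
  · have h1 : al r k ≤ al r 3 := al_mono r (by omega)
    rw [al_three] at h1
    have h2 : sm r (al r) 2 < sm r (al r) m := hs (by omega)
    rw [sm_two r hr] at h2
    constructor <;> intro <;> omega
  · obtain ⟨h1, h2⟩ := inv r hr k hk
    constructor
    · intro h
      exact (hs.monotone h).trans h1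
    · intro h
      have := hs.lt_iff_lt.1 (lt_of_le_of_lt h h2)
      omega

theorem al_sm (r : ℕ) (hr : 2 ≤ r) (n : ℕ) (hn : 1 ≤ n) : al r (sm r (al r) n) = n := by
  have hs := sm_strictMono r hr
  have : n = 1 ∨ n = 2 ∨ 3 ≤ n := by omega
  rcases this with rfl | rfl | h
  · rw [sm_one r (by omega), al_one]
  · rw [sm_two r hr, al_three]
  · have h1 := (le_al_iff r hr n _ h).2 le_rfl
    have h2 := (le_al_iff r hr (n+1) (sm r (al r) n) (by omega)).not.2
      (not_le.2 (hs (Nat.lt_succ_self n)))
    omega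

/-- admissible sequences: positive (for `n ≥ 1`), nondecreasing, and
`a(a(n)+a(n-1)+...+a(n-r+1)) = n` for `n ≥ 1`. -/
structure Adm (r : ℕ) (a : ℕ → ℕ) : Prop where
  zero : a 0 = 0
  pos : ∀ n, 1 ≤ n → 1 ≤ a n
  mono : Monotone a
  eq : ∀ n, 1 ≤ n → a (sm r a n) = n

theorem adm_al (r : ℕ) (hr : 2 ≤ r) : Adm r (al r) :=
  ⟨al_zero r, al_pos r, al_mono r, al_sm r hr⟩

theorem Adm.one {r : ℕ} {a : ℕ → ℕ} (h : Adm r a) (hr : 2 ≤ r) : a 1 = 1 := by
  have h1 := h.eq 1 le_rfl
  have h2 : sm r a 1 = a 1 := by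
    unfold sm
    obtain ⟨q, rfl⟩ : ∃ q, r = q + 1 := ⟨r-1, by omega⟩
    rw [sum_range_succ']
    have : ∑ i ∈ range q, a (1 - (i+1)) = 0 := by
      apply sum_eq_zero
      intro i _
      rw [show 1 - (i+1) = 0 by omega, h.zero]
    rw [this]
    simp
  rw [h2] at h1
  have h3 := h.pos 1 le_rfl
  have h4 := h.mono h3
  omega

theorem Adm.two {r : ℕ} {a : ℕ → ℕ} (h : Adm r a) (hr : 2 ≤ r) : a 2 = 2 ∧ a 3 = 2 := by
  have h0 := h.one hr
  have h1 := h.eq 2 (by norm_num)
  have h2 : sm r a 2 = 1 + a 2 := by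
    have := sm_succ r a 1 h.zero
    rw [show 1 + 1 - r = 0 by omega, h.zero] at this
    have h5 := sm_succ r a 0 h.zero
    rw [show 0 + 1 - r = 0 by omega, h.zero] at h5
    have h6 : sm r a 0 = 0 := by
      unfold sm
      apply sum_eq_zero
      intro i _
      rw [show 0 - i = 0 by omega, h.zero]
    norm_num at this h5
    omega
  rw [h2] at h1
  have h3 := h.pos 2 (by norm_num)
  have h4 : a 2 ≠ 1 := by
    intro h5
    rw [h5] at h1
    norm_num at h1
    omega
  have h5 := h.mono (show 2 ≤ 1 + a 2 by omega)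
  have h6 : a 2 = 2 := by omega
  rw [h6] at h1
  exact ⟨h6, h1⟩

/-- the almost Golomb sequence: admissible and greedy (lexicographically least) -/
structure IsAlmostGolomb (r : ℕ) (a : ℕ → ℕ) : Prop extends Adm r a where
  greedy : ∀ b, Adm r b → ∀ n, (∀ k < n, b k = a k) → a n ≤ b n

theorem isAlmostGolomb_al (r : ℕ) (hr : 2 ≤ r) : IsAlmostGolomb r (al r) where
  toAdm := adm_al r hr
  greedy := by
    intro b hb n hn
    have hb1 := hb.one hr
    have hb2 := hb.two hr
    rcases Nat.lt_or_ge n 4 with h | h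
    · have : n = 0 ∨ n = 1 ∨ n = 2 ∨ n = 3 := by omega
      rcases this with rfl | rfl | rfl | rfl
      · rw [al_zero]; omega
      · rw [al_one]; omega
      · rw [al_two]; omega
      · rw [al_three]; omega
    · obtain ⟨k, rfl⟩ : ∃ k, n = k + 1 := ⟨n-1, by omega⟩
      have hlt := al_lt r k (by omega)
      rw [al_succ r k (by omega)]
      split_ifs with hc
      · have e : sm r b (al r k + 1) = k + 1 := by
          rw [← hc]
          unfold sm
          refine sum_congr rfl fun i _ => ?_
          exact hn _ (by omega)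
        have := hb.eq (al r k + 1) (by omega)
        rw [e] at this
        omega
      · have := hb.mono (show k ≤ k + 1 by omega)
        rw [hn k (by omega)] at this
        exact this

theorem unique_aux {r : ℕ} {a b : ℕ → ℕ} (ha : IsAlmostGolomb r a) (hb : IsAlmostGolomb r b) :
    a = b := by
  funext n
  induction n using Nat.strong_induction_on with
  | _ n ih =>
    exact le_antisymm (ha.greedy b hb.toAdm n fun k hk => (ih k hk).symm)
      (hb.greedy a ha.toAdm n fun k hk => ih k hk)

end Q249.AlmostGolomb
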