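import Mathlib
import Pool.Agent.Q249.AlmostGolomb

/-!
# Multiplicities in almost Golomb sequences

Helper file for MP_ac9862_nt.
-/

namespace Q249.AlmostGolomb

open Finset

/-- multiplicity of `n` in the sequence `a 1, a 2, ...` -/
noncomputable def mult (a : ℕ → ℕ) (n : ℕ) : ℕ := {i | 1 ≤ i ∧ a i = n}.ncard

/-- supremum of the multiplicities -/
noncomputable def M (a : ℕ → ℕ) : ℕ := sSup (Set.range (mult a))

theorem mult_zero (r : ℕ) : mult (al r) 0 = 0 := by
  unfold mult
  have : {i | 1 ≤ i ∧ al r i = 0} = ∅ := by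
    ext i
    simp only [Set.mem_ofPred_eq, Set.mem_empty_iff_false, iff_false]
    rintro ⟨h1, h2⟩
    have := al_pos r i h1
    omega
  rw [this, Set.ncard_empty]

theorem mult_one (r : ℕ) : mult (al r) 1 = 1 := by
  unfold mult
  have : {i | 1 ≤ i ∧ al r i = 1} = {1} := by
    ext i
    simp only [Set.mem_ofPred_eq, Set.mem_singleton_iff]
    constructor
    · rintro ⟨h1, h2⟩
      by_contra h3
      have := al_ge_two r i (by omega)
      omega
    · rintro rfl
      exact ⟨le_rfl, al_one r⟩
  rw [this, Set.ncard_singleton]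

theorem mult_two (r : ℕ) (hr : 2 ≤ r) : mult (al r) 2 = sm r (al r) 3 - 2 := by
  unfold mult
  have : {i | 1 ≤ i ∧ al r i = 2} = ↑(Ico 2 (sm r (al r) 3)) := by
    ext i
    simp only [Set.mem_ofPred_eq, coe_Ico, Set.mem_Ico]
    have h0 := le_al_iff r hr 3 i le_rfl
    constructor
    · rintro ⟨h1, h2⟩
      have h3 : i ≠ 1 := by
        rintro rfl
        rw [al_one] at h2
        omega
      exact ⟨by omega, not_le.1 (h0.not.1 (by omega))⟩
    · rintro ⟨h1, h2⟩
      have h3 := al_ge_two r i h1
      have h4 := h0.not.2 (not_le.2 h2)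
      exact ⟨by omega, by omega⟩
  rw [this, Set.ncard_coe_finset, Nat.card_Ico]

theorem mult_ge_three (r : ℕ) (hr : 2 ≤ r) (m : ℕ) (hm : 3 ≤ m) :
    mult (al r) m + al r (m + 1 - r) = al r (m+1) := by
  have h1 : mult (al r) m = sm r (al r) (m+1) - sm r (al r) m := by
    unfold mult
    have : {i | 1 ≤ i ∧ al r i = m} = ↑(Ico (sm r (al r) m) (sm r (al r) (m+1))) := by
      ext i
      simp only [Set.mem_ofPred_eq, coe_Ico, Set.mem_Ico]
      have h0 := le_al_iff r hr m i hm
      have h0' := le_al_iff r hr (m+1) i (by omega)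
      constructor
      · rintro ⟨h1, h2⟩
        exact ⟨h0.1 (by omega), not_le.1 (h0'.not.1 (by omega))⟩
      · rintro ⟨h1, h2⟩
        have h3 := h0.2 h1
        have h4 := h0'.not.2 (not_le.2 h2)
        have h5 := sm_strictMono r hr hm
        have h6 : 0 < sm r (al r) m := by
          have := sm_strictMono r hr (show 0 < m by omega)
          omega
        exact ⟨by omega, by omega⟩
    rw [this, Set.ncard_coe_finset, Nat.card_Ico]
  have h2 := sm_succ r (al r) m (al_zero r)
  have h3 := sm_strictMono r hr (show m < m + 1 by omega)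
  omega

section bound
variable {r c n : ℕ}

theorem gap_le (hr : 3 ≤ r) (hc : 3 ≤ c)
    (ih : ∀ n' < n, al r n' ≤ al r (n' - r) + c) (y : ℕ) (hy : y < n) :
    al r y < al r (y + c) := by
  have : y = 0 ∨ y = 1 ∨ y = 2 ∨ 3 ≤ y := by omega
  rcases this with rfl | rfl | rfl | h
  · rw [al_zero]; exact al_pos r _ (by omega)
  · rw [al_one]; exact al_ge_two r _ (by omega)
  · rw [al_two]
    apply (le_al_iff r (by omega) 3 _ le_rfl).2
    rw [sm_three r hr]; omega
  · apply (le_al_iff r (by omega) (al r y + 1) _ (by have := al_ge_two r y (by omega); omega)).2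
    have h1 := (inv r (by omega) y h).1
    have h2 := sm_succ r (al r) (al r y) (al_zero r)
    have h3 := ih (al r y + 1) (by have := al_lt r y h; omega)
    omega

theorem sum_gap (hr : 3 ≤ r) (hc : 3 ≤ c) (hrc : al r r ≤ c)
    (ih : ∀ n' < n, al r n' ≤ al r (n' - r) + c) (x : ℕ) (hx : 2 ≤ x) (hxn : x < n) :
    sm r (al r) x + r ≤ sm r (al r) (x + c) := by
  rcases Nat.lt_or_ge (x + c) r with h | h
  · -- monotone regime
    have key : ∀ x, 2 ≤ x → x + c < r → sm r (al r) x + r ≤ sm r (al r) (x + c) := by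
      intro x hx
      induction x, hx using Nat.le_induction with
      | base =>
        intro h
        have h1 := (le_al_iff r (by omega) (c+1) r (by omega)).not.1 (by omega)
        have h2 := sm_succ r (al r) (c+1) (al_zero r)
        have h3 : al r (c + 1 + 1 - r) = 0 := by
          rw [show c + 1 + 1 - r = 0 by omega, al_zero]
        have h4 := al_ge_two r (c+1+1) (by omega)
        rw [sm_two r (by omega), show 2 + c = c + 1 + 1 by ring]
        omega
      | succ x hx ihx =>
        intro h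
        have h1 := ihx (by omega)
        have h2 := sm_succ r (al r) x (al_zero r)
        have h3 := sm_succ r (al r) (x+c) (al_zero r)
        have h4 : al r (x + 1 - r) = 0 := by
          rw [show x + 1 - r = 0 by omega, al_zero]
        have h5 : al r (x + c + 1 - r) = 0 := by
          rw [show x + c + 1 - r = 0 by omega, al_zero]
        have h6 := al_mono r (show x + 1 ≤ x + c + 1 by omega)
        rw [show x + 1 + c = x + c + 1 by ring]
        omega
    exact key x hx h
  · unfold sm
    have h1 : ∑ i ∈ range r, al r (x - i) + r = ∑ i ∈ range r, (al r (x - i) + 1) := by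
      rw [sum_add_distrib]; simp
    rw [h1]
    apply sum_le_sum
    intro i hi
    rw [mem_range] at hi
    rcases Nat.lt_or_ge x i with h2 | h2
    · rw [show x - i = 0 by omega, al_zero]
      have := al_pos r (x + c - i) (by omega)
      omega
    · have := gap_le hr hc ih (x - i) (by omega)
      rw [show x - i + c = x + c - i by omega] at this
      omega

theorem window_le (hr : 3 ≤ r) (hc : 3 ≤ c) (hrc : al r r ≤ c) (n : ℕ) :
    al r n ≤ al r (n - r) + c := by
  induction n using Nat.strong_induction_on with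
  | _ n ih =>
    rcases Nat.lt_or_ge r n with h | h
    · by_contra hcon
      have : n = r + 1 ∨ n = r + 2 ∨ r + 3 ≤ n := by omega
      rcases this with h1 | h1 | h1
      · have h2 := sum_gap hr hc hrc ih 2 le_rfl (by omega)
        rw [h1, show r + 1 - r = 1 by omega, al_one] at hcon
        have h3 := (le_al_iff r (by omega) (2 + c) (r+1) (by omega)).1 (by omega)
        rw [sm_two r (by omega)] at h2
        omega
      · have h2 := sum_gap hr hc hrc ih 3 (by omega) (by omega)
        rw [h1, show r + 2 - r = 2 by omega, al_two] at hcon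
        have h3 := (le_al_iff r (by omega) (3 + c) (r+2) (by omega)).1 (by omega)
        rw [sm_three r (by omega)] at h2
        omega
      · have h0 := al_lt r (n-r) (by omega)
        have h0' := al_ge_two r (n-r) (by omega)
        have h2 := sum_gap hr hc hrc ih (al r (n-r) + 1) (by omega) (by omega)
        have h3 := (le_al_iff r (by omega) (al r (n-r) + 1 + c) n (by omega)).1 (by omega)
        have h4 := (inv r (by omega) (n-r) (by omega)).2
        omega
    · have := al_mono r h
      omega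

end bound

theorem mult_le {r c : ℕ} (hr : 3 ≤ r) (hc : 3 ≤ c) (hrc : al r r ≤ c) (m : ℕ) :
    mult (al r) m ≤ c := by
  have : m = 0 ∨ m = 1 ∨ m = 2 ∨ 3 ≤ m := by omega
  rcases this with rfl | rfl | rfl | h
  · rw [mult_zero]; omega
  · rw [mult_one]; omega
  · rw [mult_two r (by omega), sm_three r hr]; omega
  · have h1 := mult_ge_three r (by omega) m h
    have h2 := window_le hr hc hrc (m+1)
    omega

theorem mult_le_two (m : ℕ) : mult (al 2) m ≤ 2 := by
  have : m = 0 ∨ m = 1 ∨ m = 2 ∨ 3 ≤ m := by omega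
  rcases this with rfl | rfl | rfl | h
  · rw [mult_zero]; omega
  · rw [mult_one]; omega
  · rw [mult_two 2 le_rfl, sm_three']
  · have h1 := mult_ge_three 2 le_rfl m h
    have h2 := al_add_le 2 (m+1-2) 2
    rw [show m + 1 - 2 + 2 = m + 1 by omega] at h2
    omega

theorem M_le {a : ℕ → ℕ} {c : ℕ} (h : ∀ m, mult a m ≤ c) : M a ≤ c := by
  apply csSup_le (Set.range_nonempty _)
  rintro _ ⟨m, rfl⟩
  exact h m

theorem le_M {a : ℕ → ℕ} {c : ℕ} (h : ∀ m, mult a m ≤ c) (m : ℕ) : mult a m ≤ M a := by
  apply le_csSup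
  · refine ⟨c, ?_⟩
    rintro _ ⟨m, rfl⟩
    exact h m
  · exact ⟨m, rfl⟩

theorem al_ge_three (r k : ℕ) (hr : 3 ≤ r) (hk : 5 ≤ k) : 3 ≤ al r k := by
  apply (le_al_iff r (by omega) 3 k le_rfl).2
  rw [sm_three r hr]; exact hk

/-- `M(r) = a_r(r)` for `r ≥ 5`. -/
theorem M_eq (r : ℕ) (hr : 5 ≤ r) : M (al r) = al r r := by
  have h3 := al_ge_three r r (by omega) hr
  have hb := mult_le (r := r) (by omega) h3 le_rfl
  apply le_antisymm (M_le hb)
  have h1 := mult_ge_three r (by omega) (r-1) (by omega)
  rw [show r - 1 + 1 - r = 0 by omega, al_zero, show r - 1 + 1 = r by omega] at h1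
  have h2 := le_M hb (r-1)
  omega

/-- `M(r) ≤ 3` for `r ≤ 4`. -/
theorem M_le_three (r : ℕ) (hr : 2 ≤ r) (hr4 : r ≤ 4) : M (al r) ≤ 3 := by
  have : r = 2 ∨ r = 3 ∨ r = 4 := by omega
  rcases this with rfl | rfl | rfl
  · exact (M_le mult_le_two).trans (by norm_num)
  · exact M_le (mult_le (by norm_num) (by norm_num) (by rw [al_three]; norm_num))
  · refine M_le (mult_le (by norm_num) (by norm_num) ?_)
    have := al_add_le 4 3 1
    rw [al_three] at this
    exact this

/-! ### Golomb's sequence -/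

/-- Golomb's sequence (indexed from `1`; the value at `0` is irrelevant and set to `0`). -/
structure IsGolomb (G : ℕ → ℕ) : Prop where
  zero : G 0 = 0
  pos : ∀ n, 1 ≤ n → 1 ≤ G n
  mono : Monotone G
  count : ∀ n, 1 ≤ n → {k | 1 ≤ k ∧ G k = n}.Finite ∧ {k | 1 ≤ k ∧ G k = n}.ncard = G n

/-- partial sums `G 1 + ... + G n` -/
def SG (G : ℕ → ℕ) (n : ℕ) : ℕ := ∑ i ∈ Icc 1 n, G i

theorem SG_succ (G : ℕ → ℕ) (n : ℕ) : SG G (n+1) = SG G n + G (n+1) := by
  unfold SG
  rw [sum_Icc_succ_top (by omega)]

theorem golomb_le_iff {G : ℕ → ℕ} (h : IsGolomb G) (m : ℕ) :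
    {k | 1 ≤ k ∧ G k ≤ m} = ↑(Icc 1 (SG G m)) := by
  -- the set is finite with SG G m elements
  have hcard : {k | 1 ≤ k ∧ G k ≤ m}.Finite ∧ {k | 1 ≤ k ∧ G k ≤ m}.ncard = SG G m := by
    induction m with
    | zero =>
      have : {k | 1 ≤ k ∧ G k ≤ 0} = ∅ := by
        ext k
        simp only [Set.mem_ofPred_eq, Set.mem_empty_iff_false, iff_false]
        rintro ⟨h1, h2⟩
        have := h.pos k h1
        omega
      rw [this]
      exact ⟨Set.finite_empty, by simp [SG]⟩
    | succ m ih =>
      obtain ⟨i1, i2⟩ := ih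
      obtain ⟨c1, c2⟩ := h.count (m+1) (by omega)
      have e : {k | 1 ≤ k ∧ G k ≤ m+1} = {k | 1 ≤ k ∧ G k ≤ m} ∪ {k | 1 ≤ k ∧ G k = m+1} := by
        ext k
        simp only [Set.mem_ofPred_eq, Set.mem_union]
        omega
      have hd : Disjoint {k | 1 ≤ k ∧ G k ≤ m} {k | 1 ≤ k ∧ G k = m+1} := by
        rw [Set.disjoint_left]
        intro k
        simp only [Set.mem_ofPred_eq]
        omega
      rw [e]
      refine ⟨i1.union c1, ?_⟩
      rw [Set.ncard_union_eq hd i1 c1, i2, c2, SG_succ]
  obtain ⟨hf, hc⟩ := hcard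
  -- it is an initial segment
  have hsub : ∀ k ∈ {k | 1 ≤ k ∧ G k ≤ m}, k ≤ SG G m := by
    intro k hk
    have hI : (↑(Icc 1 k) : Set ℕ) ⊆ {k | 1 ≤ k ∧ G k ≤ m} := by
      intro j hj
      rw [coe_Icc, Set.mem_Icc] at hj
      exact ⟨hj.1, (h.mono hj.2).trans hk.2⟩
    have := Set.ncard_le_ncard hI hf
    rw [Set.ncard_coe_finset, Nat.card_Icc, hc] at this
    omega
  apply Set.eq_of_subset_of_ncard_le
  · intro k hk
    rw [coe_Icc, Set.mem_Icc]
    exact ⟨hk.1, hsub k hk⟩
  · rw [Set.ncard_coe_finset, Nat.card_Icc, hc]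
    omega
  · exact (Icc 1 (SG G m)).finite_toSet

theorem golomb_iff {G : ℕ → ℕ} (h : IsGolomb G) (k m : ℕ) (hk : 1 ≤ k) :
    G k ≤ m ↔ k ≤ SG G m := by
  have := Set.ext_iff.1 (golomb_le_iff h m) k
  simp only [Set.mem_ofPred_eq, coe_Icc, Set.mem_Icc] at this
  omega

theorem golomb_one {G : ℕ → ℕ} (h : IsGolomb G) : G 1 = 1 := by
  have e : SG G 1 = G 1 := by simp [SG]
  have h1 := (golomb_iff h 1 1 le_rfl).2 (by
    have := h.pos 1 le_rfl
    rw [e]; exact this)
  have := h.pos 1 le_rfl
  omega

theorem al_lt' (r k : ℕ) (hr : 3 ≤ r) (hk : 4 ≤ k) : al r k + 2 ≤ k := by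
  have h4 : al r 4 = 2 := by
    have h1 := (le_al_iff r (by omega) 3 4 le_rfl).not.2 (by rw [sm_three r hr]; norm_num)
    have h2 := al_ge_two r 4 (by norm_num)
    omega
  obtain ⟨d, rfl⟩ : ∃ d, k = 4 + d := ⟨k-4, by omega⟩
  have := al_add_le r 4 d
  omega

/-- `a_r(k) = G(k-1)` for `3 ≤ k ≤ r`. -/
theorem al_eq_golomb {G : ℕ → ℕ} (h : IsGolomb G) (r : ℕ) (hr : 3 ≤ r) (k : ℕ) (hk : 3 ≤ k)
    (hkr : k ≤ r) : al r k = G (k-1) := by
  have hG1 := golomb_one h
  have hS1 : SG G 1 = 1 := by simp [SG, hG1]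
  have hS2 : SG G 2 = SG G 1 + G 2 := SG_succ G 1
  have hG2 : G 2 = 2 := by
    have h1 := (golomb_iff h 2 1 (by norm_num)).not.2 (by rw [hS1]; norm_num)
    have h2 := (golomb_iff h 2 2 (by norm_num)).2 (by
      have := h.pos 2 (by norm_num)
      rw [hS2, hS1]; omega)
    omega
  induction k using Nat.strong_induction_on with
  | _ k ih =>
    rcases Nat.lt_or_ge k 4 with h4 | h4
    · have : k = 3 := by omega
      subst this
      rw [al_three, hG2]
    · -- sums
      have hs : ∀ m, 2 ≤ m → m < k → sm r (al r) m = SG G (m-1) + 2 := by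
        intro m hm
        induction m, hm using Nat.le_induction with
        | base =>
          intro _
          rw [sm_two r (by omega), hS1]
        | succ m hm ihm =>
          intro hmk
          have h1 := ihm (by omega)
          have h2 := sm_succ r (al r) m (al_zero r)
          rw [show m + 1 - r = 0 by omega, al_zero] at h2
          have h3 := ih (m+1) hmk (by omega) (by omega)
          rw [show m + 1 - 1 = m by omega] at h3 ⊢
          obtain ⟨q, rfl⟩ : ∃ q, m = q + 1 := ⟨m-1, by omega⟩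
          rw [SG_succ]
          rw [show q + 1 - 1 = q by omega] at h1
          omega
      have hlt := al_lt' r k hr h4
      have hge := al_ge_two r k (by omega)
      obtain ⟨i1, i2⟩ := inv r (by omega) k hk
      rw [hs _ hge (by omega)] at i1
      rw [hs _ (by omega) (by omega), show al r k + 1 - 1 = al r k by omega] at i2
      have g1 := (golomb_iff h (k-1) (al r k) (by omega)).2 (by omega)
      have g2 := (golomb_iff h (k-1) (al r k - 1) (by omega)).not.2 (by omega)
      omega

/-- a construction of Golomb's sequence -/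
def gg : ℕ → ℕ
  | 0 => 0
  | 1 => 1
  | (k+2) =>
    if (∑ i ∈ Icc 1 (gg (k+1)), gg (min i (k+1))) = k + 1 then gg (k+1) + 1 else gg (k+1)

theorem gg_zero : gg 0 = 0 := by rw [gg]
theorem gg_one : gg 1 = 1 := by rw [gg]

theorem gg_cases (k : ℕ) : gg (k+1) = gg k ∨ gg (k+1) = gg k + 1 := by
  match k with
  | 0 => rw [gg_zero, gg_one]; simp
  | (k+1) =>
    rw [gg]
    split_ifs
    · right; rfl
    · left; rfl

theorem gg_mono : Monotone gg := by
  apply monotone_nat_of_le_succ
  intro k
  rcases gg_cases k with h | h <;> omega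

theorem gg_le (k : ℕ) : gg k ≤ k := by
  induction k with
  | zero => rw [gg_zero]
  | succ k ih => rcases gg_cases k with h | h <;> omega

theorem gg_pos (k : ℕ) (hk : 1 ≤ k) : 1 ≤ gg k := by
  have := gg_mono hk
  rw [gg_one] at this
  exact this

theorem gg_succ (k : ℕ) (hk : 1 ≤ k) :
    gg (k+1) = if SG gg (gg k) = k then gg k + 1 else gg k := by
  obtain ⟨j, rfl⟩ : ∃ j, k = j + 1 := ⟨k-1, by omega⟩
  have h := gg_le (j+1)
  rw [show j + 1 + 1 = j + 2 by ring, gg]
  have e : (∑ i ∈ Icc 1 (gg (j+1)), gg (min i (j+1))) = SG gg (gg (j+1)) := by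
    unfold SG
    refine sum_congr rfl fun i hi => ?_
    rw [mem_Icc] at hi
    rw [Nat.min_eq_left (by omega)]
  rw [e]

theorem gg_inv (k : ℕ) (hk : 1 ≤ k) : SG gg (gg k - 1) < k ∧ k ≤ SG gg (gg k) := by
  induction k, hk using Nat.le_induction with
  | base => rw [gg_one]; simp [SG, gg_one]
  | succ k hk ih =>
    obtain ⟨i1, i2⟩ := ih
    rw [gg_succ k hk]
    split_ifs with hc
    · rw [show gg k + 1 - 1 = gg k by omega, SG_succ]
      have := gg_pos (gg k + 1) (by omega)
      omega
    · omega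

theorem SG_mono (G : ℕ → ℕ) : Monotone (SG G) := by
  apply monotone_nat_of_le_succ
  intro n
  rw [SG_succ]; omega

theorem gg_iff (k m : ℕ) (hk : 1 ≤ k) : gg k ≤ m ↔ k ≤ SG gg m := by
  obtain ⟨h1, h2⟩ := gg_inv k hk
  constructor
  · intro h
    exact h2.trans (SG_mono gg h)
  · intro h
    by_contra hc
    have := SG_mono gg (show m ≤ gg k - 1 by omega)
    omega

theorem isGolomb_gg : IsGolomb gg where
  zero := gg_zero
  pos := gg_pos
  mono := gg_mono
  count := by
    intro n hn
    have e : {k | 1 ≤ k ∧ gg k = n} = ↑(Ioc (SG gg (n-1)) (SG gg n)) := by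
      ext k
      simp only [Set.mem_ofPred_eq, coe_Ioc, Set.mem_Ioc]
      constructor
      · rintro ⟨h1, h2⟩
        have a := gg_iff k n h1
        have b := gg_iff k (n-1) h1
        omega
      · rintro ⟨h1, h2⟩
        have a := gg_iff k n (by omega)
        have b := gg_iff k (n-1) (by omega)
        omega
    rw [e]
    refine ⟨Finset.finite_toSet _, ?_⟩
    rw [Set.ncard_coe_finset, Nat.card_Ioc]
    obtain ⟨q, rfl⟩ : ∃ q, n = q + 1 := ⟨n-1, by omega⟩
    rw [SG_succ, show q + 1 - 1 = q by omega]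
    omega

theorem golomb_le_pred {G : ℕ → ℕ} (h : IsGolomb G) (k : ℕ) (hk : 3 ≤ k) : G k + 1 ≤ k := by
  have hG1 := golomb_one h
  have hS1 : SG G 1 = 1 := by simp [SG, hG1]
  have hS2 : SG G 2 = SG G 1 + G 2 := SG_succ G 1
  have hG2 : G 2 = 2 := by
    have h1 := (golomb_iff h 2 1 (by norm_num)).not.2 (by rw [hS1]; norm_num)
    have h2 := (golomb_iff h 2 2 (by norm_num)).2 (by
      have := h.pos 2 (by norm_num)
      rw [hS2, hS1]; omega)
    omega
  induction k, hk using Nat.le_induction with
  | base =>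
    have := (golomb_iff h 3 2 (by norm_num)).2 (by rw [hS2, hS1, hG2])
    omega
  | succ k hk ih =>
    have h1 := (golomb_iff h k (G k) (by omega)).1 le_rfl
    have h2 := h.pos (G k + 1) (by omega)
    have h3 := (golomb_iff h (k+1) (G k + 1) (by omega)).2 (by rw [SG_succ]; omega)
    omega

theorem golomb_unique {G G' : ℕ → ℕ} (h : IsGolomb G) (h' : IsGolomb G') : G = G' := by
  have two : ∀ {G : ℕ → ℕ}, IsGolomb G → G 2 = 2 := by
    intro G h
    have hG1 := golomb_one h
    have hS1 : SG G 1 = 1 := by simp [SG, hG1]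
    have hS2 : SG G 2 = SG G 1 + G 2 := SG_succ G 1
    have h1 := (golomb_iff h 2 1 (by norm_num)).not.2 (by rw [hS1]; norm_num)
    have h2 := (golomb_iff h 2 2 (by norm_num)).2 (by
      have := h.pos 2 (by norm_num)
      rw [hS2, hS1]; omega)
    omega
  funext k
  induction k using Nat.strong_induction_on with
  | _ k ih =>
    have : k = 0 ∨ k = 1 ∨ k = 2 ∨ 3 ≤ k := by omega
    rcases this with rfl | rfl | rfl | hk
    · rw [h.zero, h'.zero]
    · rw [golomb_one h, golomb_one h']
    · rw [two h, two h']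
    · have hS : ∀ m < k, SG G m = SG G' m := by
        intro m hm
        unfold SG
        refine sum_congr rfl fun i hi => ?_
        rw [mem_Icc] at hi
        exact ih i (by omega)
      have b1 := golomb_le_pred h k hk
      have b2 := golomb_le_pred h' k hk
      apply le_antisymm
      · have := (golomb_iff h' k (G' k) (by omega)).1 le_rfl
        rw [← hS _ (by omega)] at this
        exact (golomb_iff h k (G' k) (by omega)).2 this
      · have := (golomb_iff h k (G k) (by omega)).1 le_rfl
        rw [hS _ (by omega)] at this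
        exact (golomb_iff h' k (G k) (by omega)).2 this

/-- the thresholds -/
theorem threshold {G : ℕ → ℕ} (h : IsGolomb G) (k : ℕ) (hk : 4 ≤ k) :
    IsLeast {r | 2 ≤ r ∧ k ≤ M (al r)} (SG G (k-1) + 2) := by
  have hS3 : 5 ≤ SG G 3 := by
    have e1 : SG G 1 = G 1 := by simp [SG]
    have e2 : SG G 2 = SG G 1 + G 2 := SG_succ G 1
    have e3 : SG G 3 = SG G 2 + G 3 := SG_succ G 2
    have g1 := golomb_one h
    have g2 := (golomb_iff h 2 1 (by norm_num)).not.2 (by rw [e1, g1]; norm_num)
    have g3 := h.mono (show 2 ≤ 3 by norm_num)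
    omega
  have hSk : 5 ≤ SG G (k-1) := hS3.trans (SG_mono G (by omega))
  constructor
  · refine ⟨by omega, ?_⟩
    rw [M_eq _ (by omega), al_eq_golomb h _ (by omega) _ (by omega) le_rfl,
      show SG G (k-1) + 2 - 1 = SG G (k-1) + 1 by omega]
    have := (golomb_iff h (SG G (k-1) + 1) (k-1) (by omega)).not.2 (by omega)
    omega
  · rintro r ⟨h2, hM⟩
    rcases Nat.lt_or_ge r 5 with h5 | h5
    · have := M_le_three r h2 (by omega)
      omega
    · rw [M_eq r h5, al_eq_golomb h r (by omega) r (by omega) le_rfl] at hM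
      have := (golomb_iff h (r-1) (k-1) (by omega)).not.1 (by omega)
      omega

end Q249.AlmostGolomb
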