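import Mathlib

/-!
A generic set of integers: all finite patterns occur along all residue classes, at arbitrary
affine positions `(n - h) / k`.
-/

namespace Q249.Generic

/-- A requirement: bound, modulus, residue, the list of affine positions `(k, h)`, and the subset of
those positions which should be in the set. -/
abbrev Req := ℕ × ℕ × ℤ × Finset (ℕ × ℤ) × Finset (ℕ × ℤ)

/-- The requirement is legitimate. -/
def Good (R : Req) : Prop :=
  0 < R.2.1 ∧ ∀ p ∈ R.2.2.2.1, 0 < p.1 ∧ (p.1 : ℤ) ∣ (R.2.1 : ℤ) ∧ (p.1 : ℤ) ∣ R.2.2.1 - p.2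

/-- The position of `n` under `(k, h)`. -/
def pos (n : ℤ) (p : ℕ × ℤ) : ℤ := (n - p.2) / p.1

/-- For large `n` in the residue class the positions are large and pairwise distinct. -/
theorem exists_n (R : Req) (hR : Good R) (C : ℤ) :
    ∃ n : ℤ, (R.1 : ℤ) < n ∧ n ≡ R.2.2.1 [ZMOD R.2.1] ∧
      (∀ p ∈ R.2.2.2.1, C < pos n p ∧ n = p.1 * pos n p + p.2) ∧
      (∀ p ∈ R.2.2.2.1, ∀ q ∈ R.2.2.2.1, pos n p = pos n q → p = q) := by
  obtain ⟨B, D, r, L, E⟩ := R
  obtain ⟨hD, hL⟩ := hR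
  simp only at hD hL ⊢
  -- a bound beyond which everything is fine
  obtain ⟨M, hM⟩ : ∃ M : ℤ, (B : ℤ) < M ∧ (∀ p ∈ L, (p.1 : ℤ) * (|C| + 1) + |p.2| < M) ∧
      ∀ p ∈ L, ∀ q ∈ L, |p.2 * q.1 - q.2 * p.1| < M := by
    refine ⟨B + 1 + ∑ p ∈ L, ((p.1 : ℤ) * (|C| + 1) + |p.2|) +
      ∑ p ∈ L, ∑ q ∈ L, |p.2 * q.1 - q.2 * p.1|, ?_, ?_, ?_⟩
    · have h1 : 0 ≤ ∑ p ∈ L, ((p.1 : ℤ) * (|C| + 1) + |p.2|) :=
        Finset.sum_nonneg fun p _ => by positivity
      have h2 : 0 ≤ ∑ p ∈ L, ∑ q ∈ L, |p.2 * q.1 - q.2 * p.1| :=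
        Finset.sum_nonneg fun p _ => Finset.sum_nonneg fun q _ => abs_nonneg _
      linarith
    · intro p hp
      have h1 : (p.1 : ℤ) * (|C| + 1) + |p.2| ≤ ∑ p ∈ L, ((p.1 : ℤ) * (|C| + 1) + |p.2|) :=
        Finset.single_le_sum (f := fun p : ℕ × ℤ => (p.1 : ℤ) * (|C| + 1) + |p.2|)
          (fun p _ => by positivity) hp
      have h2 : 0 ≤ ∑ p ∈ L, ∑ q ∈ L, |p.2 * q.1 - q.2 * p.1| :=
        Finset.sum_nonneg fun p _ => Finset.sum_nonneg fun q _ => abs_nonneg _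
      have h3 : (0 : ℤ) ≤ B := by positivity
      linarith
    · intro p hp q hq
      have h1 : 0 ≤ ∑ p ∈ L, ((p.1 : ℤ) * (|C| + 1) + |p.2|) :=
        Finset.sum_nonneg fun p _ => by positivity
      have h2 : |p.2 * q.1 - q.2 * p.1| ≤ ∑ q ∈ L, |p.2 * q.1 - q.2 * p.1| :=
        Finset.single_le_sum (f := fun q : ℕ × ℤ => |p.2 * q.1 - q.2 * p.1|)
          (fun q _ => abs_nonneg _) hq
      have h3 : ∑ q ∈ L, |p.2 * q.1 - q.2 * p.1| ≤
          ∑ p ∈ L, ∑ q ∈ L, |p.2 * q.1 - q.2 * p.1| :=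
        Finset.single_le_sum (f := fun p : ℕ × ℤ => ∑ q ∈ L, |p.2 * q.1 - q.2 * p.1|)
          (fun p _ => Finset.sum_nonneg fun q _ => abs_nonneg _) hp
      have h4 : (0 : ℤ) ≤ B := by positivity
      linarith
  obtain ⟨hM1, hM2, hM3⟩ := hM
  -- choose n = r + D * t > M
  set n : ℤ := r + D * (|M| + |r| + 1) with hn
  have hDz : (1 : ℤ) ≤ D := by exact_mod_cast hD
  have hnM : M < n := by
    have h1 : |M| + |r| + 1 ≤ D * (|M| + |r| + 1) := by
      have : 0 ≤ |M| + |r| + 1 := by positivity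
      nlinarith
    have h2 := le_abs_self M
    have h3 := neg_abs_le r
    rw [hn]; linarith
  have hnr : n ≡ r [ZMOD D] := by
    rw [hn]
    exact (Int.modEq_iff_dvd.2 ⟨-(|M| + |r| + 1), by ring⟩)
  have hpos : ∀ p ∈ L, n = p.1 * pos n p + p.2 := by
    intro p hp
    obtain ⟨h1, h2, h3⟩ := hL p hp
    have h4 : (p.1 : ℤ) ∣ n - p.2 := by
      have : n - p.2 = (r - p.2) + D * (|M| + |r| + 1) := by rw [hn]; ring
      rw [this]
      exact dvd_add h3 (Dvd.dvd.mul_right h2 _)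
    unfold pos
    rw [Int.mul_ediv_cancel' h4]; ring
  refine ⟨n, by linarith, hnr, fun p hp => ⟨?_, hpos p hp⟩, ?_⟩
  · have h1 := hM2 p hp
    have h2 := hpos p hp
    have h3 : (1 : ℤ) ≤ p.1 := by exact_mod_cast (hL p hp).1
    by_contra hcon
    push Not at hcon
    have h4 : (p.1 : ℤ) * pos n p ≤ p.1 * (|C| + 1) := by
      apply mul_le_mul_of_nonneg_left _ (by positivity)
      have := le_abs_self C
      linarith
    have h5 := le_abs_self p.2
    linarith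
  · intro p hp q hq heq
    have h1 := hpos p hp
    have h2 := hpos q hq
    rw [heq] at h1
    -- n (q.1 - p.1) = p.2 q.1 - q.2 p.1  up to sign
    have hkey : n * ((q.1 : ℤ) - p.1) = p.2 * q.1 - q.2 * p.1 := by
      have e1 : n * (q.1 : ℤ) = (p.1 * pos n q + p.2) * q.1 := by rw [← h1]
      have e2 : n * (p.1 : ℤ) = (q.1 * pos n q + q.2) * p.1 := by rw [← h2]
      linear_combination e1 - e2
    have hn0 : 0 < n := lt_trans (lt_of_le_of_lt (by positivity) hM1) hnM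
    have hk : (q.1 : ℤ) = p.1 := by
      by_contra hne
      have h3 : 1 ≤ |(q.1 : ℤ) - p.1| := Int.one_le_abs (sub_ne_zero.2 hne)
      have h4 : n ≤ |n * ((q.1 : ℤ) - p.1)| := by
        rw [abs_mul, abs_of_pos hn0]
        nlinarith
      rw [hkey] at h4
      have := hM3 p hp q hq
      linarith
    have h5 : p.2 = q.2 := by
      rw [hk] at h2
      linarith
    exact Prod.ext (by exact_mod_cast hk.symm) h5

/-- Existence of a generic set. -/
theorem exists_generic : ∃ X : Set ℤ, ∀ R : Req, Good R →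
    ∃ n : ℤ, (R.1 : ℤ) < n ∧ n ≡ R.2.2.1 [ZMOD R.2.1] ∧
      ∀ p ∈ R.2.2.2.1, n = p.1 * pos n p + p.2 ∧ (pos n p ∈ X ↔ p ∈ R.2.2.2.2) := by
  classical
  obtain ⟨e, he⟩ : ∃ e : ℕ → Req, Function.Surjective e := exists_surjective_nat _
  -- choose witnesses
  have hch : ∀ (R : Req) (C : ℤ), ∃ n : ℤ, Good R → ((R.1 : ℤ) < n ∧ n ≡ R.2.2.1 [ZMOD R.2.1] ∧
      (∀ p ∈ R.2.2.2.1, C < pos n p ∧ n = p.1 * pos n p + p.2) ∧
      (∀ p ∈ R.2.2.2.1, ∀ q ∈ R.2.2.2.1, pos n p = pos n q → p = q)) := by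
    intro R C
    by_cases h : Good R
    · obtain ⟨n, hn⟩ := exists_n R h C
      exact ⟨n, fun _ => hn⟩
    · exact ⟨0, fun h' => absurd h' h⟩
  choose f hf using hch
  -- bounds: `b j` is larger than all positions used before stage `j`
  let b : ℕ → ℤ := fun j => Nat.rec 0
    (fun i c => |c| + ∑ p ∈ (e i).2.2.2.1, |pos (f (e i) c) p|) j
  have hb : ∀ i, b (i + 1) = |b i| + ∑ p ∈ (e i).2.2.2.1, |pos (f (e i) (b i)) p| := fun i => rfl
  have hbmono : Monotone b := by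
    refine monotone_nat_of_le_succ fun i => ?_
    rw [hb]
    have h1 : 0 ≤ ∑ p ∈ (e i).2.2.2.1, |pos (f (e i) (b i)) p| :=
      Finset.sum_nonneg fun p _ => abs_nonneg _
    have := le_abs_self (b i)
    linarith
  have hbpos : ∀ i, ∀ p ∈ (e i).2.2.2.1, pos (f (e i) (b i)) p ≤ b (i + 1) := by
    intro i p hp
    rw [hb]
    have h1 : |pos (f (e i) (b i)) p| ≤ ∑ p ∈ (e i).2.2.2.1, |pos (f (e i) (b i)) p| :=
      Finset.single_le_sum (f := fun p => |pos (f (e i) (b i)) p|) (fun p _ => abs_nonneg _) hp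
    have := le_abs_self (pos (f (e i) (b i)) p)
    have := abs_nonneg (b i)
    linarith
  refine ⟨{x | ∃ i, Good (e i) ∧ ∃ p ∈ (e i).2.2.2.1, p ∈ (e i).2.2.2.2 ∧
    x = pos (f (e i) (b i)) p}, fun R hR => ?_⟩
  obtain ⟨j, rfl⟩ := he R
  obtain ⟨h1, h2, h3, h4⟩ := hf (e j) (b j) hR
  refine ⟨f (e j) (b j), h1, h2, fun p hp => ⟨(h3 p hp).2, ?_⟩⟩
  constructor
  · rintro ⟨i, hgi, q, hq, hqE, hpq⟩
    obtain ⟨-, -, h3', -⟩ := hf (e i) (b i) hgi
    have hij : i = j := by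
      rcases lt_trichotomy i j with h | h | h
      · have h5 := hbpos i q hq
        have h6 : b (i + 1) ≤ b j := hbmono h
        have h7 := (h3 p hp).1
        rw [hpq] at h7
        linarith
      · exact h
      · have h5 := hbpos j p hp
        have h6 : b (j + 1) ≤ b i := hbmono h
        have h7 := (h3' q hq).1
        rw [← hpq] at h7
        linarith
    subst hij
    rw [h4 p hp q hq hpq]
    exact hqE
  · intro hpE
    exact ⟨j, hR, p, hp, hpE, rfl⟩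

end Q249.Generic
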