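import Mathlib

/-!
Upper quasi-densities and upper densities on `ℤ`, `ℕ` and `ℕ⁺`.
-/

namespace Q249.QD

/-- The set `k · X + h = {k x + h : x ∈ X}`. -/
def dil (k h : ℕ) (X : Set ℤ) : Set ℤ := (fun x => (k : ℤ) * x + h) '' X

/-- `ℕ = {0, 1, 2, ...}` as a set of integers. -/
def NN : Set ℤ := {n | 0 ≤ n}

/-- `ℕ⁺ = {1, 2, 3, ...}` as a set of integers. -/
def PP : Set ℤ := {n | 0 < n}

/-- `μ` is an upper quasi-density on `H` (here `H` is one of `ℤ`, `ℕ`, `ℕ⁺`): the axioms are (F1),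
(F3), (F4♭) and boundedness by `1`.  Only the values of `μ` at subsets of `H` matter. -/
structure IsUpperQuasiDensity (H : Set ℤ) (μ : Set ℤ → ℝ) : Prop where
  F1 : μ H = 1
  F3 : ∀ X Y : Set ℤ, X ⊆ H → Y ⊆ H → μ (X ∪ Y) ≤ μ X + μ Y
  F4 : ∀ X : Set ℤ, X ⊆ H → ∀ h k : ℕ, 0 < h → 0 < k → μ (dil k h X) = μ X / k
  le_one : ∀ X : Set ℤ, X ⊆ H → μ X ≤ 1

/-- `μ` is an upper density on `H`: a monotone upper quasi-density. -/
structure IsUpperDensity (H : Set ℤ) (μ : Set ℤ → ℝ) : Prop extends IsUpperQuasiDensity H μ where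
  mono : ∀ X Y : Set ℤ, X ⊆ Y → Y ⊆ H → μ X ≤ μ Y

/-- The lower dual `μ_*(X) = 1 - μ(H \ X)` of `μ` on `H`. -/
def lowerDual (H : Set ℤ) (μ : Set ℤ → ℝ) (X : Set ℤ) : ℝ := 1 - μ (H \ X)

end Q249.QD
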