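import Mathlib
import Pool.Agent.Q249.GenericSet
import Pool.Agent.Q249.QuasiDensityDefs

/-!
Quasi-densities defined by finite covers with arithmetic progressions (weight `1/k`) and dilates of
special sets (weight `1/(2k)`).
-/

namespace Q249.Cover

open Q249.Generic Q249.QD

variable {τ : Type}

/-- The arithmetic progression `kℤ + h`. -/
def ap (p : ℕ × ℤ) : Set ℤ := {n | (p.1 : ℤ) ∣ n - p.2}

/-- The dilate `k T_i + h`. -/
def piece (T : τ → Set ℤ) (q : τ × ℕ × ℤ) : Set ℤ := {n | ∃ t ∈ T q.1, n = q.2.1 * t + q.2.2}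

/-- The cost of a cover. -/
noncomputable def cost (L₁ : List (ℕ × ℤ)) (L₂ : List (τ × ℕ × ℤ)) : ℝ :=
  (L₁.map fun p => 1 / (p.1 : ℝ)).sum + (L₂.map fun q => 1 / (2 * (q.2.1 : ℝ))).sum

/-- A finite cover; if `ex` holds, the special pieces are required to lie inside `S`. -/
def IsCover (ex : Prop) (T : τ → Set ℤ) (S : Set ℤ) (L₁ : List (ℕ × ℤ))
    (L₂ : List (τ × ℕ × ℤ)) : Prop :=
  (∀ p ∈ L₁, 0 < p.1) ∧ (∀ q ∈ L₂, 0 < q.2.1) ∧
    (∀ n ∈ S, (∃ p ∈ L₁, n ∈ ap p) ∨ ∃ q ∈ L₂, n ∈ piece T q) ∧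
    (ex → ∀ q ∈ L₂, piece T q ⊆ S)

/-- The quasi-density. -/
noncomputable def mu (ex : Prop) (T : τ → Set ℤ) (S : Set ℤ) : ℝ :=
  sInf {c | ∃ L₁ L₂, IsCover ex T S L₁ L₂ ∧ c = cost L₁ L₂}

theorem cost_nonneg (L₁ : List (ℕ × ℤ)) (L₂ : List (τ × ℕ × ℤ)) : 0 ≤ cost L₁ L₂ := by
  unfold cost
  refine add_nonneg (List.sum_nonneg ?_) (List.sum_nonneg ?_)
  · intro x hx
    obtain ⟨p, -, rfl⟩ := List.mem_map.1 hx
    positivity
  · intro x hx
    obtain ⟨p, -, rfl⟩ := List.mem_map.1 hx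
    positivity

theorem bdd (ex : Prop) (T : τ → Set ℤ) (S : Set ℤ) :
    BddBelow {c | ∃ L₁ L₂, IsCover ex T S L₁ L₂ ∧ c = cost L₁ L₂} := by
  refine ⟨0, ?_⟩
  rintro c ⟨L₁, L₂, -, rfl⟩
  exact cost_nonneg _ _

theorem cover_univ (ex : Prop) (T : τ → Set ℤ) (S : Set ℤ) :
    IsCover ex T S [((1 : ℕ), (0 : ℤ))] [] := by
  refine ⟨by simp, by simp, fun n _ => Or.inl ⟨(1, 0), by simp, ?_⟩, by simp⟩
  simp [ap]

theorem nonempty (ex : Prop) (T : τ → Set ℤ) (S : Set ℤ) :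
    {c | ∃ L₁ L₂, IsCover ex T S L₁ L₂ ∧ c = cost L₁ L₂}.Nonempty :=
  ⟨_, _, _, cover_univ ex T S, rfl⟩

theorem mu_le (ex : Prop) (T : τ → Set ℤ) {S : Set ℤ} {L₁ L₂} (h : IsCover ex T S L₁ L₂) :
    mu ex T S ≤ cost L₁ L₂ := csInf_le (bdd ex T S) ⟨L₁, L₂, h, rfl⟩

theorem le_mu (ex : Prop) (T : τ → Set ℤ) {S : Set ℤ} {c : ℝ}
    (h : ∀ L₁ L₂, IsCover ex T S L₁ L₂ → c ≤ cost L₁ L₂) : c ≤ mu ex T S := by
  refine le_csInf (nonempty ex T S) ?_
  rintro _ ⟨L₁, L₂, hc, rfl⟩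
  exact h L₁ L₂ hc

theorem exists_cover (ex : Prop) (T : τ → Set ℤ) (S : Set ℤ) {ε : ℝ} (hε : 0 < ε) :
    ∃ L₁ L₂, IsCover ex T S L₁ L₂ ∧ cost L₁ L₂ < mu ex T S + ε := by
  obtain ⟨c, ⟨L₁, L₂, h, rfl⟩, hlt⟩ := Real.lt_sInf_add_pos (nonempty ex T S) hε
  exact ⟨L₁, L₂, h, hlt⟩

theorem mu_nonneg (ex : Prop) (T : τ → Set ℤ) (S : Set ℤ) : 0 ≤ mu ex T S :=
  le_mu ex T fun L₁ L₂ _ => cost_nonneg L₁ L₂

theorem mu_le_one (ex : Prop) (T : τ → Set ℤ) (S : Set ℤ) : mu ex T S ≤ 1 := by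
  have := mu_le ex T (cover_univ ex T S)
  simpa [cost] using this

theorem cost_append (L₁ M₁ : List (ℕ × ℤ)) (L₂ M₂ : List (τ × ℕ × ℤ)) :
    cost (L₁ ++ M₁) (L₂ ++ M₂) = cost L₁ L₂ + cost M₁ M₂ := by
  unfold cost
  rw [List.map_append, List.map_append, List.sum_append, List.sum_append]
  ring

theorem cover_union {ex : Prop} {T : τ → Set ℤ} {X Y : Set ℤ} {L₁ M₁ : List (ℕ × ℤ)}
    {L₂ M₂ : List (τ × ℕ × ℤ)} (h : IsCover ex T X L₁ L₂) (h' : IsCover ex T Y M₁ M₂) :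
    IsCover ex T (X ∪ Y) (L₁ ++ M₁) (L₂ ++ M₂) := by
  obtain ⟨a1, a2, a3, a4⟩ := h
  obtain ⟨b1, b2, b3, b4⟩ := h'
  refine ⟨?_, ?_, ?_, ?_⟩
  · intro p hp
    rcases List.mem_append.1 hp with h | h
    · exact a1 p h
    · exact b1 p h
  · intro p hp
    rcases List.mem_append.1 hp with h | h
    · exact a2 p h
    · exact b2 p h
  · rintro n (hn | hn)
    · rcases a3 n hn with ⟨p, hp, h⟩ | ⟨p, hp, h⟩
      · exact Or.inl ⟨p, List.mem_append_left _ hp, h⟩
      · exact Or.inr ⟨p, List.mem_append_left _ hp, h⟩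
    · rcases b3 n hn with ⟨p, hp, h⟩ | ⟨p, hp, h⟩
      · exact Or.inl ⟨p, List.mem_append_right _ hp, h⟩
      · exact Or.inr ⟨p, List.mem_append_right _ hp, h⟩
  · intro hex q hq
    rcases List.mem_append.1 hq with h | h
    · exact (a4 hex q h).trans Set.subset_union_left
    · exact (b4 hex q h).trans Set.subset_union_right

theorem mu_union (ex : Prop) (T : τ → Set ℤ) (X Y : Set ℤ) :
    mu ex T (X ∪ Y) ≤ mu ex T X + mu ex T Y := by
  refine le_of_forall_pos_lt_add fun ε hε => ?_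
  obtain ⟨L₁, L₂, h, hlt⟩ := exists_cover ex T X (half_pos hε)
  obtain ⟨M₁, M₂, h', hlt'⟩ := exists_cover ex T Y (half_pos hε)
  have := mu_le ex T (cover_union h h')
  rw [cost_append] at this
  linarith

theorem mu_mono (T : τ → Set ℤ) {X Y : Set ℤ} (hXY : X ⊆ Y) :
    mu False T X ≤ mu False T Y := by
  refine le_mu False T fun L₁ L₂ h => mu_le False T ⟨h.1, h.2.1, fun n hn => h.2.2.1 n (hXY hn),
    fun hf => hf.elim⟩

/-- Dilating a cover. -/
theorem cover_dil {ex : Prop} {T : τ → Set ℤ} {S : Set ℤ} {L₁ : List (ℕ × ℤ)}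
    {L₂ : List (τ × ℕ × ℤ)} (k h : ℕ) (hk : 0 < k) (hc : IsCover ex T S L₁ L₂) :
    IsCover ex T (dil k h S) (L₁.map fun p => (k * p.1, k * p.2 + h))
      (L₂.map fun q => (q.1, k * q.2.1, k * q.2.2 + h)) := by
  obtain ⟨a1, a2, a3, a4⟩ := hc
  refine ⟨?_, ?_, ?_, ?_⟩
  · intro p hp
    obtain ⟨p', hp', rfl⟩ := List.mem_map.1 hp
    exact Nat.mul_pos hk (a1 p' hp')
  · intro p hp
    obtain ⟨p', hp', rfl⟩ := List.mem_map.1 hp
    exact Nat.mul_pos hk (a2 p' hp')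
  · rintro _ ⟨s, hs, rfl⟩
    rcases a3 s hs with ⟨p, hp, hps⟩ | ⟨q, hq, t, ht, hqs⟩
    · refine Or.inl ⟨_, List.mem_map.2 ⟨p, hp, rfl⟩, ?_⟩
      simp only [ap, Set.mem_ofPred_eq] at hps ⊢
      obtain ⟨c, hc⟩ := hps
      refine ⟨c, ?_⟩
      push_cast
      linear_combination (k : ℤ) * hc
    · refine Or.inr ⟨_, List.mem_map.2 ⟨q, hq, rfl⟩, t, ht, ?_⟩
      simp only
      push_cast
      rw [hqs]; ring
  · intro hex q hq
    obtain ⟨q', hq', rfl⟩ := List.mem_map.1 hq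
    rintro n ⟨t, ht, rfl⟩
    have h1 : (q'.2.1 : ℤ) * t + q'.2.2 ∈ S := a4 hex q' hq' ⟨t, ht, rfl⟩
    exact ⟨_, h1, by simp only; push_cast; ring⟩

theorem sum_map_div' {α : Type} (L : List α) (f : α → ℝ) (k : ℝ) :
    (L.map fun a => f a / k).sum = (L.map f).sum / k := by
  induction L with
  | nil => simp
  | cons a L ih => simp [ih, add_div]

theorem cost_dil (L₁ : List (ℕ × ℤ)) (L₂ : List (τ × ℕ × ℤ)) (k : ℕ) (h : ℤ) :
    cost (L₁.map fun p => (k * p.1, (k : ℤ) * p.2 + h))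
      (L₂.map fun q => (q.1, k * q.2.1, (k : ℤ) * q.2.2 + h)) = cost L₁ L₂ / k := by
  unfold cost
  rw [List.map_map, List.map_map, add_div, ← sum_map_div', ← sum_map_div']
  congr 1
  · congr 1
    apply List.map_congr_left
    intro p _
    simp only [Function.comp]
    push_cast
    rw [div_div, mul_comm]
  · congr 1
    apply List.map_congr_left
    intro p _
    simp only [Function.comp]
    push_cast
    rw [div_div]
    congr 1
    ring

/-- The preimage of an arithmetic progression under `s ↦ k s + h`. -/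
theorem pre_ap (k : ℕ) (h : ℤ) (hk : 0 < k) (p : ℕ × ℤ) (hp : 0 < p.1) :
    ∃ l : List (ℕ × ℤ), (∀ q ∈ l, 0 < q.1) ∧ (∀ s : ℤ, (k : ℤ) * s + h ∈ ap p → ∃ q ∈ l, s ∈ ap q) ∧
      (l.map fun q => 1 / (q.1 : ℝ)).sum ≤ (Nat.gcd k p.1 : ℝ) / p.1 := by
  by_cases hex : ∃ s₀ : ℤ, (k : ℤ) * s₀ + h ∈ ap p
  · obtain ⟨s₀, hs₀⟩ := hex
    have hg : 0 < Nat.gcd k p.1 := Nat.gcd_pos_of_pos_right _ hp
    have hdvd : Nat.gcd k p.1 ∣ p.1 := Nat.gcd_dvd_right _ _
    refine ⟨[(p.1 / Nat.gcd k p.1, s₀)], ?_, ?_, ?_⟩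
    · intro q hq
      rw [List.mem_singleton] at hq
      subst hq
      exact Nat.div_pos (Nat.le_of_dvd hp hdvd) hg
    · intro s hs
      refine ⟨_, List.mem_singleton_self _, ?_⟩
      simp only [ap, Set.mem_ofPred_eq] at hs hs₀ ⊢
      have h1 : (p.1 : ℤ) ∣ k * (s - s₀) := by
        have := dvd_sub hs hs₀
        have e : (k : ℤ) * s + h - p.2 - ((k : ℤ) * s₀ + h - p.2) = k * (s - s₀) := by ring
        rwa [e] at this
      have h2 : p.1 ∣ k * (s - s₀).natAbs := by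
        have := Int.natAbs_dvd_natAbs.2 h1
        rwa [Int.natAbs_mul, Int.natAbs_natCast, Int.natAbs_natCast] at this
      have h3 : p.1 / Nat.gcd k p.1 ∣ (s - s₀).natAbs := by
        have hc : Nat.Coprime (p.1 / Nat.gcd k p.1) (k / Nat.gcd k p.1) :=
          (Nat.coprime_div_gcd_div_gcd hg).symm
        apply hc.dvd_of_dvd_mul_left
        apply Nat.dvd_of_mul_dvd_mul_left hg
        rw [Nat.mul_div_cancel' hdvd, ← mul_assoc, Nat.mul_div_cancel' (Nat.gcd_dvd_left k p.1)]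
        exact h2
      exact Int.natCast_dvd.2 h3
    · rw [List.map_singleton, List.sum_singleton]
      simp only
      rw [Nat.cast_div hdvd (by positivity)]
      rw [one_div_div]
  · push Not at hex
    refine ⟨[], by simp, fun s hs => absurd hs (hex s), ?_⟩
    simp only [List.map_nil, List.sum_nil]
    positivity

/-- The preimage of a special piece under `s ↦ k s + h`. -/
theorem pre_piece (ex : Prop) (T : τ → Set ℤ) (S : Set ℤ) (k h : ℕ) (hk : 0 < k) (q : τ × ℕ × ℤ)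
    (hq : 0 < q.2.1) (hex : ex → piece T q ⊆ dil k h S) :
    ∃ (l₁ : List (ℕ × ℤ)) (l₂ : List (τ × ℕ × ℤ)), (∀ p ∈ l₁, 0 < p.1) ∧ (∀ q ∈ l₂, 0 < q.2.1) ∧
      (∀ s : ℤ, (k : ℤ) * s + h ∈ piece T q →
        (∃ p ∈ l₁, s ∈ ap p) ∨ ∃ q ∈ l₂, s ∈ piece T q) ∧
      (ex → ∀ q ∈ l₂, piece T q ⊆ S) ∧ cost l₁ l₂ ≤ k * (1 / (2 * (q.2.1 : ℝ))) := by
  have hkz : (k : ℤ) ≠ 0 := by exact_mod_cast hk.ne'
  have hsub : piece T q ⊆ ap (q.2.1, q.2.2) := by
    rintro n ⟨t, -, rfl⟩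
    exact ⟨t, by simp only; ring⟩
  by_cases h1 : k ∣ q.2.1
  · by_cases h2 : (k : ℤ) ∣ q.2.2 - h
    · obtain ⟨a, ha⟩ := h1
      obtain ⟨b, hb⟩ := h2
      have ha0 : 0 < a := by
        rcases Nat.eq_zero_or_pos a with h | h
        · subst h; rw [ha] at hq; simp at hq
        · exact h
      refine ⟨[], [(q.1, a, b)], by simp, ?_, ?_, ?_, ?_⟩
      · intro q' hq'
        rw [List.mem_singleton] at hq'
        subst hq'
        exact ha0
      · rintro s ⟨t, ht, hst⟩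
        refine Or.inr ⟨_, List.mem_singleton_self _, t, ht, ?_⟩
        simp only
        rw [ha] at hst
        push_cast at hst
        apply mul_left_cancel₀ hkz
        linear_combination hst + hb
      · intro hx q' hq'
        rw [List.mem_singleton] at hq'
        subst hq'
        rintro n ⟨t, ht, hn⟩
        simp only at ht hn
        obtain ⟨s, hs, hse⟩ := hex hx ⟨t, ht, rfl⟩
        simp only at hse
        rw [ha] at hse
        push_cast at hse
        have : s = n := by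
          apply mul_left_cancel₀ hkz
          rw [hn]
          linear_combination hse + hb
        rwa [← this]
      · unfold cost
        rw [List.map_nil, List.sum_nil, List.map_singleton, List.sum_singleton]
        simp only
        rw [ha]
        push_cast
        have : (k : ℝ) ≠ 0 := by positivity
        have : (a : ℝ) ≠ 0 := by positivity
        apply le_of_eq
        field_simp
        ring
    · refine ⟨[], [], by simp, by simp, ?_, by simp, ?_⟩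
      · intro s hs
        exfalso
        have := hsub hs
        simp only [ap, Set.mem_ofPred_eq] at this
        apply h2
        have h3 : (k : ℤ) ∣ (k : ℤ) * s + h - q.2.2 :=
          dvd_trans (by exact_mod_cast h1) this
        have h4 : (k : ℤ) ∣ (k : ℤ) * s - ((k : ℤ) * s + h - q.2.2) :=
          dvd_sub (Dvd.intro _ rfl) h3
        have e : (k : ℤ) * s - ((k : ℤ) * s + h - q.2.2) = q.2.2 - h := by ring
        rwa [e] at h4
      · simp only [cost, List.map_nil, List.sum_nil, add_zero]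
        positivity
  · obtain ⟨l, hl1, hl2, hl3⟩ := pre_ap k h hk (q.2.1, q.2.2) hq
    refine ⟨l, [], hl1, by simp, ?_, by simp, ?_⟩
    · intro s hs
      obtain ⟨p, hp, hsp⟩ := hl2 s (hsub hs)
      exact Or.inl ⟨p, hp, hsp⟩
    · unfold cost
      rw [List.map_nil, List.sum_nil, add_zero]
      refine hl3.trans ?_
      simp only
      have hd : Nat.gcd k q.2.1 ∣ k := Nat.gcd_dvd_left _ _
      have hne : Nat.gcd k q.2.1 ≠ k := by
        intro h
        exact h1 (Nat.gcd_eq_left_iff_dvd.1 h)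
      have h2 : 2 * Nat.gcd k q.2.1 ≤ k := by
        obtain ⟨c, hc⟩ := hd
        have hc2 : 2 ≤ c := by
          rcases c with _ | _ | c
          · rw [mul_zero] at hc; omega
          · rw [zero_add, mul_one] at hc; exact absurd hc.symm hne
          · omega
        calc 2 * Nat.gcd k q.2.1 = Nat.gcd k q.2.1 * 2 := by ring
          _ ≤ Nat.gcd k q.2.1 * c := Nat.mul_le_mul_left _ hc2
          _ = k := hc.symm
      have h3 : (2 : ℝ) * (Nat.gcd k q.2.1 : ℝ) ≤ k := by exact_mod_cast h2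
      have h4 : (0 : ℝ) < q.2.1 := by exact_mod_cast hq
      rw [mul_one_div, div_le_div_iff₀ h4 (by positivity)]
      nlinarith

theorem cost_cons₁ (p : ℕ × ℤ) (L₁ : List (ℕ × ℤ)) (L₂ : List (τ × ℕ × ℤ)) :
    cost (p :: L₁) L₂ = 1 / (p.1 : ℝ) + cost L₁ L₂ := by
  unfold cost
  rw [List.map_cons, List.sum_cons]; ring

theorem cost_cons₂ (q : τ × ℕ × ℤ) (L₁ : List (ℕ × ℤ)) (L₂ : List (τ × ℕ × ℤ)) :
    cost L₁ (q :: L₂) = 1 / (2 * (q.2.1 : ℝ)) + cost L₁ L₂ := by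
  unfold cost
  rw [List.map_cons, List.sum_cons]; ring

/-- Pulling back a cover of `k S + h` to a cover of `S`. -/
theorem exists_pullback (ex : Prop) (T : τ → Set ℤ) (S : Set ℤ) (k h : ℕ) (hk : 0 < k)
    (L₁ : List (ℕ × ℤ)) (L₂ : List (τ × ℕ × ℤ)) (h1 : ∀ p ∈ L₁, 0 < p.1)
    (h2 : ∀ q ∈ L₂, 0 < q.2.1) (h3 : ex → ∀ q ∈ L₂, piece T q ⊆ dil k h S) :
    ∃ (M₁ : List (ℕ × ℤ)) (M₂ : List (τ × ℕ × ℤ)), (∀ p ∈ M₁, 0 < p.1) ∧
      (∀ q ∈ M₂, 0 < q.2.1) ∧
      (∀ s : ℤ, ((∃ p ∈ L₁, (k : ℤ) * s + h ∈ ap p) ∨ ∃ q ∈ L₂, (k : ℤ) * s + h ∈ piece T q) →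
        (∃ p ∈ M₁, s ∈ ap p) ∨ ∃ q ∈ M₂, s ∈ piece T q) ∧
      (ex → ∀ q ∈ M₂, piece T q ⊆ S) ∧ cost M₁ M₂ ≤ k * cost L₁ L₂ := by
  induction L₁ with
  | nil =>
    induction L₂ with
    | nil =>
      refine ⟨[], [], by simp, by simp, by simp, by simp, by simp [cost]⟩
    | cons q L₂ ih =>
      obtain ⟨M₁, M₂, a1, a2, a3, a4, a5⟩ := ih (fun q' hq' => h2 q' (List.mem_cons_of_mem _ hq'))
        (fun hx q' hq' => h3 hx q' (List.mem_cons_of_mem _ hq'))
      obtain ⟨l₁, l₂, b1, b2, b3, b4, b5⟩ := pre_piece ex T S k h hk q (h2 q List.mem_cons_self)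
        (fun hx => h3 hx q List.mem_cons_self)
      refine ⟨l₁ ++ M₁, l₂ ++ M₂, ?_, ?_, ?_, ?_, ?_⟩
      · intro p hp
        rcases List.mem_append.1 hp with h | h
        exacts [b1 p h, a1 p h]
      · intro p hp
        rcases List.mem_append.1 hp with h | h
        exacts [b2 p h, a2 p h]
      · rintro s (⟨p, hp, -⟩ | ⟨q', hq', hs⟩)
        · simp at hp
        · rcases List.mem_cons.1 hq' with rfl | hq''
          · rcases b3 s hs with ⟨p, hp, h⟩ | ⟨p, hp, h⟩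
            · exact Or.inl ⟨p, List.mem_append_left _ hp, h⟩
            · exact Or.inr ⟨p, List.mem_append_left _ hp, h⟩
          · rcases a3 s (Or.inr ⟨q', hq'', hs⟩) with ⟨p, hp, h⟩ | ⟨p, hp, h⟩
            · exact Or.inl ⟨p, List.mem_append_right _ hp, h⟩
            · exact Or.inr ⟨p, List.mem_append_right _ hp, h⟩
      · intro hx p hp
        rcases List.mem_append.1 hp with h | h
        exacts [b4 hx p h, a4 hx p h]
      · rw [cost_append, cost_cons₂]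
        linarith
  | cons p L₁ ih =>
    obtain ⟨M₁, M₂, a1, a2, a3, a4, a5⟩ := ih (fun q' hq' => h1 q' (List.mem_cons_of_mem _ hq'))
    obtain ⟨l, b1, b2, b3⟩ := pre_ap k h hk p (h1 p List.mem_cons_self)
    have h4 : (0 : ℝ) < p.1 := by exact_mod_cast h1 p List.mem_cons_self
    refine ⟨l ++ M₁, M₂, ?_, a2, ?_, a4, ?_⟩
    · intro p hp
      rcases List.mem_append.1 hp with h | h
      exacts [b1 p h, a1 p h]
    · rintro s (⟨p', hp', hs⟩ | ⟨q', hq', hs⟩)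
      · rcases List.mem_cons.1 hp' with rfl | hp''
        · obtain ⟨q, hq, hsq⟩ := b2 s hs
          exact Or.inl ⟨q, List.mem_append_left _ hq, hsq⟩
        · rcases a3 s (Or.inl ⟨p', hp'', hs⟩) with ⟨p, hp, h⟩ | ⟨p, hp, h⟩
          · exact Or.inl ⟨p, List.mem_append_right _ hp, h⟩
          · exact Or.inr ⟨p, hp, h⟩
      · rcases a3 s (Or.inr ⟨q', hq', hs⟩) with ⟨p, hp, h⟩ | ⟨p, hp, h⟩
        · exact Or.inl ⟨p, List.mem_append_right _ hp, h⟩
        · exact Or.inr ⟨p, hp, h⟩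
    · have e : cost (l ++ M₁) M₂ = (l.map fun q => 1 / (q.1 : ℝ)).sum + cost M₁ M₂ := by
        unfold cost
        rw [List.map_append, List.sum_append]; ring
      rw [e, cost_cons₁, mul_add]
      have h5 : (Nat.gcd k p.1 : ℝ) / p.1 ≤ k * (1 / (p.1 : ℝ)) := by
        rw [mul_one_div]
        apply div_le_div_of_nonneg_right _ h4.le
        exact_mod_cast Nat.gcd_le_left _ hk
      linarith

/-- The dilation axiom. -/
theorem mu_dil (ex : Prop) (T : τ → Set ℤ) (S : Set ℤ) (h k : ℕ) (hk : 0 < k) :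
    mu ex T (dil k h S) = mu ex T S / k := by
  have hk' : (0 : ℝ) < k := by exact_mod_cast hk
  apply le_antisymm
  · rw [le_div_iff₀ hk']
    refine le_of_forall_pos_lt_add fun ε hε => ?_
    obtain ⟨L₁, L₂, hc, hlt⟩ := exists_cover ex T S hε
    have h1 := mu_le ex T (cover_dil k h hk hc)
    rw [cost_dil, le_div_iff₀ hk'] at h1
    linarith
  · rw [div_le_iff₀ hk']
    refine le_of_forall_pos_lt_add fun ε hε => ?_
    obtain ⟨L₁, L₂, hc, hlt⟩ := exists_cover ex T (dil k h S) (div_pos hε hk')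
    obtain ⟨M₁, M₂, a1, a2, a3, a4, a5⟩ := exists_pullback ex T S k h hk L₁ L₂ hc.1 hc.2.1 hc.2.2.2
    have hcov : IsCover ex T S M₁ M₂ :=
      ⟨a1, a2, fun n hn => a3 n (hc.2.2.1 _ ⟨n, hn, rfl⟩), a4⟩
    have h1 := mu_le ex T hcov
    have h2 : (k : ℝ) * cost L₁ L₂ < k * (mu ex T (dil k h S) + ε / k) :=
      mul_lt_mul_of_pos_left hlt hk'
    rw [mul_add, mul_div_cancel₀ _ hk'.ne'] at h2
    linarith

/-- `mu` is an upper quasi-density on `H` as soon as `mu H ≥ 1`. -/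
theorem isUpperQuasiDensity (ex : Prop) (T : τ → Set ℤ) (H : Set ℤ) (hH : 1 ≤ mu ex T H) :
    IsUpperQuasiDensity H (mu ex T) where
  F1 := le_antisymm (mu_le_one ex T H) hH
  F3 := fun X Y _ _ => mu_union ex T X Y
  F4 := fun X _ h k _ hk => mu_dil ex T X h k hk
  le_one := fun X _ => mu_le_one ex T X

/-- `mu False` is an upper density on `H` as soon as `mu H ≥ 1`. -/
theorem isUpperDensity (T : τ → Set ℤ) (H : Set ℤ) (hH : 1 ≤ mu False T H) :
    IsUpperDensity H (mu False T) where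
  toIsUpperQuasiDensity := isUpperQuasiDensity False T H hH
  mono := fun _ _ hXY _ => mu_mono T hXY

end Q249.Cover
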