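import Mathlib
import Pool.Agent.Q249.CoverDensity

/-!
Lower bounds for the cost of covers, by counting the active pieces in each residue class.
-/

namespace Q249.Cover

open Q249.Generic Q249.QD

variable {τ : Type}

/-- The piece with modulus and shift `p` meets the residue class of `r`. -/
def act (r : ℤ) (p : ℕ × ℤ) : Prop := (p.1 : ℤ) ∣ r - p.2

instance (r : ℤ) (p : ℕ × ℤ) : Decidable (act r p) := by unfold act; infer_instance

theorem act_congr {D : ℕ} {n r : ℤ} (h : (D : ℤ) ∣ n - r) {p : ℕ × ℤ} (hp : p.1 ∣ D) :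
    act n p ↔ act r p := by
  unfold act
  have h1 : (p.1 : ℤ) ∣ n - r := dvd_trans (by exact_mod_cast hp) h
  constructor
  · intro h2
    have := dvd_sub h2 h1
    have e : n - p.2 - (n - r) = r - p.2 := by ring
    rwa [e] at this
  · intro h2
    have := dvd_add h2 h1
    have e : r - p.2 + (n - r) = n - p.2 := by ring
    rwa [e] at this

theorem mem_ap {n : ℤ} {p : ℕ × ℤ} : n ∈ ap p ↔ act n p := Iff.rfl

theorem mem_piece {T : τ → Set ℤ} {n : ℤ} {q : τ × ℕ × ℤ} (hq : 0 < q.2.1) :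
    n ∈ piece T q ↔ act n q.2 ∧ pos n q.2 ∈ T q.1 := by
  have hz : (q.2.1 : ℤ) ≠ 0 := by exact_mod_cast hq.ne'
  unfold piece act pos
  constructor
  · rintro ⟨t, ht, rfl⟩
    refine ⟨⟨t, by ring⟩, ?_⟩
    have : (q.2.1 : ℤ) * t + q.2.2 - q.2.2 = q.2.1 * t := by ring
    rw [this, Int.mul_ediv_cancel_left _ hz]
    exact ht
  · rintro ⟨h1, h2⟩
    refine ⟨_, h2, ?_⟩
    rw [Int.mul_ediv_cancel' h1]; ring

/-- Twice the number of active progressions plus the number of active special pieces. -/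
def cnt (L₁ : List (ℕ × ℤ)) (L₂ : List (τ × ℕ × ℤ)) (r : ℤ) : ℕ :=
  2 * L₁.countP (fun p => act r p) + L₂.countP (fun q => act r q.2)

/-- Number of residues modulo `D` in a given class modulo `k ∣ D`. -/
theorem card_act {D : ℕ} (hD : 0 < D) {p : ℕ × ℤ} (hp : 0 < p.1) (hpD : p.1 ∣ D) :
    (((Finset.Ico (0 : ℤ) D).filter fun r => act r p).card : ℝ) = D * (1 / (p.1 : ℝ)) := by
  obtain ⟨m, rfl⟩ := hpD
  have hz : (0 : ℤ) < p.1 := by exact_mod_cast hp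
  have h1 := Int.Ico_filter_modEq_card (a := 0) (b := ((p.1 * m : ℕ) : ℤ)) hz p.2
  have e : (Finset.Ico (0 : ℤ) ((p.1 * m : ℕ) : ℤ)).filter (fun r => act r p) =
      (Finset.Ico (0 : ℤ) ((p.1 * m : ℕ) : ℤ)).filter (fun r => r ≡ p.2 [ZMOD p.1]) := by
    apply Finset.filter_congr
    intro r _
    unfold act
    rw [Int.modEq_comm, Int.modEq_iff_dvd]
  rw [e]
  have h2 : ((((Finset.Ico (0 : ℤ) ((p.1 * m : ℕ) : ℤ)).filter
      (fun r => r ≡ p.2 [ZMOD p.1])).card : ℤ)) = m := by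
    rw [h1]
    have h3 : ((((p.1 * m : ℕ) : ℤ) : ℚ) - (p.2 : ℚ)) / ((p.1 : ℤ) : ℚ) =
        (((0 : ℤ) : ℚ) - (p.2 : ℚ)) / ((p.1 : ℤ) : ℚ) + ((m : ℤ) : ℚ) := by
      push_cast
      have : (p.1 : ℚ) ≠ 0 := by exact_mod_cast hp.ne'
      field_simp
      ring
    rw [h3, Int.ceil_add_intCast]
    have : (0 : ℤ) ≤ m := by positivity
    rw [add_sub_cancel_left, max_eq_left this]
  have h4 : (((Finset.Ico (0 : ℤ) ((p.1 * m : ℕ) : ℤ)).filter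
      (fun r => r ≡ p.2 [ZMOD p.1])).card : ℝ) = m := by exact_mod_cast h2
  rw [h4]
  have : (p.1 : ℝ) ≠ 0 := by exact_mod_cast hp.ne'
  push_cast
  field_simp

theorem sum_countP {α : Type} {D : ℕ} (hD : 0 < D) (f : α → ℕ × ℤ) (L : List α)
    (hL : ∀ a ∈ L, 0 < (f a).1 ∧ (f a).1 ∣ D) :
    ∑ r ∈ Finset.Ico (0 : ℤ) D, ((L.countP (fun a => act r (f a)) : ℕ) : ℝ) =
      D * (L.map fun a => 1 / ((f a).1 : ℝ)).sum := by
  induction L with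
  | nil => simp
  | cons a L ih =>
    have h1 := ih fun b hb => hL b (List.mem_cons_of_mem _ hb)
    obtain ⟨h2, h3⟩ := hL a List.mem_cons_self
    rw [List.map_cons, List.sum_cons, mul_add, ← h1, ← card_act hD h2 h3]
    simp only [List.countP_cons]
    push_cast
    rw [Finset.sum_add_distrib, add_comm]
    congr 1
    rw [Finset.card_filter]
    push_cast
    apply Finset.sum_congr rfl
    intro r _
    simp

theorem sum_map_mul' {α : Type} (L : List α) (f : α → ℝ) (k : ℝ) :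
    (L.map fun a => k * f a).sum = k * (L.map f).sum := by
  induction L with
  | nil => simp
  | cons a L ih => simp [ih, mul_add]

theorem sum_cnt {D : ℕ} (hD : 0 < D) (L₁ : List (ℕ × ℤ)) (L₂ : List (τ × ℕ × ℤ))
    (h1 : ∀ p ∈ L₁, 0 < p.1 ∧ p.1 ∣ D) (h2 : ∀ q ∈ L₂, 0 < q.2.1 ∧ q.2.1 ∣ D) :
    ∑ r ∈ Finset.Ico (0 : ℤ) D, (cnt L₁ L₂ r : ℝ) = 2 * D * cost L₁ L₂ := by
  unfold cnt cost
  push_cast
  rw [Finset.sum_add_distrib, ← Finset.mul_sum,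
    sum_countP hD (fun p => p) L₁ h1, sum_countP hD (fun q => q.2) L₂ h2]
  have e : (L₂.map fun q => 1 / (2 * (q.2.1 : ℝ))).sum =
      1 / 2 * (L₂.map fun q => 1 / (q.2.1 : ℝ)).sum := by
    rw [← sum_map_mul']
    congr 1
    apply List.map_congr_left
    intro q _
    rw [one_div_mul_one_div]
  rw [e]
  ring

/-- If each residue class has `cnt ≥ 2`, the cost is at least `1`. -/
theorem one_le_cost {D : ℕ} (hD : 0 < D) (L₁ : List (ℕ × ℤ)) (L₂ : List (τ × ℕ × ℤ))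
    (h1 : ∀ p ∈ L₁, 0 < p.1 ∧ p.1 ∣ D) (h2 : ∀ q ∈ L₂, 0 < q.2.1 ∧ q.2.1 ∣ D)
    (h : ∀ r : ℤ, 2 ≤ cnt L₁ L₂ r) : 1 ≤ cost L₁ L₂ := by
  have h3 := sum_cnt hD L₁ L₂ h1 h2
  have h4 : ∑ r ∈ Finset.Ico (0 : ℤ) D, (2 : ℝ) ≤ ∑ r ∈ Finset.Ico (0 : ℤ) D, (cnt L₁ L₂ r : ℝ) :=
    Finset.sum_le_sum fun r _ => by exact_mod_cast h r
  rw [h3, Finset.sum_const, Int.card_Ico, nsmul_eq_mul] at h4
  have hD' : (0 : ℝ) < D := by exact_mod_cast hD
  simp only [sub_zero, Int.toNat_natCast] at h4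
  nlinarith

theorem prod_pos' (L : List ℕ) (h : ∀ a ∈ L, 0 < a) : 0 < L.prod := by
  induction L with
  | nil => simp
  | cons a L ih =>
    rw [List.prod_cons]
    exact Nat.mul_pos (h a List.mem_cons_self) (ih fun b hb => h b (List.mem_cons_of_mem _ hb))

/-- A common modulus. -/
theorem exists_modulus (L₁ : List (ℕ × ℤ)) (L₂ : List (τ × ℕ × ℤ))
    (h1 : ∀ p ∈ L₁, 0 < p.1) (h2 : ∀ q ∈ L₂, 0 < q.2.1) :
    ∃ D : ℕ, 0 < D ∧ (∀ p ∈ L₁, 0 < p.1 ∧ 2 * p.1 ∣ D) ∧ ∀ q ∈ L₂, 0 < q.2.1 ∧ 2 * q.2.1 ∣ D := by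
  refine ⟨2 * ((L₁.map fun p => p.1).prod * (L₂.map fun q => q.2.1).prod), ?_, ?_, ?_⟩
  · apply Nat.mul_pos two_pos (Nat.mul_pos (prod_pos' _ _) (prod_pos' _ _))
    · intro a ha
      obtain ⟨p, hp, rfl⟩ := List.mem_map.1 ha
      exact h1 p hp
    · intro a ha
      obtain ⟨p, hp, rfl⟩ := List.mem_map.1 ha
      exact h2 p hp
  · intro p hp
    exact ⟨h1 p hp, Nat.mul_dvd_mul_left _ (Dvd.dvd.mul_right
      (List.dvd_prod (List.mem_map.2 ⟨p, hp, rfl⟩)) _)⟩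
  · intro q hq
    exact ⟨h2 q hq, Nat.mul_dvd_mul_left _ (Dvd.dvd.mul_left
      (List.dvd_prod (List.mem_map.2 ⟨q, hq, rfl⟩)) _)⟩

/-- Generic sets, bundled. -/
def IsGeneric (X : Set ℤ) : Prop := ∀ R : Req, Good R →
    ∃ n : ℤ, (R.1 : ℤ) < n ∧ n ≡ R.2.2.1 [ZMOD R.2.1] ∧
      ∀ p ∈ R.2.2.2.1, n = p.1 * pos n p + p.2 ∧ (pos n p ∈ X ↔ p ∈ R.2.2.2.2)

theorem IsGeneric.use {X : Set ℤ} (hX : IsGeneric X) {D : ℕ} (hD : 0 < D) (r : ℤ) (B : ℕ)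
    (P : Finset (ℕ × ℤ)) (hP : ∀ p ∈ P, 0 < p.1 ∧ p.1 ∣ D ∧ act r p) (E : ℕ × ℤ → Prop) :
    ∃ n : ℤ, (B : ℤ) < n ∧ (D : ℤ) ∣ n - r ∧ ∀ p ∈ P, (pos n p ∈ X ↔ E p) := by
  classical
  obtain ⟨n, h1, h2, h3⟩ := hX (B, D, r, P, P.filter E)
    ⟨hD, fun p hp => ⟨(hP p hp).1, by exact_mod_cast (hP p hp).2.1, (hP p hp).2.2⟩⟩
  refine ⟨n, h1, ?_, fun p hp => ?_⟩
  · exact Int.modEq_iff_dvd.1 h2.symm
  · rw [(h3 p hp).2]
    simp only [Finset.mem_filter]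
    exact ⟨fun h => h.2, fun h => ⟨hp, h⟩⟩

theorem exists_isGeneric : ∃ X : Set ℤ, IsGeneric X := exists_generic

theorem pos_one_zero (n : ℤ) : pos n (1, 0) = n := by
  unfold pos; simp

theorem act_one_zero (r : ℤ) : act r (1, 0) := by
  unfold act; simp

end Q249.Cover
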