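import Mathlib
import Pool.Agent.Q249.CoverLower

/-!
Three applications of the cover densities.
-/

namespace Q249.Cover

open Q249.Generic Q249.QD

/-! ### A: lower densities need not be homogeneous -/

/-- The odd integers and the doubles of the elements of `Z`. -/
def W (Z : Set ℤ) : Set ℤ := {n | ¬ (2 : ℤ) ∣ n ∨ ∃ z ∈ Z, n = 2 * z}

theorem one_le_mu_A {Z : Set ℤ} (hZ : IsGeneric Z) (S : Set ℤ) (B : ℕ)
    (hS : ∀ n ∈ Z, (B : ℤ) < n → n ∈ S) : 1 ≤ mu False (fun _ : Unit => W Z) S := by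
  classical
  refine le_mu _ _ fun L₁ L₂ hc => ?_
  obtain ⟨D, hD, hD1, hD2⟩ := exists_modulus L₁ L₂ hc.1 hc.2.1
  set L' : List (ℕ × ℤ) := L₁ ++ L₂.map (fun q => (2 * q.2.1, (q.2.1 : ℤ) + q.2.2)) with hL'
  have hcost : cost L' ([] : List (Unit × ℕ × ℤ)) = cost L₁ L₂ := by
    unfold cost
    rw [hL', List.map_append, List.sum_append, List.map_map, List.map_nil, List.sum_nil, add_zero]
    congr 2
    apply List.map_congr_left
    intro q _
    simp only [Function.comp]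
    push_cast
    ring
  rw [← hcost]
  have hL'D : ∀ p ∈ L', 0 < p.1 ∧ p.1 ∣ D := by
    intro p hp
    rcases List.mem_append.1 hp with h | h
    · exact ⟨(hD1 p h).1, dvd_trans (Dvd.intro_left _ rfl) (hD1 p h).2⟩
    · obtain ⟨q, hq, rfl⟩ := List.mem_map.1 h
      exact ⟨Nat.mul_pos two_pos (hD2 q hq).1, (hD2 q hq).2⟩
  refine one_le_cost hD L' [] hL'D (by simp) fun r => ?_
  unfold cnt
  rw [List.countP_nil, add_zero]
  suffices h : 0 < L'.countP (fun p => act r p) by omega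
  rw [List.countP_pos_iff]
  by_contra hcon
  push Not at hcon
  replace hcon : ∀ p ∈ L', ¬ act r p := fun p hp h => hcon p hp (by simpa using h)
  -- choose `n`
  let P : Finset (ℕ × ℤ) := {(1, 0)} ∪
    ((L₂.map fun q => (2 * q.2.1, q.2.2)).toFinset.filter fun p => act r p)
  have hP : ∀ p ∈ P, 0 < p.1 ∧ p.1 ∣ D ∧ act r p := by
    intro p hp
    rcases Finset.mem_union.1 hp with h | h
    · rw [Finset.mem_singleton] at h
      subst h
      exact ⟨one_pos, one_dvd _, act_one_zero r⟩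
    · obtain ⟨h1, h2⟩ := Finset.mem_filter.1 h
      rw [List.mem_toFinset] at h1
      obtain ⟨q, hq, rfl⟩ := List.mem_map.1 h1
      exact ⟨Nat.mul_pos two_pos (hD2 q hq).1, (hD2 q hq).2, h2⟩
  obtain ⟨n, hn1, hn2, hn3⟩ := hZ.use hD r B P hP (fun p => p = (1, 0))
  have hnZ : n ∈ Z := by
    have := (hn3 (1, 0) (Finset.mem_union_left _ (Finset.mem_singleton_self _))).2 rfl
    rwa [pos_one_zero] at this
  rcases hc.2.2.1 n (hS n hnZ hn1) with ⟨p, hp, hnp⟩ | ⟨q, hq, hnq⟩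
  · have hp' : p ∈ L' := List.mem_append_left _ hp
    exact hcon p hp' ((act_congr hn2 (hL'D p hp').2).1 hnp)
  · obtain ⟨t, ht, hnt⟩ := hnq
    rcases ht with ht | ⟨z, hz, rfl⟩
    · have hp' : (2 * q.2.1, (q.2.1 : ℤ) + q.2.2) ∈ L' :=
        List.mem_append_right _ (List.mem_map.2 ⟨q, hq, rfl⟩)
      refine hcon _ hp' ((act_congr hn2 (hL'D _ hp').2).1 ?_)
      unfold act
      obtain ⟨m, hm⟩ : ∃ m, t = 2 * m + 1 := by
        rw [Int.two_dvd_ne_zero] at ht
        exact ⟨t / 2, by omega⟩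
      refine ⟨m, ?_⟩
      rw [hnt, hm]
      push_cast
      ring
    · have hact : act n (2 * q.2.1, q.2.2) := by
        unfold act
        refine ⟨z, ?_⟩
        rw [hnt]
        push_cast
        ring
      have hact' : act r (2 * q.2.1, q.2.2) := (act_congr hn2 (hD2 q hq).2).1 hact
      have hmem : (2 * q.2.1, q.2.2) ∈ P := by
        apply Finset.mem_union_right
        rw [Finset.mem_filter, List.mem_toFinset]
        exact ⟨List.mem_map.2 ⟨q, hq, rfl⟩, hact'⟩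
      have hpos : pos n (2 * q.2.1, q.2.2) = z := by
        unfold pos
        have h0 : ((2 * q.2.1 : ℕ) : ℤ) ≠ 0 := by
          have := (hD2 q hq).1
          exact_mod_cast (Nat.mul_pos two_pos this).ne'
        have e : n - q.2.2 = ((2 * q.2.1 : ℕ) : ℤ) * z := by
          rw [hnt]; push_cast; ring
        simp only
        rw [e, Int.mul_ediv_cancel_left _ h0]
      have := (hn3 _ hmem).1 (by rw [hpos]; exact hz)
      have h1 : 2 * q.2.1 = 1 := congrArg Prod.fst this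
      omega

theorem mu_W_le (Z : Set ℤ) {S : Set ℤ} (hS : S ⊆ W Z) :
    mu False (fun _ : Unit => W Z) S ≤ 1 / 2 := by
  have hc : IsCover False (fun _ : Unit => W Z) S [] [((), 1, 0)] := by
    refine ⟨by simp, by simp, fun n hn => Or.inr ⟨_, List.mem_singleton_self _, n, hS hn, ?_⟩,
      fun hf => hf.elim⟩
    simp
  have := mu_le _ _ hc
  simpa [cost] using this

theorem nonhomogeneous (H : Set ℤ) (hH : H = Set.univ ∨ H = NN ∨ H = PP) :
    ∃ μ : Set ℤ → ℝ, IsUpperDensity H μ ∧ ∃ X : Set ℤ, X ⊆ H ∧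
      lowerDual H μ (dil 2 0 X) ≠ lowerDual H μ X / 2 := by
  obtain ⟨Z, hZ⟩ := exists_isGeneric
  have hPP : ∀ n : ℤ, 0 < n → n ∈ H := by
    intro n hn
    rcases hH with rfl | rfl | rfl
    · trivial
    · exact hn.le
    · exact hn
  have hhalf : ∀ n : ℤ, 2 * n ∈ H → n ∈ H := by
    intro n hn
    rcases hH with rfl | rfl | rfl
    · trivial
    · simp only [NN, Set.mem_ofPred_eq] at hn ⊢; omega
    · simp only [PP, Set.mem_ofPred_eq] at hn ⊢; omega
  refine ⟨mu False (fun _ : Unit => W Z),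
    isUpperDensity _ H (one_le_mu_A hZ H 0 fun n _ hn => hPP n (by simpa using hn)), H \ Z,
    Set.sdiff_subset, ?_⟩
  have h1 : 1 ≤ mu False (fun _ : Unit => W Z) (H \ (H \ Z)) := by
    refine one_le_mu_A hZ _ 0 fun n hn hn0 => ⟨hPP n (by simpa using hn0), fun h => h.2 hn⟩
  have h2 : mu False (fun _ : Unit => W Z) (H \ dil 2 0 (H \ Z)) ≤ 1 / 2 := by
    refine mu_W_le Z ?_
    rintro n ⟨hn, hn'⟩
    by_cases h : (2 : ℤ) ∣ n
    · obtain ⟨m, rfl⟩ := h
      refine Or.inr ⟨m, ?_, rfl⟩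
      by_contra hm
      exact hn' ⟨m, ⟨hhalf m hn, hm⟩, by simp⟩
    · exact Or.inl h
  have h3 := mu_le_one False (fun _ : Unit => W Z) (H \ (H \ Z))
  have h4 : mu False (fun _ : Unit => W Z) (H \ (H \ Z)) = 1 := le_antisymm h3 h1
  unfold lowerDual
  rw [h4]
  intro h
  linarith

/-! ### C: lower quasi-densities need not be translation invariant -/

/-- The special set. -/
def V (X : Set ℤ) : Set ℤ := {n | n = 0 ∨ (0 < n ∧ n ∈ X)}

theorem one_le_mu_C {X : Set ℤ} (hX : IsGeneric X) (S : Set ℤ) (B : ℕ)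
    (hS : ∀ n : ℤ, (B : ℤ) < n → n ∈ S) : 1 ≤ mu True (fun _ : Unit => V X) S := by
  classical
  refine le_mu _ _ fun L₁ L₂ hc => ?_
  obtain ⟨D, hD, hD1, hD2⟩ := exists_modulus L₁ L₂ hc.1 hc.2.1
  have hle : cost L₁ ([] : List (Unit × ℕ × ℤ)) ≤ cost L₁ L₂ := by
    unfold cost
    rw [List.map_nil, List.sum_nil, add_zero]
    have : 0 ≤ (L₂.map fun q => 1 / (2 * (q.2.1 : ℝ))).sum := by
      apply List.sum_nonneg
      intro x hx
      obtain ⟨p, -, rfl⟩ := List.mem_map.1 hx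
      positivity
    linarith
  refine le_trans ?_ hle
  have hD1' : ∀ p ∈ L₁, 0 < p.1 ∧ p.1 ∣ D := fun p hp =>
    ⟨(hD1 p hp).1, dvd_trans (Dvd.intro_left _ rfl) (hD1 p hp).2⟩
  refine one_le_cost hD L₁ [] hD1' (by simp) fun r => ?_
  unfold cnt
  rw [List.countP_nil, add_zero]
  suffices h : 0 < L₁.countP (fun p => act r p) by omega
  rw [List.countP_pos_iff]
  by_contra hcon
  push Not at hcon
  replace hcon : ∀ p ∈ L₁, ¬ act r p := fun p hp h => hcon p hp (by simpa using h)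
  let P : Finset (ℕ × ℤ) := (L₂.map fun q => q.2).toFinset.filter fun p => act r p
  have hP : ∀ p ∈ P, 0 < p.1 ∧ p.1 ∣ D ∧ act r p := by
    intro p hp
    obtain ⟨h1, h2⟩ := Finset.mem_filter.1 hp
    rw [List.mem_toFinset] at h1
    obtain ⟨q, hq, rfl⟩ := List.mem_map.1 h1
    exact ⟨(hD2 q hq).1, dvd_trans (Dvd.intro_left _ rfl) (hD2 q hq).2, h2⟩
  -- a bound beyond all shifts
  obtain ⟨B', hB'⟩ : ∃ B' : ℕ, B ≤ B' ∧ ∀ q ∈ L₂, q.2.2 ≤ (B' : ℤ) := by
    refine ⟨B + (L₂.map fun q => q.2.2.natAbs).sum, by omega, fun q hq => ?_⟩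
    have h1 : q.2.2.natAbs ≤ (L₂.map fun q => q.2.2.natAbs).sum :=
      List.single_le_sum (by simp) _ (List.mem_map.2 ⟨q, hq, rfl⟩)
    omega
  obtain ⟨n, hn1, hn2, hn3⟩ := hX.use hD r B' P hP (fun _ => False)
  have hBB : (B : ℤ) ≤ B' := by exact_mod_cast hB'.1
  rcases hc.2.2.1 n (hS n (by linarith)) with ⟨p, hp, hnp⟩ | ⟨q, hq, hnq⟩
  · exact hcon p hp ((act_congr hn2 (hD1' p hp).2).1 hnp)
  · have hq0 := (hD2 q hq).1
    obtain ⟨h1, h2⟩ := (mem_piece (T := fun _ : Unit => V X) hq0).1 hnq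
    have h1' : act r q.2 :=
      (act_congr hn2 (dvd_trans (Dvd.intro_left _ rfl) (hD2 q hq).2)).1 h1
    have hmem : q.2 ∈ P := by
      rw [Finset.mem_filter, List.mem_toFinset]
      exact ⟨List.mem_map.2 ⟨q, hq, rfl⟩, h1'⟩
    rcases h2 with h2 | ⟨-, h2⟩
    · have h3 := hB'.2 q hq
      unfold pos at h2
      obtain ⟨c, hc'⟩ := h1
      have hz : (q.2.1 : ℤ) ≠ 0 := by exact_mod_cast hq0.ne'
      rw [hc', Int.mul_ediv_cancel_left _ hz] at h2
      rw [h2, mul_zero] at hc'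
      linarith
    · exact (hn3 _ hmem).1 h2

theorem mu_V_le (X : Set ℤ) : mu True (fun _ : Unit => V X) (V X) ≤ 1 / 2 := by
  have hc : IsCover True (fun _ : Unit => V X) (V X) [] [((), 1, 0)] := by
    refine ⟨by simp, by simp, fun n hn => Or.inr ⟨_, List.mem_singleton_self _, n, hn, ?_⟩, ?_⟩
    · simp
    · intro _ q hq
      rw [List.mem_singleton] at hq
      subst hq
      rintro n ⟨t, ht, rfl⟩
      simpa using ht
  have := mu_le _ _ hc
  simpa [cost] using this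

theorem one_le_mu_C' {X : Set ℤ} (hX : IsGeneric X) :
    1 ≤ mu True (fun _ : Unit => V X) {n | 0 < n ∧ n ∈ X} := by
  classical
  refine le_mu _ _ fun L₁ L₂ hc => ?_
  -- no special pieces
  have hL₂ : L₂ = [] := by
    rcases L₂ with _ | ⟨q, L₂⟩
    · rfl
    exfalso
    have hq0 : 0 < q.2.1 := hc.2.1 q List.mem_cons_self
    have hsub := hc.2.2.2 trivial q List.mem_cons_self
    by_cases hq : q.2 = (1, 0)
    · have h0 : (0 : ℤ) ∈ piece (fun _ : Unit => V X) q := ⟨0, Or.inl rfl, by simp [hq]⟩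
      have := hsub h0
      exact lt_irrefl _ this.1
    · obtain ⟨n, hn1, hn2, hn3⟩ := hX.use (D := q.2.1) hq0 q.2.2 q.2.2.natAbs {(1, 0), q.2} (by
        intro p hp
        rw [Finset.mem_insert, Finset.mem_singleton] at hp
        rcases hp with rfl | rfl
        · exact ⟨one_pos, one_dvd _, act_one_zero _⟩
        · exact ⟨hq0, dvd_rfl, by unfold act; simp⟩) (fun p => p = q.2)
      have h1 : pos n q.2 ∈ X := (hn3 q.2 (by simp)).2 rfl
      have h2 : n ∉ X := by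
        have := hn3 (1, 0) (by simp)
        rw [pos_one_zero] at this
        intro h
        exact hq (this.1 h).symm
      have hact : act n q.2 := hn2
      have hpos : 0 < pos n q.2 := by
        obtain ⟨c, hc'⟩ := hact
        have hz : (q.2.1 : ℤ) ≠ 0 := by exact_mod_cast hq0.ne'
        unfold pos
        rw [hc', Int.mul_ediv_cancel_left _ hz]
        have h3 : 0 < n - q.2.2 := by omega
        rw [hc'] at h3
        by_contra hcon
        push Not at hcon
        have : (q.2.1 : ℤ) * c ≤ 0 := mul_nonpos_of_nonneg_of_nonpos (by positivity) hcon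
        linarith
      have := hsub ((mem_piece hq0).2 ⟨hact, Or.inr ⟨hpos, h1⟩⟩)
      exact h2 this.2
  subst hL₂
  obtain ⟨D, hD, hD1, hD2⟩ := exists_modulus L₁ ([] : List (Unit × ℕ × ℤ)) hc.1 hc.2.1
  have hD1' : ∀ p ∈ L₁, 0 < p.1 ∧ p.1 ∣ D := fun p hp =>
    ⟨(hD1 p hp).1, dvd_trans (Dvd.intro_left _ rfl) (hD1 p hp).2⟩
  refine one_le_cost hD L₁ [] hD1' (by simp) fun r => ?_
  unfold cnt
  rw [List.countP_nil, add_zero]
  suffices h : 0 < L₁.countP (fun p => act r p) by omega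
  rw [List.countP_pos_iff]
  obtain ⟨n, hn1, hn2, hn3⟩ := hX.use hD r 0 {(1, 0)} (by
    intro p hp
    rw [Finset.mem_singleton] at hp
    subst hp
    exact ⟨one_pos, one_dvd _, act_one_zero r⟩) (fun _ => True)
  have hnX : n ∈ X := by
    have := (hn3 (1, 0) (by simp)).2 trivial
    rwa [pos_one_zero] at this
  rcases hc.2.2.1 n ⟨by simpa using hn1, hnX⟩ with ⟨p, hp, hnp⟩ | ⟨q, hq, -⟩
  · exact ⟨p, hp, by simpa using (act_congr hn2 (hD1' p hp).2).1 hnp⟩
  · simp at hq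

/-- On `ℤ` all lower quasi-densities are translation invariant. -/
theorem transl_univ (μ : Set ℤ → ℝ) (hμ : IsUpperQuasiDensity Set.univ μ) (X : Set ℤ) (h : ℕ) :
    lowerDual Set.univ μ (dil 1 h X) = lowerDual Set.univ μ X := by
  rcases Nat.eq_zero_or_pos h with rfl | hh
  · congr 1
    ext n
    simp [dil]
  · unfold lowerDual
    have e : Set.univ \ dil 1 h X = dil 1 h (Set.univ \ X) := by
      ext n
      simp only [dil, Set.mem_sdiff, Set.mem_univ, true_and, Set.mem_image, Nat.cast_one, one_mul]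
      constructor
      · intro h1
        exact ⟨n - h, fun h2 => h1 ⟨n - h, h2, by ring⟩, by ring⟩
      · rintro ⟨x, hx, rfl⟩ ⟨y, hy, hxy⟩
        have : y = x := by linarith
        exact hx (this ▸ hy)
    rw [e, hμ.F4 _ (Set.subset_univ _) h 1 hh one_pos]
    simp

theorem mem_dil_one {n : ℤ} {S : Set ℤ} : n ∈ dil 1 1 S ↔ n - 1 ∈ S := by
  unfold dil
  constructor
  · rintro ⟨x, hx, rfl⟩
    simpa using hx
  · intro h
    exact ⟨n - 1, h, by simp⟩

theorem not_transl_NN : ∃ μ : Set ℤ → ℝ, IsUpperQuasiDensity NN μ ∧ ∃ Y : Set ℤ, Y ⊆ NN ∧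
    lowerDual NN μ (dil 1 1 Y) ≠ lowerDual NN μ Y := by
  obtain ⟨X, hX⟩ := exists_isGeneric
  refine ⟨mu True (fun _ : Unit => V X), isUpperQuasiDensity _ _ _
    (one_le_mu_C hX NN 0 fun n hn => ?_), {n | 0 ≤ n ∧ n + 1 ∉ X}, fun n hn => hn.1, ?_⟩
  · simp only [NN, Set.mem_ofPred_eq]
    have : ((0 : ℕ) : ℤ) < n := hn
    simp at this
    exact this.le
  have e1 : dil 1 1 (NN \ {n | 0 ≤ n ∧ n + 1 ∉ X}) = {n : ℤ | 0 < n ∧ n ∈ X} := by
    ext n
    rw [mem_dil_one]
    simp only [NN, Set.mem_sdiff, Set.mem_ofPred_eq, not_and, not_not, sub_add_cancel]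
    constructor
    · rintro ⟨hx, hx'⟩
      exact ⟨by omega, hx' hx⟩
    · rintro ⟨h1, h2⟩
      exact ⟨by omega, fun _ => h2⟩
  have e2 : NN \ dil 1 1 {n | 0 ≤ n ∧ n + 1 ∉ X} = V X := by
    ext n
    rw [Set.mem_sdiff, mem_dil_one]
    simp only [NN, V, Set.mem_ofPred_eq, not_and, not_not, sub_add_cancel]
    constructor
    · rintro ⟨h1, h2⟩
      by_cases h0 : n = 0
      · exact Or.inl h0
      · exact Or.inr ⟨by omega, h2 (by omega)⟩
    · rintro (rfl | ⟨h1, h2⟩)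
      · exact ⟨le_rfl, fun h => by omega⟩
      · exact ⟨h1.le, fun _ => h2⟩
  have h1 := mu_dil True (fun _ : Unit => V X) (NN \ {n | 0 ≤ n ∧ n + 1 ∉ X}) 1 1 one_pos
  rw [e1, Nat.cast_one, div_one] at h1
  unfold lowerDual
  rw [e2, ← h1]
  have h2 := one_le_mu_C' hX
  have h3 := mu_V_le X
  intro h
  linarith

theorem not_transl_PP : ∃ μ : Set ℤ → ℝ, IsUpperQuasiDensity PP μ ∧ ∃ Y : Set ℤ, Y ⊆ PP ∧
    lowerDual PP μ (dil 1 1 Y) ≠ lowerDual PP μ Y := by
  obtain ⟨X, hX⟩ := exists_isGeneric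
  refine ⟨mu True (fun _ : Unit => V X), isUpperQuasiDensity _ _ _
    (one_le_mu_C hX PP 0 fun n hn => ?_), {n | 0 < n ∧ n ∉ X}, fun n hn => hn.1, ?_⟩
  · simp only [PP, Set.mem_ofPred_eq]
    have : ((0 : ℕ) : ℤ) < n := hn
    simpa using this
  have e1 : PP \ {n | 0 < n ∧ n ∉ X} = {n : ℤ | 0 < n ∧ n ∈ X} := by
    ext n
    simp only [PP, Set.mem_sdiff, Set.mem_ofPred_eq, not_and, not_not]
    exact ⟨fun h => ⟨h.1, h.2 h.1⟩, fun h => ⟨h.1, fun _ => h.2⟩⟩
  have e2 : PP \ dil 1 1 {n | 0 < n ∧ n ∉ X} = dil 1 1 (V X) := by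
    ext n
    rw [Set.mem_sdiff, mem_dil_one, mem_dil_one]
    simp only [PP, V, Set.mem_ofPred_eq, not_and, not_not]
    constructor
    · rintro ⟨h1, h2⟩
      by_cases h0 : n = 1
      · left; omega
      · exact Or.inr ⟨by omega, h2 (by omega)⟩
    · rintro (h | ⟨h1, h2⟩)
      · exact ⟨by omega, fun h => by omega⟩
      · exact ⟨by omega, fun _ => h2⟩
  have h1 := mu_dil True (fun _ : Unit => V X) (V X) 1 1 one_pos
  rw [Nat.cast_one, div_one] at h1
  unfold lowerDual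
  rw [e1, e2, h1]
  have h2 := one_le_mu_C' hX
  have h3 := mu_V_le X
  intro h
  linarith

end Q249.Cover
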