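import Mathlib
import Pool.Agent.Q249.CoverLower

/-!
A cover density whose induced density fails the weak Darboux property.
-/

namespace Q249.Cover

open Q249.Generic Q249.QD

/-- A generic set and its complement. -/
def TT (X : Set ℤ) (b : Bool) : Set ℤ := if b then X else Xᶜ

theorem mem_TT_true {X : Set ℤ} {n : ℤ} : n ∈ TT X true ↔ n ∈ X := by simp [TT]
theorem mem_TT_false {X : Set ℤ} {n : ℤ} : n ∈ TT X false ↔ n ∉ X := by simp [TT]

/-- Pieces of a cover, seen in one residue class. -/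
theorem covered_imp {X : Set ℤ} {D : ℕ} {L₁ : List (ℕ × ℤ)} {L₂ : List (Bool × ℕ × ℤ)}
    (h1 : ∀ p ∈ L₁, 0 < p.1 ∧ p.1 ∣ D) (h2 : ∀ q ∈ L₂, 0 < q.2.1 ∧ q.2.1 ∣ D) {n r : ℤ}
    (hn : (D : ℤ) ∣ n - r)
    (h : (∃ p ∈ L₁, n ∈ ap p) ∨ ∃ q ∈ L₂, n ∈ piece (TT X) q) :
    (∃ p ∈ L₁, act r p) ∨ ∃ q ∈ L₂, act r q.2 ∧ pos n q.2 ∈ TT X q.1 := by
  rcases h with ⟨p, hp, hnp⟩ | ⟨q, hq, hnq⟩
  · exact Or.inl ⟨p, hp, (act_congr hn (h1 p hp).2).1 hnp⟩
  · obtain ⟨a, b⟩ := (mem_piece (h2 q hq).1).1 hnq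
    exact Or.inr ⟨q, hq, (act_congr hn (h2 q hq).2).1 a, b⟩

theorem countP_eq_one {α : Type} {L : List α} {f : α → Bool} (h : L.countP f = 1) :
    ∃ a ∈ L, f a = true ∧ ∀ b ∈ L, f b = true → b = a := by
  rw [List.countP_eq_length_filter, List.length_eq_one_iff] at h
  obtain ⟨a, ha⟩ := h
  have h1 : a ∈ L.filter f := by rw [ha]; exact List.mem_singleton_self _
  obtain ⟨h2, h3⟩ := List.mem_filter.1 h1
  refine ⟨a, h2, h3, fun b hb hfb => ?_⟩
  have : b ∈ L.filter f := List.mem_filter.2 ⟨hb, hfb⟩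
  rw [ha] at this
  exact List.mem_singleton.1 this

/-- A cover of all large elements of a residue class has local cost at least `1`. -/
theorem two_le_cnt {X : Set ℤ} (hX : IsGeneric X) {D : ℕ} (hD : 0 < D)
    {L₁ : List (ℕ × ℤ)} {L₂ : List (Bool × ℕ × ℤ)}
    (h1 : ∀ p ∈ L₁, 0 < p.1 ∧ p.1 ∣ D) (h2 : ∀ q ∈ L₂, 0 < q.2.1 ∧ q.2.1 ∣ D) (r : ℤ)
    (hcov : ∀ n : ℤ, 0 < n → (D : ℤ) ∣ n - r →
      (∃ p ∈ L₁, n ∈ ap p) ∨ ∃ q ∈ L₂, n ∈ piece (TT X) q) : 2 ≤ cnt L₁ L₂ r := by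
  classical
  by_cases hL : ∃ p ∈ L₁, act r p
  · obtain ⟨p, hp, hpr⟩ := hL
    have : 0 < L₁.countP (fun p => act r p) := List.countP_pos_iff.2 ⟨p, hp, by simpa using hpr⟩
    unfold cnt; omega
  let P : Finset (ℕ × ℤ) := (L₂.map fun q => q.2).toFinset.filter fun p => act r p
  have hP : ∀ p ∈ P, 0 < p.1 ∧ p.1 ∣ D ∧ act r p := by
    intro p hp
    obtain ⟨h1, h1'⟩ := Finset.mem_filter.1 hp
    rw [List.mem_toFinset] at h1
    obtain ⟨q, hq, rfl⟩ := List.mem_map.1 h1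
    exact ⟨(h2 q hq).1, (h2 q hq).2, h1'⟩
  obtain ⟨n, hn1, hn2, hn3⟩ := hX.use hD r 0 P hP (fun p => (true, p) ∉ L₂)
  rcases covered_imp h1 h2 hn2 (hcov n (by simpa using hn1) hn2) with h | ⟨⟨i, p⟩, hq, ha, hpos⟩
  · exact absurd h hL
  · have hmem : p ∈ P := by
      rw [Finset.mem_filter, List.mem_toFinset]
      exact ⟨List.mem_map.2 ⟨_, hq, rfl⟩, ha⟩
    cases i with
    | true =>
      exact absurd hq ((hn3 p hmem).1 (mem_TT_true.1 hpos))
    | false =>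
      have h3 : (true, p) ∈ L₂ := by
        by_contra hcon
        exact mem_TT_false.1 hpos ((hn3 p hmem).2 hcon)
      -- two active pieces
      by_contra hcon
      unfold cnt at hcon
      have h4 : 0 < L₂.countP (fun q => act r q.2) :=
        List.countP_pos_iff.2 ⟨_, hq, by simpa using ha⟩
      have h5 : L₂.countP (fun q => act r q.2) = 1 := by omega
      obtain ⟨a, -, -, hu⟩ := countP_eq_one h5
      have e1 := hu _ hq (by simpa using ha)
      have e2 := hu _ h3 (by simpa using ha)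
      have := e1.trans e2.symm
      simp at this

theorem cnt_append (L₁ M₁ : List (ℕ × ℤ)) (L₂ M₂ : List (Bool × ℕ × ℤ)) (r : ℤ) :
    cnt (L₁ ++ M₁) (L₂ ++ M₂) r = cnt L₁ L₂ r + cnt M₁ M₂ r := by
  unfold cnt
  rw [List.countP_append, List.countP_append]
  ring

/-- The key local statement. -/
theorem cnt_eq_zero {X : Set ℤ} (hX : IsGeneric X) {D : ℕ} (hD : 0 < D)
    {L₁ M₁ : List (ℕ × ℤ)} {L₂ M₂ : List (Bool × ℕ × ℤ)}
    (h1 : ∀ p ∈ L₁, 0 < p.1 ∧ p.1 ∣ D) (h2 : ∀ q ∈ L₂, 0 < q.2.1 ∧ q.2.1 ∣ D)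
    (h1' : ∀ p ∈ M₁, 0 < p.1 ∧ p.1 ∣ D) (h2' : ∀ q ∈ M₂, 0 < q.2.1 ∧ q.2.1 ∣ D)
    {Y : Set ℤ} (hYX : Y ⊆ X)
    (hL : ∀ n ∈ Y, (∃ p ∈ L₁, n ∈ ap p) ∨ ∃ q ∈ L₂, n ∈ piece (TT X) q)
    (hM : ∀ n : ℤ, 0 < n → n ∉ Y → (∃ p ∈ M₁, n ∈ ap p) ∨ ∃ q ∈ M₂, n ∈ piece (TT X) q)
    (hno : (true, (1, 0)) ∉ L₂) (r : ℤ) (htot : cnt L₁ L₂ r + cnt M₁ M₂ r = 2) :
    cnt L₁ L₂ r = 0 := by
  classical
  by_contra hne
  have h10 : ∀ (p : ℕ × ℤ), p = (1, 0) → 0 < p.1 ∧ p.1 ∣ D ∧ act r p := by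
    rintro p rfl
    exact ⟨one_pos, one_dvd _, act_one_zero r⟩
  rcases (show cnt M₁ M₂ r = 0 ∨ cnt M₁ M₂ r = 1 by omega) with hc | hc
  · -- `M` covers nothing in the class
    obtain ⟨n, hn1, hn2, hn3⟩ := hX.use hD r 0 {(1, 0)} (by
      intro p hp
      exact h10 p (Finset.mem_singleton.1 hp)) (fun _ => False)
    have hnX : n ∉ X := by
      have := hn3 (1, 0) (by simp)
      rw [pos_one_zero] at this
      exact this.1
    have hnY : n ∉ Y := fun h => hnX (hYX h)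
    rcases covered_imp h1' h2' hn2 (hM n (by simpa using hn1) hnY) with ⟨p, hp, ha⟩ | ⟨q, hq, ha, -⟩
    · have : 0 < M₁.countP (fun p => act r p) := List.countP_pos_iff.2 ⟨p, hp, by simpa using ha⟩
      unfold cnt at hc; omega
    · have : 0 < M₂.countP (fun q => act r q.2) :=
        List.countP_pos_iff.2 ⟨q, hq, by simpa using ha⟩
      unfold cnt at hc; omega
  · have hc' : cnt L₁ L₂ r = 1 := by omega
    have hM₁ : M₁.countP (fun p => act r p) = 0 := by unfold cnt at hc; omega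
    have hM₂ : M₂.countP (fun q => act r q.2) = 1 := by unfold cnt at hc; omega
    have hL₁ : L₁.countP (fun p => act r p) = 0 := by unfold cnt at hc'; omega
    have hL₂ : L₂.countP (fun q => act r q.2) = 1 := by unfold cnt at hc'; omega
    rw [List.countP_eq_zero] at hM₁ hL₁
    obtain ⟨⟨i, p⟩, hpL, hpa, hpu⟩ := countP_eq_one hL₂
    obtain ⟨⟨j, p'⟩, hpM, hpa', hpu'⟩ := countP_eq_one hM₂
    simp only [decide_eq_true_eq] at hpa hpa' hpu hpu' hM₁ hL₁
    -- what the covers mean for `n` in the class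
    have hcL : ∀ n : ℤ, (D : ℤ) ∣ n - r → n ∈ Y → pos n p ∈ TT X i := by
      intro n hn hnY
      rcases covered_imp h1 h2 hn (hL n hnY) with ⟨p, hp, ha⟩ | ⟨q, hq, ha, hb⟩
      · exact absurd ha (hL₁ p hp)
      · have := hpu q hq ha
        subst this
        exact hb
    have hcM : ∀ n : ℤ, 0 < n → (D : ℤ) ∣ n - r → n ∉ Y → pos n p' ∈ TT X j := by
      intro n hn0 hn hnY
      rcases covered_imp h1' h2' hn (hM n hn0 hnY) with ⟨p, hp, ha⟩ | ⟨q, hq, ha, hb⟩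
      · exact absurd ha (hM₁ p hp)
      · have := hpu' q hq ha
        subst this
        exact hb
    have hact : 0 < p.1 ∧ p.1 ∣ D ∧ act r p := ⟨(h2 _ hpL).1, (h2 _ hpL).2, hpa⟩
    have hact' : 0 < p'.1 ∧ p'.1 ∣ D ∧ act r p' := ⟨(h2' _ hpM).1, (h2' _ hpM).2, hpa'⟩
    -- `p' = (1, 0)`
    have hp' : p' = (1, 0) := by
      by_contra hp'
      obtain ⟨n, hn1, hn2, hn3⟩ := hX.use hD r 0 {(1, 0), p'} (by
        intro q hq
        rw [Finset.mem_insert, Finset.mem_singleton] at hq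
        rcases hq with rfl | rfl
        · exact h10 _ rfl
        · exact hact') (fun q => q ≠ (1, 0) ∧ j = false)
      have hnX : n ∉ X := by
        have := hn3 (1, 0) (by simp)
        rw [pos_one_zero] at this
        intro h
        exact (this.1 h).1 rfl
      have h3 := hcM n (by simpa using hn1) hn2 fun h => hnX (hYX h)
      have h4 := hn3 p' (by simp)
      cases j with
      | true => exact absurd (h4.1 (mem_TT_true.1 h3)).2 (by simp)
      | false => exact mem_TT_false.1 h3 (h4.2 ⟨hp', rfl⟩)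
    subst hp'
    -- `j = false`
    have hj : j = false := by
      by_contra hj
      obtain ⟨n, hn1, hn2, hn3⟩ := hX.use hD r 0 {(1, 0)} (by
        intro p hp
        exact h10 p (Finset.mem_singleton.1 hp)) (fun _ => False)
      have hnX : n ∉ X := by
        have := hn3 (1, 0) (by simp)
        rw [pos_one_zero] at this
        exact this.1
      have h3 := hcM n (by simpa using hn1) hn2 fun h => hnX (hYX h)
      rw [pos_one_zero] at h3
      cases j with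
      | true => exact hnX (mem_TT_true.1 h3)
      | false => exact hj rfl
    subst hj
    -- all elements of `X` in the class are in `Y`
    have hXY : ∀ n : ℤ, 0 < n → (D : ℤ) ∣ n - r → n ∈ X → n ∈ Y := by
      intro n hn0 hn hnX
      by_contra hnY
      have h3 := hcM n hn0 hn hnY
      rw [pos_one_zero] at h3
      exact mem_TT_false.1 h3 hnX
    -- `p = (1, 0)`
    have hp : p = (1, 0) := by
      by_contra hp
      obtain ⟨n, hn1, hn2, hn3⟩ := hX.use hD r 0 {(1, 0), p} (by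
        intro q hq
        rw [Finset.mem_insert, Finset.mem_singleton] at hq
        rcases hq with rfl | rfl
        · exact h10 _ rfl
        · exact hact) (fun q => q = (1, 0) ∨ i = false)
      have hnX : n ∈ X := by
        have := (hn3 (1, 0) (by simp)).2 (Or.inl rfl)
        rwa [pos_one_zero] at this
      have h3 := hcL n hn2 (hXY n (by simpa using hn1) hn2 hnX)
      have h4 := hn3 p (by simp)
      cases i with
      | true =>
        rcases h4.1 (mem_TT_true.1 h3) with h | h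
        · exact hp h
        · simp at h
      | false => exact mem_TT_false.1 h3 (h4.2 (Or.inr rfl))
    subst hp
    cases i with
    | true => exact hno hpL
    | false =>
      obtain ⟨n, hn1, hn2, hn3⟩ := hX.use hD r 0 {(1, 0)} (by
        intro p hp
        exact h10 p (Finset.mem_singleton.1 hp)) (fun _ => True)
      have hnX : n ∈ X := by
        have := (hn3 (1, 0) (by simp)).2 trivial
        rwa [pos_one_zero] at this
      have h3 := hcL n hn2 (hXY n (by simpa using hn1) hn2 hnX)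
      rw [pos_one_zero] at h3
      exact mem_TT_false.1 h3 hnX

theorem half_le_cost {L₁ : List (ℕ × ℤ)} {L₂ : List (Bool × ℕ × ℤ)}
    (h : (true, (1, 0)) ∈ L₂) : 1 / 2 ≤ cost L₁ L₂ := by
  unfold cost
  have h1 : 0 ≤ (L₁.map fun p => 1 / (p.1 : ℝ)).sum := by
    apply List.sum_nonneg
    intro x hx
    obtain ⟨p, -, rfl⟩ := List.mem_map.1 hx
    positivity
  have h2 : (1 : ℝ) / 2 ≤ (L₂.map fun q => 1 / (2 * (q.2.1 : ℝ))).sum := by
    apply List.single_le_sum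
    · intro x hx
      obtain ⟨p, -, rfl⟩ := List.mem_map.1 hx
      positivity
    · exact List.mem_map.2 ⟨_, h, by norm_num⟩
  linarith

theorem darboux_fails (H : Set ℤ) (hH : H = Set.univ ∨ H = NN ∨ H = PP) :
    ∃ μ : Set ℤ → ℝ, IsUpperDensity H μ ∧ ∃ X : Set ℤ, X ⊆ H ∧ μ X + μ (H \ X) = 1 ∧
      μ X = 1 / 2 ∧ ∀ Y : Set ℤ, Y ⊆ X → μ Y + μ (H \ Y) = 1 → μ Y = 0 ∨ μ Y = 1 / 2 := by
  obtain ⟨X, hX⟩ := exists_isGeneric
  have hPP : ∀ n : ℤ, 0 < n → n ∈ H := by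
    intro n hn
    rcases hH with rfl | rfl | rfl
    · trivial
    · exact hn.le
    · exact hn
  have hone : 1 ≤ mu False (TT X) H := by
    refine le_mu _ _ fun L₁ L₂ hc => ?_
    obtain ⟨D, hD, hD1, hD2⟩ := exists_modulus L₁ L₂ hc.1 hc.2.1
    have hD1' : ∀ p ∈ L₁, 0 < p.1 ∧ p.1 ∣ D := fun p hp =>
      ⟨(hD1 p hp).1, dvd_trans (Dvd.intro_left _ rfl) (hD1 p hp).2⟩
    have hD2' : ∀ p ∈ L₂, 0 < p.2.1 ∧ p.2.1 ∣ D := fun p hp =>
      ⟨(hD2 p hp).1, dvd_trans (Dvd.intro_left _ rfl) (hD2 p hp).2⟩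
    exact one_le_cost hD L₁ L₂ hD1' hD2' fun r =>
      two_le_cnt hX hD hD1' hD2' r fun n hn _ => hc.2.2.1 n (hPP n hn)
  have hdens : IsUpperDensity H (mu False (TT X)) := isUpperDensity _ _ hone
  have hle1 : mu False (TT X) (H ∩ X) ≤ 1 / 2 := by
    have hc : IsCover False (TT X) (H ∩ X) [] [(true, 1, 0)] := by
      refine ⟨by simp, by simp, fun n hn => Or.inr ⟨_, List.mem_singleton_self _, n,
        mem_TT_true.2 hn.2, by simp⟩, fun hf => hf.elim⟩
    have := mu_le _ _ hc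
    simpa [cost] using this
  have hle2 : mu False (TT X) (H \ (H ∩ X)) ≤ 1 / 2 := by
    have hc : IsCover False (TT X) (H \ (H ∩ X)) [] [(false, 1, 0)] := by
      refine ⟨by simp, by simp, fun n hn => Or.inr ⟨_, List.mem_singleton_self _, n,
        mem_TT_false.2 fun h => hn.2 ⟨hn.1, h⟩, by simp⟩, fun hf => hf.elim⟩
    have := mu_le _ _ hc
    simpa [cost] using this
  have hge : 1 ≤ mu False (TT X) (H ∩ X) + mu False (TT X) (H \ (H ∩ X)) := by
    have h1 := hdens.F3 (H ∩ X) (H \ (H ∩ X)) Set.inter_subset_left Set.sdiff_subset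
    rw [Set.union_sdiff_cancel Set.inter_subset_left, hdens.F1] at h1
    exact h1
  have hX1 : mu False (TT X) (H ∩ X) = 1 / 2 := by linarith
  refine ⟨mu False (TT X), hdens, H ∩ X, Set.inter_subset_left, by linarith, hX1, ?_⟩
  intro Y hY hYd
  have hYX : Y ⊆ X := hY.trans Set.inter_subset_right
  -- the dichotomy for every `ε`
  have key : ∀ ε : ℝ, 0 < ε → 1 / 2 < mu False (TT X) Y + ε ∨ mu False (TT X) Y ≤ 6 * ε := by
    intro ε hε
    obtain ⟨L₁, L₂, hL, hLlt⟩ := exists_cover False (TT X) Y hε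
    obtain ⟨M₁, M₂, hM, hMlt⟩ := exists_cover False (TT X) (H \ Y) hε
    by_cases hno : (true, ((1 : ℕ), (0 : ℤ))) ∈ L₂
    · left
      exact lt_of_le_of_lt (half_le_cost hno) hLlt
    · right
      obtain ⟨D, hD, hD1, hD2⟩ := exists_modulus (L₁ ++ M₁) (L₂ ++ M₂)
        (fun p hp => (List.mem_append.1 hp).elim (hL.1 p) (hM.1 p))
        (fun p hp => (List.mem_append.1 hp).elim (hL.2.1 p) (hM.2.1 p))
      have h1 : ∀ p ∈ L₁ ++ M₁, 0 < p.1 ∧ p.1 ∣ D := fun p hp =>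
        ⟨(hD1 p hp).1, dvd_trans (Dvd.intro_left _ rfl) (hD1 p hp).2⟩
      have h2 : ∀ p ∈ L₂ ++ M₂, 0 < p.2.1 ∧ p.2.1 ∣ D := fun p hp =>
        ⟨(hD2 p hp).1, dvd_trans (Dvd.intro_left _ rfl) (hD2 p hp).2⟩
      have hL1 : ∀ p ∈ L₁, 0 < p.1 ∧ p.1 ∣ D := fun p hp => h1 p (List.mem_append_left _ hp)
      have hL2 : ∀ p ∈ L₂, 0 < p.2.1 ∧ p.2.1 ∣ D := fun p hp => h2 p (List.mem_append_left _ hp)
      have hM1 : ∀ p ∈ M₁, 0 < p.1 ∧ p.1 ∣ D := fun p hp => h1 p (List.mem_append_right _ hp)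
      have hM2 : ∀ p ∈ M₂, 0 < p.2.1 ∧ p.2.1 ∣ D := fun p hp => h2 p (List.mem_append_right _ hp)
      have hloc : ∀ r : ℤ, (cnt L₁ L₂ r : ℝ) ≤ 3 * (cnt L₁ L₂ r + cnt M₁ M₂ r - 2) := by
        intro r
        have h3 : 2 ≤ cnt (L₁ ++ M₁) (L₂ ++ M₂) r := by
          refine two_le_cnt hX hD h1 h2 r fun n hn _ => ?_
          by_cases hnY : n ∈ Y
          · rcases hL.2.2.1 n hnY with ⟨p, hp, h⟩ | ⟨p, hp, h⟩
            · exact Or.inl ⟨p, List.mem_append_left _ hp, h⟩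
            · exact Or.inr ⟨p, List.mem_append_left _ hp, h⟩
          · rcases hM.2.2.1 n ⟨hPP n hn, hnY⟩ with ⟨p, hp, h⟩ | ⟨p, hp, h⟩
            · exact Or.inl ⟨p, List.mem_append_right _ hp, h⟩
            · exact Or.inr ⟨p, List.mem_append_right _ hp, h⟩
        rw [cnt_append] at h3
        have h4 : cnt L₁ L₂ r + cnt M₁ M₂ r = 2 → cnt L₁ L₂ r = 0 :=
          cnt_eq_zero hX hD hL1 hL2 hM1 hM2 hYX hL.2.2.1
            (fun n hn hnY => hM.2.2.1 n ⟨hPP n hn, hnY⟩) hno r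
        have h5 : cnt L₁ L₂ r + 6 ≤ 3 * (cnt L₁ L₂ r + cnt M₁ M₂ r) := by
          rcases Nat.lt_or_ge 2 (cnt L₁ L₂ r + cnt M₁ M₂ r) with h | h
          · omega
          · have := h4 (by omega)
            omega
        have h6 : (cnt L₁ L₂ r : ℝ) + 6 ≤ 3 * (cnt L₁ L₂ r + cnt M₁ M₂ r) := by exact_mod_cast h5
        linarith
      have hsum : ∑ r ∈ Finset.Ico (0 : ℤ) D, (cnt L₁ L₂ r : ℝ) ≤
          ∑ r ∈ Finset.Ico (0 : ℤ) D, 3 * ((cnt L₁ L₂ r : ℝ) + cnt M₁ M₂ r - 2) :=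
        Finset.sum_le_sum fun r _ => hloc r
      rw [← Finset.mul_sum, Finset.sum_sub_distrib, Finset.sum_add_distrib,
        sum_cnt hD L₁ L₂ hL1 hL2, sum_cnt hD M₁ M₂ hM1 hM2, Finset.sum_const, Int.card_Ico,
        nsmul_eq_mul] at hsum
      simp only [sub_zero, Int.toNat_natCast] at hsum
      have hD' : (0 : ℝ) < D := by exact_mod_cast hD
      have h7 : cost L₁ L₂ ≤ 3 * (cost L₁ L₂ + cost M₁ M₂ - 1) := by
        have h8 : (2 * D) * cost L₁ L₂ ≤ (2 * D) * (3 * (cost L₁ L₂ + cost M₁ M₂ - 1)) := by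
          linarith
        exact le_of_mul_le_mul_left h8 (by positivity)
      have h9 := mu_le _ _ hL
      linarith
  have hmono : mu False (TT X) Y ≤ 1 / 2 := by
    rw [← hX1]
    exact mu_mono (TT X) hY
  have hnn := mu_nonneg False (TT X) Y
  by_contra hcon
  push Not at hcon
  obtain ⟨hc1, hc2⟩ := hcon
  have hpos : 0 < mu False (TT X) Y := lt_of_le_of_ne hnn (Ne.symm hc1)
  have hlt : mu False (TT X) Y < 1 / 2 := lt_of_le_of_ne hmono hc2
  rcases key (min (mu False (TT X) Y / 12) (1 / 2 - mu False (TT X) Y))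
    (lt_min (by positivity) (by linarith)) with h | h
  · have := min_le_right (mu False (TT X) Y / 12) (1 / 2 - mu False (TT X) Y)
    linarith
  · have := min_le_left (mu False (TT X) Y / 12) (1 / 2 - mu False (TT X) Y)
    linarith

end Q249.Cover
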