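import Mathlib

/-!
Lcm-type and ordinary binomial coefficients of a strong divisibility sequence.
-/

namespace Q249.LcmBinomial

/-- Number of multiples of `z` in `(a, a + k]`. -/
theorem card_multiples (a k z : ℕ) :
    ((Finset.Ioc a (a + k)).filter fun i => z ∣ i).card = (a + k) / z - a / z := by
  have h1 := Nat.Ioc_filter_dvd_card_eq_div (a + k) z
  have h2 := Nat.Ioc_filter_dvd_card_eq_div a z
  have h3 : (Finset.Ioc 0 (a + k)).filter (fun i => z ∣ i) =
      (Finset.Ioc 0 a).filter (fun i => z ∣ i) ∪ (Finset.Ioc a (a + k)).filter (fun i => z ∣ i) := by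
    ext i
    simp only [Finset.mem_filter, Finset.mem_Ioc, Finset.mem_union]
    constructor
    · rintro ⟨⟨h1, h2⟩, h3⟩
      rcases Nat.lt_or_ge a i with h | h
      · exact Or.inr ⟨⟨h, h2⟩, h3⟩
      · exact Or.inl ⟨⟨h1, h⟩, h3⟩
    · rintro (⟨⟨h1, h2⟩, h3⟩ | ⟨⟨h1, h2⟩, h3⟩)
      · exact ⟨⟨h1, by omega⟩, h3⟩
      · exact ⟨⟨by omega, h2⟩, h3⟩
  have h4 : Disjoint ((Finset.Ioc 0 a).filter (fun i => z ∣ i))
      ((Finset.Ioc a (a + k)).filter (fun i => z ∣ i)) := by
    rw [Finset.disjoint_left]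
    intro i hi hi'
    simp only [Finset.mem_filter, Finset.mem_Ioc] at hi hi'
    omega
  rw [h3, Finset.card_union_of_disjoint h4] at h1
  omega

/-- The carry criterion. -/
theorem div_eq_iff (a k z : ℕ) (hz : 0 < z) :
    (a + k) / z - a / z = k / z ↔ k % z ≤ (a + k) % z := by
  have h1 := Nat.add_div (a := a) (b := k) hz
  have h2 := Nat.add_mod a k z
  have h3 := Nat.mod_lt a hz
  have h4 := Nat.mod_lt k hz
  by_cases h : z ≤ a % z + k % z
  · rw [if_pos h] at h1
    have h5 : (a % z + k % z) % z = a % z + k % z - z := by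
      rw [Nat.mod_eq_sub_mod h, Nat.mod_eq_of_lt (by omega)]
    rw [h2, h5]
    constructor <;> intro h6 <;> omega
  · rw [if_neg h] at h1
    have h5 : (a % z + k % z) % z = a % z + k % z := Nat.mod_eq_of_lt (by omega)
    rw [h2, h5, h1]
    generalize k / z = y
    generalize a / z = w
    constructor <;> intro h6 <;> omega

theorem div_le' (a k z : ℕ) : k / z ≤ (a + k) / z - a / z := by
  rcases Nat.eq_zero_or_pos z with rfl | hz
  · simp
  have h1 := Nat.add_div (a := a) (b := k) hz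
  generalize (a + k) / z = x at *
  generalize k / z = y at *
  generalize a / z = w at *
  split_ifs at h1 <;> omega

theorem div_le_one (a k z : ℕ) (h : k < z) : (a + k) / z - a / z ≤ 1 := by
  have hz : 0 < z := by omega
  have h1 := Nat.add_div (a := a) (b := k) hz
  have h2 : k / z = 0 := Nat.div_eq_of_lt h
  rw [h2] at h1
  split_ifs at h1
  · rw [h1]; omega
  · rw [h1]; omega

variable {u : ℕ → ℕ}

/-- The valuation of a product. -/
theorem val_prod (hu : ∀ i, 0 < i → u i ≠ 0) {p : ℕ} (hp : p.Prime) (s : Finset ℕ)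
    (hs : ∀ i ∈ s, 0 < i) (E : ℕ) (hE : ∀ i ∈ s, (u i).factorization p ≤ E) :
    (∏ i ∈ s, u i).factorization p = ∑ e ∈ Finset.Icc 1 E, (s.filter fun i => p ^ e ∣ u i).card := by
  rw [Nat.factorization_prod_apply (fun i hi => hu i (hs i hi))]
  have h1 : ∀ i ∈ s, (u i).factorization p =
      ∑ e ∈ Finset.Icc 1 E, if p ^ e ∣ u i then 1 else 0 := by
    intro i hi
    rw [← Finset.card_filter]
    have : (Finset.Icc 1 E).filter (fun e => p ^ e ∣ u i) =
        Finset.Icc 1 ((u i).factorization p) := by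
      ext e
      simp only [Finset.mem_filter, Finset.mem_Icc,
        hp.pow_dvd_iff_le_factorization (hu i (hs i hi))]
      have := hE i hi
      constructor
      · rintro ⟨⟨a, b⟩, c⟩; exact ⟨a, c⟩
      · rintro ⟨a, b⟩; exact ⟨⟨a, by omega⟩, b⟩
    rw [this, Nat.card_Icc]
    omega
  rw [Finset.sum_congr rfl h1, Finset.sum_comm]
  apply Finset.sum_congr rfl
  intro e _
  rw [Finset.card_filter]

/-- A prime power divides an lcm iff it divides one of the members. -/
theorem pow_dvd_lcm (hu : ∀ i, 0 < i → u i ≠ 0) {p : ℕ} (hp : p.Prime) (s : Finset ℕ)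
    (hs : ∀ i ∈ s, 0 < i) (e : ℕ) (he : 0 < e) : p ^ e ∣ s.lcm u ↔ ∃ i ∈ s, p ^ e ∣ u i := by
  classical
  induction s using Finset.induction_on with
  | empty =>
    simp only [Finset.lcm_empty, Finset.notMem_empty, false_and, exists_false, iff_false]
    intro h
    have := Nat.le_of_dvd one_pos h
    have h2 := Nat.one_lt_pow he.ne' hp.one_lt
    omega
  | insert a s ha ih =>
    have ih' := ih fun i hi => hs i (Finset.mem_insert_of_mem hi)
    have h0 : s.lcm u ≠ 0 := by
      rw [Ne, Finset.lcm_eq_zero_iff]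
      rintro ⟨i, hi, h⟩
      exact hu i (hs i (Finset.mem_insert_of_mem hi)) h
    have h1 : u a ≠ 0 := hu a (hs a (Finset.mem_insert_self _ _))
    rw [Finset.lcm_insert]
    change p ^ e ∣ Nat.lcm (u a) (s.lcm u) ↔ _
    rw [hp.pow_dvd_iff_le_factorization (Nat.lcm_ne_zero h1 h0), Nat.factorization_lcm h1 h0,
      Finsupp.sup_apply, le_sup_iff, ← hp.pow_dvd_iff_le_factorization h1,
      ← hp.pow_dvd_iff_le_factorization h0, ih']
    constructor
    · rintro (h | ⟨i, hi, h⟩)
      · exact ⟨a, Finset.mem_insert_self _ _, h⟩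
      · exact ⟨i, Finset.mem_insert_of_mem hi, h⟩
    · rintro ⟨i, hi, h⟩
      rcases Finset.mem_insert.1 hi with rfl | hi
      · exact Or.inl h
      · exact Or.inr ⟨i, hi, h⟩

theorem lcm_ne_zero (hu : ∀ i, 0 < i → u i ≠ 0) (s : Finset ℕ) (hs : ∀ i ∈ s, 0 < i) :
    s.lcm u ≠ 0 := by
  rw [Ne, Finset.lcm_eq_zero_iff]
  rintro ⟨i, hi, h⟩
  exact hu i (hs i hi) h

/-- The valuation of an lcm. -/
theorem val_lcm (hu : ∀ i, 0 < i → u i ≠ 0) {p : ℕ} (hp : p.Prime) (s : Finset ℕ)
    (hs : ∀ i ∈ s, 0 < i) (E : ℕ) (hE : ∀ i ∈ s, (u i).factorization p ≤ E) :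
    (s.lcm u).factorization p =
      ∑ e ∈ Finset.Icc 1 E, if 0 < (s.filter fun i => p ^ e ∣ u i).card then 1 else 0 := by
  have h0 := lcm_ne_zero hu s hs
  rw [← Finset.card_filter]
  have : (Finset.Icc 1 E).filter (fun e => 0 < (s.filter fun i => p ^ e ∣ u i).card) =
      Finset.Icc 1 ((s.lcm u).factorization p) := by
    ext e
    simp only [Finset.mem_filter, Finset.mem_Icc]
    constructor
    · rintro ⟨⟨a, b⟩, c⟩
      refine ⟨a, ?_⟩
      rw [← hp.pow_dvd_iff_le_factorization h0, pow_dvd_lcm hu hp s hs e a]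
      obtain ⟨i, hi⟩ := Finset.card_pos.1 c
      rw [Finset.mem_filter] at hi
      exact ⟨i, hi⟩
    · rintro ⟨a, b⟩
      rw [← hp.pow_dvd_iff_le_factorization h0, pow_dvd_lcm hu hp s hs e a] at b
      obtain ⟨i, hi, hd⟩ := b
      refine ⟨⟨a, ?_⟩, Finset.card_pos.2 ⟨i, Finset.mem_filter.2 ⟨hi, hd⟩⟩⟩
      have h1 := hE i hi
      rw [hp.pow_dvd_iff_le_factorization (hu i (hs i hi))] at hd
      omega
  rw [this, Nat.card_Icc]
  omega

/-- `m` is *new*: `u m` does not divide the lcm of the `u d`, `d` a proper divisor of `m`. -/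
def IsNew (u : ℕ → ℕ) (m : ℕ) : Prop := ¬ u m ∣ m.properDivisors.lcm u

/-- `m` is the rank of apparition of `q`. -/
def IsRank (u : ℕ → ℕ) (q m : ℕ) : Prop := 0 < m ∧ q ∣ u m ∧ ∀ i, 0 < i → i < m → ¬ q ∣ u i

theorem isRank_dvd (hgcd : ∀ i j, Nat.gcd (u i) (u j) = u (Nat.gcd i j)) {q m : ℕ}
    (h : IsRank u q m) (i : ℕ) (hi : 0 < i) : q ∣ u i ↔ m ∣ i := by
  obtain ⟨hm, hq, hmin⟩ := h
  constructor
  · intro hqi
    have h1 : q ∣ u (Nat.gcd m i) := by
      rw [← hgcd]
      exact Nat.dvd_gcd hq hqi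
    have h2 : 0 < Nat.gcd m i := Nat.gcd_pos_of_pos_left _ hm
    have h3 : ¬ Nat.gcd m i < m := fun h => hmin _ h2 h h1
    have h4 : Nat.gcd m i ≤ m := Nat.gcd_le_left _ hm
    have h5 : Nat.gcd m i = m := by omega
    rw [← h5]
    exact Nat.gcd_dvd_right _ _
  · intro hmi
    have h1 := hgcd m i
    rw [Nat.gcd_eq_left hmi] at h1
    exact hq.trans (h1 ▸ Nat.gcd_dvd_right _ _)

theorem exists_rank {q i : ℕ} (hi : 0 < i) (h : q ∣ u i) :
    ∃ m, IsRank u q m ∧ m ≤ i := by
  classical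
  have hex : ∃ m, 0 < m ∧ q ∣ u m := ⟨i, hi, h⟩
  obtain ⟨h1, h2⟩ := Nat.find_spec hex
  exact ⟨Nat.find hex, ⟨h1, h2, fun j hj hjm hq => Nat.find_min hex hjm ⟨hj, hq⟩⟩,
    Nat.find_min' hex ⟨hi, h⟩⟩

/-- Ranks of prime powers are exactly the new indices. -/
theorem isNew_iff (hu : ∀ i, 0 < i → u i ≠ 0)
    (hgcd : ∀ i j, Nat.gcd (u i) (u j) = u (Nat.gcd i j)) (m : ℕ) (hm : 0 < m) :
    IsNew u m ↔ ∃ p e : ℕ, p.Prime ∧ 0 < e ∧ IsRank u (p ^ e) m := by
  have hpd : ∀ i ∈ m.properDivisors, 0 < i := fun i hi =>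
    Nat.pos_of_mem_properDivisors hi
  constructor
  · intro h
    have h0 := lcm_ne_zero hu m.properDivisors hpd
    unfold IsNew at h
    rw [← Nat.factorization_le_iff_dvd (hu m hm) h0] at h
    rw [Finsupp.le_def] at h
    push Not at h
    obtain ⟨p, hp⟩ := h
    have hpp : p.Prime := by
      by_contra hcon
      rw [Nat.factorization_eq_zero_of_not_prime (u m) hcon] at hp
      exact absurd hp (Nat.not_lt_zero _)
    set e := (u m).factorization p with he
    have he0 : 0 < e := by omega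
    have h1 : p ^ e ∣ u m := (hpp.pow_dvd_iff_le_factorization (hu m hm)).2 le_rfl
    obtain ⟨z, hz, hzm⟩ := exists_rank hm h1
    have h2 : z ∣ m := (isRank_dvd hgcd hz m hm).1 h1
    rcases Nat.lt_or_ge z m with h3 | h3
    · exfalso
      have h4 : p ^ e ∣ m.properDivisors.lcm u :=
        hz.2.1.trans (Finset.dvd_lcm (Nat.mem_properDivisors.2 ⟨h2, h3⟩))
      rw [hpp.pow_dvd_iff_le_factorization h0] at h4
      exact absurd h4 (not_le.2 hp)
    · have : z = m := by omega
      subst this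
      exact ⟨p, e, hpp, he0, hz⟩
  · rintro ⟨p, e, hp, he, hr⟩ hdvd
    have h1 : p ^ e ∣ m.properDivisors.lcm u := hr.2.1.trans hdvd
    rw [pow_dvd_lcm hu hp _ hpd e he] at h1
    obtain ⟨i, hi, hd⟩ := h1
    exact hr.2.2 i (hpd i hi) (Nat.mem_properDivisors.1 hi).2 hd

/-- The main equivalence for strong divisibility sequences. -/
theorem prod_mul_lcm_eq_iff (hu : ∀ i, 0 < i → u i ≠ 0)
    (hgcd : ∀ i j, Nat.gcd (u i) (u j) = u (Nat.gcd i j)) (a k : ℕ) :
    (∏ i ∈ Finset.Ioc a (a + k), u i) * (Finset.Ioc 0 k).lcm u =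
      (∏ i ∈ Finset.Ioc 0 k, u i) * (Finset.Ioc a (a + k)).lcm u ↔
    ∀ p e m : ℕ, p.Prime → 0 < e → IsRank u (p ^ e) m → m ≤ k → k % m ≤ (a + k) % m := by
  classical
  have hI : ∀ i ∈ Finset.Ioc a (a + k), 0 < i := fun i hi => by
    rw [Finset.mem_Ioc] at hi; omega
  have hJ : ∀ i ∈ Finset.Ioc 0 k, 0 < i := fun i hi => (Finset.mem_Ioc.1 hi).1
  have n1 : ∏ i ∈ Finset.Ioc a (a + k), u i ≠ 0 :=
    Finset.prod_ne_zero_iff.2 fun i hi => hu i (hI i hi)
  have n2 : ∏ i ∈ Finset.Ioc 0 k, u i ≠ 0 :=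
    Finset.prod_ne_zero_iff.2 fun i hi => hu i (hJ i hi)
  have n3 := lcm_ne_zero hu _ hI
  have n4 := lcm_ne_zero hu _ hJ
  -- counts
  have hcount : ∀ (q z b : ℕ), IsRank u q z →
      ((Finset.Ioc b (b + k)).filter fun i => q ∣ u i).card = (b + k) / z - b / z := by
    intro q z b hz
    rw [← card_multiples]
    congr 1
    apply Finset.filter_congr
    intro i hi
    rw [Finset.mem_Ioc] at hi
    exact isRank_dvd hgcd hz i (by omega)
  have hcount0 : ∀ (q z : ℕ), IsRank u q z →
      ((Finset.Ioc 0 k).filter fun i => q ∣ u i).card = k / z := by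
    intro q z hz
    have := hcount q z 0 hz
    simpa using this
  -- the local comparison
  have hlocal : ∀ q : ℕ, 
      ((Finset.Ioc 0 k).filter fun i => q ∣ u i).card +
        (if 0 < ((Finset.Ioc a (a + k)).filter fun i => q ∣ u i).card then 1 else 0) ≤
      ((Finset.Ioc a (a + k)).filter fun i => q ∣ u i).card +
        (if 0 < ((Finset.Ioc 0 k).filter fun i => q ∣ u i).card then 1 else 0) ∧
      (((Finset.Ioc 0 k).filter fun i => q ∣ u i).card +
        (if 0 < ((Finset.Ioc a (a + k)).filter fun i => q ∣ u i).card then 1 else 0) =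
      ((Finset.Ioc a (a + k)).filter fun i => q ∣ u i).card +
        (if 0 < ((Finset.Ioc 0 k).filter fun i => q ∣ u i).card then 1 else 0) ↔
      ∀ m, IsRank u q m → m ≤ k → k % m ≤ (a + k) % m) := by
    intro q
    by_cases hex : ∃ i, 0 < i ∧ q ∣ u i
    · obtain ⟨i, hi, hq⟩ := hex
      obtain ⟨z, hz, -⟩ := exists_rank hi hq
      rw [hcount q z a hz, hcount0 q z hz]
      have h1 := div_le' a k z
      have huniq : ∀ m, IsRank u q m → m = z := by
        intro m hm
        have := (isRank_dvd hgcd hz m hm.1).1 hm.2.1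
        have := (isRank_dvd hgcd hm z hz.1).1 hz.2.1
        exact Nat.dvd_antisymm ‹_› ‹_›
      rcases Nat.lt_or_ge k z with h | h
      · have h2 := div_le_one a k z h
        have h3 : k / z = 0 := Nat.div_eq_of_lt h
        rw [h3]
        refine ⟨by split_ifs <;> omega, ?_⟩
        constructor
        · intro _ m hm hmk
          rw [huniq m hm] at hmk
          omega
        · intro _
          split_ifs <;> omega
      · have h3 : 0 < k / z := Nat.div_pos h hz.1
        refine ⟨by split_ifs <;> omega, ?_⟩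
        have h4 := div_eq_iff a k z hz.1
        constructor
        · intro h5 m hm _
          rw [huniq m hm]
          apply h4.1
          split_ifs at h5 <;> omega
        · intro h5
          have h6 := h4.2 (h5 z hz h)
          split_ifs <;> omega
    · push Not at hex
      have e1 : (Finset.Ioc a (a + k)).filter (fun i => q ∣ u i) = ∅ := by
        apply Finset.filter_false_of_mem
        intro i hi
        exact hex i (hI i hi)
      have e2 : (Finset.Ioc 0 k).filter (fun i => q ∣ u i) = ∅ := by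
        apply Finset.filter_false_of_mem
        intro i hi
        exact hex i (hJ i hi)
      rw [e1, e2]
      refine ⟨le_rfl, ?_⟩
      simp only [true_iff]
      intro m hm _
      exact absurd hm.2.1 (hex m hm.1)
  -- reduction to valuations
  have hval : ∀ p : ℕ, p.Prime →
      (((∏ i ∈ Finset.Ioc a (a + k), u i) * (Finset.Ioc 0 k).lcm u).factorization p =
      ((∏ i ∈ Finset.Ioc 0 k, u i) * (Finset.Ioc a (a + k)).lcm u).factorization p ↔
      ∀ e m, 0 < e → IsRank u (p ^ e) m → m ≤ k → k % m ≤ (a + k) % m) := by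
    intro p hp
    set E := (∏ i ∈ Finset.Ioc 0 (a + k), u i).factorization p with hE
    have hEle : ∀ i ∈ Finset.Ioc 0 (a + k), (u i).factorization p ≤ E := by
      intro i hi
      have h1 : u i ∣ ∏ i ∈ Finset.Ioc 0 (a + k), u i := Finset.dvd_prod_of_mem _ hi
      have h2 : ∏ i ∈ Finset.Ioc 0 (a + k), u i ≠ 0 :=
        Finset.prod_ne_zero_iff.2 fun i hi => hu i (Finset.mem_Ioc.1 hi).1
      exact (Nat.factorization_le_iff_dvd (hu i (Finset.mem_Ioc.1 hi).1) h2).2 h1 p
    have hEI : ∀ i ∈ Finset.Ioc a (a + k), (u i).factorization p ≤ E := fun i hi =>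
      hEle i (by rw [Finset.mem_Ioc] at hi ⊢; omega)
    have hEJ : ∀ i ∈ Finset.Ioc 0 k, (u i).factorization p ≤ E := fun i hi =>
      hEle i (by rw [Finset.mem_Ioc] at hi ⊢; omega)
    rw [Nat.factorization_mul n1 n4, Nat.factorization_mul n2 n3, Finsupp.add_apply,
      Finsupp.add_apply, val_prod hu hp _ hI E hEI, val_prod hu hp _ hJ E hEJ,
      val_lcm hu hp _ hI E hEI, val_lcm hu hp _ hJ E hEJ, ← Finset.sum_add_distrib,
      ← Finset.sum_add_distrib]
    rw [eq_comm, Finset.sum_eq_sum_iff_of_le fun e _ => (hlocal (p ^ e)).1]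
    constructor
    · intro h e m he hm hmk
      have hle : e ≤ E := by
        have h1 := hm.2.1
        rw [hp.pow_dvd_iff_le_factorization (hu m hm.1)] at h1
        exact h1.trans (hEle m (Finset.mem_Ioc.2 ⟨hm.1, by omega⟩))
      exact (hlocal (p ^ e)).2.1 (h e (Finset.mem_Icc.2 ⟨he, hle⟩)) m hm hmk
    · intro h e he
      exact (hlocal (p ^ e)).2.2 fun m hm hmk => h e m (Finset.mem_Icc.1 he).1 hm hmk
  constructor
  · intro h p e m hp he hm hmk
    exact (hval p hp).1 (by rw [h]) e m he hm hmk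
  · intro h
    apply Nat.eq_of_factorization_eq (mul_ne_zero n1 n4) (mul_ne_zero n2 n3)
    intro p
    by_cases hp : p.Prime
    · exact (hval p hp).2 fun e m he hm hmk => h p e m hp he hm hmk
    · rw [Nat.factorization_eq_zero_of_not_prime _ hp,
        Nat.factorization_eq_zero_of_not_prime _ hp]

end Q249.LcmBinomial
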