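import Mathlib

/-!
# Shifted Legendre values modulo `p ^ 3` and central trinomial coefficients

Helper file for MP_fcf7f4_nt.
-/

namespace Q249.LegendreSuper
open Finset Polynomial

/-- `(-1)^k C(n,k) C(n+k,k)`, the coefficients of the shifted Legendre polynomial. -/
def A (n k : ℕ) : ℤ := (-1)^k * (n.choose k : ℤ) * ((n+k).choose k : ℤ)

theorem A_zero (n : ℕ) : A n 0 = 1 := by simp [A]

theorem A_succ (n k : ℕ) :
    ((k:ℤ)+1)^2 * A n (k+1) = ((k:ℤ) - n) * (n+k+1) * A n k := by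
  have h1 : (n.choose (k+1) : ℤ) * (k+1) = n.choose k * ((n:ℤ)-k) := by
    rcases le_or_gt k n with h | h
    · have := Nat.choose_succ_right_eq n k
      have h2 : ((n - k : ℕ) : ℤ) = (n:ℤ) - k := by push_cast [h]; ring
      rw [← h2]; exact_mod_cast this
    · simp [Nat.choose_eq_zero_of_lt h, Nat.choose_eq_zero_of_lt (Nat.lt_succ_of_lt h)]
  have h3 : ((n+(k+1)).choose (k+1) : ℤ) * (k+1) = (n+k+1) * ((n+k).choose k) := by
    have := Nat.add_one_mul_choose_eq (n+k) k
    exact_mod_cast this.symm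
  unfold A
  rw [pow_succ]
  linear_combination (-(-1)^k * ((n+(k+1)).choose (k+1) : ℤ) * (k+1)) * h1
    - (-1)^k * (n.choose k : ℤ) * ((n:ℤ)-k) * h3

theorem A_up (n k : ℕ) (hk : k ≤ n + 1) :
    ((n:ℤ)+1-k) * A (n+1) k = ((n:ℤ)+1+k) * A n k := by
  have h1 : (n.choose k : ℤ) * (n+1) = (n+1).choose k * ((n:ℤ)+1-k) := by
    have := Nat.choose_mul_succ_eq n k
    have h2 : ((n + 1 - k : ℕ) : ℤ) = (n:ℤ) + 1 - k := by push_cast [hk]; ring
    rw [← h2]; exact_mod_cast this
  have h3 : ((n+k).choose k : ℤ) * (n+k+1) = (n+1+k).choose k * ((n:ℤ)+1) := by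
    have := Nat.choose_mul_succ_eq (n+k) k
    rw [show n + k + 1 - k = n + 1 by omega, show n + k + 1 = n + 1 + k by omega] at this
    have h4 : (((n+k).choose k * (n+1+k) : ℕ) : ℤ) = (((n+1+k).choose k * (n+1) : ℕ) : ℤ) := by
      rw [this]
    push_cast at h4
    linear_combination h4
  have hn : ((n:ℤ)+1) ≠ 0 := by positivity
  apply mul_left_cancel₀ hn
  unfold A
  linear_combination (-(-1)^k * ((n:ℤ)+1) * ((n+1+k).choose k : ℤ)) * h1
    - (-1)^k * (n.choose k : ℤ) * ((n:ℤ)+1) * h3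

section ring
variable {R : Type*} [CommRing R]

/-- value of the shifted Legendre polynomial -/
def L (n : ℕ) (y : R) : R := ∑ k ∈ range (n+1), (A n k : R) * y^k

theorem L_eq_aeval (n : ℕ) (y : R) : L n y = aeval y (shiftedLegendre n) := by
  unfold L shiftedLegendre
  rw [map_sum]
  refine sum_congr rfl fun k _ => ?_
  simp only [map_mul, map_pow, aeval_X, eq_intCast]
  congr 1
  unfold A
  rw [Nat.choose_symm_add]
  simp

theorem L_symm (n : ℕ) (y : R) : L n y = (-1)^n * L n (1-y) := by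
  rw [L_eq_aeval, L_eq_aeval]
  exact shiftedLegendre_eval_symm n y

theorem L_at_zero (n : ℕ) : L n (0:R) = 1 := by
  unfold L
  rw [sum_range_succ']
  simp [A_zero]

theorem L_at_one (n : ℕ) : L n (1:R) = (-1)^n := by
  rw [L_symm, sub_self, L_at_zero, mul_one]

end ring

section pcubed
variable {R : Type*} [CommRing R] {p : ℕ} {inv : ℕ → R}

/-- first order sum -/
def l1 (p : ℕ) (inv : ℕ → R) (y : R) : R := (p:R) * ∑ k ∈ Ico 1 p, inv k * y^k
/-- second order sum -/
def l2 (p : ℕ) (inv : ℕ → R) (y : R) : R := (p:R)^2 * ∑ k ∈ Ico 1 p, (inv k)^2 * y^k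

theorem A_pred (hP : (p:R)^3 = 0) (hinv : ∀ k, 1 ≤ k → k < p → (k:R) * inv k = 1)
    (k : ℕ) (hk1 : 1 ≤ k) (hkp : k < p) :
    (k:R)^2 * (A (p-1) k : R) = (p:R) * k - (p:R)^2 := by
  induction k, hk1 using Nat.le_induction with
  | base =>
    have h := A_succ (p-1) 0
    have hp1 : ((p - 1 : ℕ) : ℤ) = (p:ℤ) - 1 := by push_cast [show 1 ≤ p by omega]; ring
    rw [A_zero, hp1] at h
    have h2 : A (p-1) 1 = (p:ℤ) - p^2 := by
      push_cast at h; linarith
    rw [h2]; push_cast; ring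
  | succ k hk ih =>
    have hk' : k < p := by omega
    have ih := ih hk'
    have h := A_succ (p-1) k
    have hp1 : ((p - 1 : ℕ) : ℤ) = (p:ℤ) - 1 := by push_cast [show 1 ≤ p by omega]; ring
    rw [hp1] at h
    have h' : ((((k:ℤ)+1)^2 * A (p-1) (k+1) : ℤ) : R)
        = ((((k:ℤ) - ((p:ℤ) - 1)) * (((p:ℤ) - 1)+k+1) * A (p-1) k : ℤ) : R) := by rw [h]
    push_cast at h' ⊢
    have hi := hinv k hk hk'
    have hi2 : (k:R)^2 * (inv k)^2 = 1 := by
      rw [← mul_pow, hi, one_pow]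
    -- multiply by k^2
    have key : (k:R)^2 * (((k:R)+1)^2 * (A (p-1) (k+1) : R))
        = (k:R)^2 * ((p:R) * ((k:R)+1) - (p:R)^2) := by
      rw [h']
      linear_combination ((k:R) - ((p:R) - 1)) * (((p:R) - 1)+k+1) * ih
        - ((k:R) + 1 - p) * hP
    calc ((k:R)+1)^2 * (A (p-1) (k+1) : R)
        = ((k:R)^2 * (inv k)^2) * (((k:R)+1)^2 * (A (p-1) (k+1) : R)) := by rw [hi2, one_mul]
      _ = (inv k)^2 * ((k:R)^2 * (((k:R)+1)^2 * (A (p-1) (k+1) : R))) := by ring
      _ = (inv k)^2 * ((k:R)^2 * ((p:R) * ((k:R)+1) - (p:R)^2)) := by rw [key]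
      _ = ((k:R)^2 * (inv k)^2) * ((p:R) * ((k:R)+1) - (p:R)^2) := by ring
      _ = _ := by rw [hi2, one_mul]

theorem A_pred' (hP : (p:R)^3 = 0) (hinv : ∀ k, 1 ≤ k → k < p → (k:R) * inv k = 1)
    (k : ℕ) (hk1 : 1 ≤ k) (hkp : k < p) :
    (A (p-1) k : R) = (p:R) * inv k - (p:R)^2 * (inv k)^2 := by
  have h := A_pred hP hinv k hk1 hkp
  have hi := hinv k hk1 hkp
  linear_combination (inv k)^2 * h - ((A (p-1) k : R) * (k * inv k + 1) - (p:R) * inv k) * hi

theorem A_self (hP : (p:R)^3 = 0) (hinv : ∀ k, 1 ≤ k → k < p → (k:R) * inv k = 1)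
    (k : ℕ) (hk1 : 1 ≤ k) (hkp : k < p) :
    (A p k : R) = -(p:R) * inv k - (p:R)^2 * (inv k)^2 := by
  have h := A_pred hP hinv k hk1 hkp
  have hi := hinv k hk1 hkp
  have hj := hinv (p-k) (by omega) (by omega)
  have hpk : ((p - k : ℕ) : R) = (p:R) - k := by push_cast [show k ≤ p by omega]; ring
  rw [hpk] at hj
  set j := inv (p-k)
  set i := inv k
  have hu := A_up (p-1) k (by omega)
  have hp1 : ((p - 1 : ℕ) : ℤ) = (p:ℤ) - 1 := by push_cast [show 1 ≤ p by omega]; ring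
  rw [hp1, show p - 1 + 1 = p by omega] at hu
  have hu' : ((((p:ℤ)-1+1-k) * A p k : ℤ) : R) = ((((p:ℤ)-1+1+k) * A (p-1) k : ℤ) : R) := by
    rw [hu]
  push_cast at hu'
  -- (p-k) B = p
  have h1 : ((p:R) - k) * (A p k : R) = p := by
    have : (k:R)^2 * (((p:R) - k) * (A p k : R)) = (k:R)^2 * p := by
      linear_combination (k:R)^2 * hu' + ((p:R)+k) * h - hP
    linear_combination i^2 * this - (((p:R) - k) * (A p k : R) - p) * (k * i + 1) * hi
  -- B = p * j
  have h2 : (A p k : R) = p * j := by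
    linear_combination j * h1 - (A p k : R) * hj
  have h3 : (p:R)^2 * (A p k : R) = 0 := by
    rw [h2]; linear_combination j * hP
  have h4 : (k:R)^2 * (A p k : R) = - (p:R) * (p + k) := by
    linear_combination -((p:R)+k) * h1 + h3
  linear_combination i^2 * h4 - ((A p k : R) * (k * i + 1) + (p:R) * i) * hi

theorem L_pred_eq (hp : 1 < p) (hP : (p:R)^3 = 0)
    (hinv : ∀ k, 1 ≤ k → k < p → (k:R) * inv k = 1) (y : R) :
    L (p-1) y = 1 + l1 p inv y - l2 p inv y := by
  unfold L l1 l2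
  rw [show p - 1 + 1 = p by omega, Finset.range_eq_Ico, Finset.sum_eq_sum_Ico_succ_bot (by omega)]
  rw [A_zero, mul_sum, mul_sum, add_sub_assoc, ← sum_sub_distrib]
  simp only [Int.cast_one, pow_zero, mul_one, zero_add]
  congr 1
  refine sum_congr rfl fun k hk => ?_
  rw [mem_Ico] at hk
  rw [A_pred' hP hinv k hk.1 hk.2]
  ring

theorem L_self_eq (hp : 1 < p) (hP : (p:R)^3 = 0)
    (hinv : ∀ k, 1 ≤ k → k < p → (k:R) * inv k = 1) (y : R) :
    L p y = 1 - l1 p inv y - l2 p inv y + (A p p : R) * y^p := by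
  unfold L l1 l2
  rw [sum_range_succ, Finset.range_eq_Ico, Finset.sum_eq_sum_Ico_succ_bot (by omega)]
  rw [A_zero, mul_sum, mul_sum, sub_sub, ← sum_add_distrib, sub_eq_add_neg, ← sum_neg_distrib]
  simp only [Int.cast_one, pow_zero, mul_one, zero_add]
  congr 2
  refine sum_congr rfl fun k hk => ?_
  rw [mem_Ico] at hk
  rw [A_self hP hinv k hk.1 hk.2]
  ring

/-- reflection: `P² Σ inv(k)^2 z^{k}` with `z = y⁻¹`. -/
theorem l2_reflect (hp : 1 < p) (hP : (p:R)^3 = 0)
    (hinv : ∀ k, 1 ≤ k → k < p → (k:R) * inv k = 1) (y z : R) (hyz : y * z = 1) :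
    l2 p inv z = z^p * l2 p inv y := by
  unfold l2
  rw [mul_sum, mul_sum, mul_sum]
  have hrefl := Finset.sum_Ico_reflect (fun k => (p:R)^2 * ((inv k)^2 * z^k)) 1
    (by omega : p ≤ p + 1)
  rw [show p + 1 - p = 1 by omega, show p + 1 - 1 = p by omega] at hrefl
  rw [← hrefl]
  refine sum_congr rfl fun k hk => ?_
  rw [mem_Ico] at hk
  have hi := hinv k hk.1 hk.2
  have hj := hinv (p-k) (by omega) (by omega)
  have hpk : ((p - k : ℕ) : R) = (p:R) - k := by push_cast [show k ≤ p by omega]; ring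
  rw [hpk] at hj
  have hz : z^p * y^k = z^(p-k) := by
    rw [show p = (p-k) + k by omega, pow_add, mul_assoc, ← mul_pow, mul_comm z y, hyz, one_pow,
      mul_one]
    congr 1; omega
  have h1 : (p:R)^2 * (inv (p-k))^2 = (p:R)^2 * (inv k)^2 := by
    set j := inv (p-k)
    set i := inv k
    have e1 : (p:R)^2 * j = - (p:R)^2 * i := by
      -- multiply hj by p^2 * i : p^2 (p-k) j i = p^2 i ;  p^3=0 -> -p^2 k i j = p^2 i
      linear_combination (-(p:R)^2 * i) * hj - (p:R)^2 * j * hi + i * j * hP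
    linear_combination (j - i) * e1
  calc (p:R)^2 * ((inv (p-k))^2 * z^(p-k)) = ((p:R)^2 * (inv (p-k))^2) * z^(p-k) := by ring
    _ = ((p:R)^2 * (inv k)^2) * (z^p * y^k) := by rw [h1, hz]
    _ = _ := by ring

theorem l1_reflect (hp : 1 < p) (hP : (p:R)^3 = 0)
    (hinv : ∀ k, 1 ≤ k → k < p → (k:R) * inv k = 1) (y z : R) (hyz : y * z = 1) :
    l1 p inv z = - z^p * (l1 p inv y + l2 p inv y) := by
  unfold l1 l2
  rw [mul_sum, mul_sum, mul_sum, ← sum_add_distrib, mul_sum]
  have hrefl := Finset.sum_Ico_reflect (fun k => (p:R) * (inv k * z^k)) 1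
    (by omega : p ≤ p + 1)
  rw [show p + 1 - p = 1 by omega, show p + 1 - 1 = p by omega] at hrefl
  rw [← hrefl]
  refine sum_congr rfl fun k hk => ?_
  rw [mem_Ico] at hk
  have hi := hinv k hk.1 hk.2
  have hj := hinv (p-k) (by omega) (by omega)
  have hpk : ((p - k : ℕ) : R) = (p:R) - k := by push_cast [show k ≤ p by omega]; ring
  rw [hpk] at hj
  have hz : z^p * y^k = z^(p-k) := by
    rw [show p = (p-k) + k by omega, pow_add, mul_assoc, ← mul_pow, mul_comm z y, hyz, one_pow,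
      mul_one]
    congr 1; omega
  have h1 : (p:R) * inv (p-k) = -(p:R) * inv k - (p:R)^2 * (inv k)^2 := by
    set j := inv (p-k)
    set i := inv k
    have e1 : (p:R)^2 * j = - (p:R)^2 * i := by
      linear_combination (-(p:R)^2 * i) * hj - (p:R)^2 * j * hi + i * j * hP
    linear_combination (-(p:R) * i) * hj - (p:R) * j * hi + i * e1
  calc (p:R) * (inv (p-k) * z^(p-k)) = ((p:R) * inv (p-k)) * z^(p-k) := by ring
    _ = (-(p:R) * inv k - (p:R)^2 * (inv k)^2) * (z^p * y^k) := by rw [h1, hz]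
    _ = _ := by ring

/-- cancel a small unit -/
theorem cancel_small (hinv : ∀ k, 1 ≤ k → k < p → (k:R) * inv k = 1) (k : ℕ) (h1 : 1 ≤ k)
    (h2 : k < p) {a b : R} (h : (k:R) * a = k * b) : a = b := by
  have hi := hinv k h1 h2
  linear_combination inv k * h - (a - b) * hi

theorem l2_one (hp : 3 < p) (hodd : p % 2 = 1) (hP : (p:R)^3 = 0)
    (hinv : ∀ k, 1 ≤ k → k < p → (k:R) * inv k = 1) :
    l1 p inv 1 = 0 ∧ l2 p inv 1 = 0 := by
  have h1 := l1_reflect (by omega) hP hinv 1 1 (by ring)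
  rw [one_pow] at h1
  have h2 := L_pred_eq (by omega) hP hinv (1:R)
  have he : Even (p - 1) := by
    rw [Nat.even_iff]; omega
  rw [L_at_one, he.neg_one_pow] at h2
  have h3 : l2 p inv (1:R) = 0 := by
    apply cancel_small hinv 3 (by omega) hp
    push_cast
    linear_combination h1 + 2 * h2
  refine ⟨?_, h3⟩
  linear_combination h3 - h2

theorem A_self_self (hp : 3 < p) (hodd : p % 2 = 1) (hP : (p:R)^3 = 0)
    (hinv : ∀ k, 1 ≤ k → k < p → (k:R) * inv k = 1) :
    (A p p : R) = -2 := by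
  obtain ⟨h1, h2⟩ := l2_one hp hodd hP hinv
  have h := L_self_eq (by omega) hP hinv (1:R)
  have ho : Odd p := by
    rw [Nat.odd_iff]; omega
  rw [L_at_one, ho.neg_one_pow, h1, h2, one_pow] at h
  linear_combination -h

theorem core (hp : 3 < p) (hodd : p % 2 = 1) (hP : (p:R)^3 = 0)
    (hinv : ∀ k, 1 ≤ k → k < p → (k:R) * inv k = 1) (y : R) (hy : y^2 = y - 1)
    (hpp : y^p + (1-y)^p = 1) :
    L (p-1) y = 1 - (1 + (1-y)^p) * l2 p inv y ∧
    L p y = 1 + ((1-y)^p - 1) * l2 p inv y - 2 * y^p := by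
  have hB := A_self_self hp hodd hP hinv
  have hyz : y * (1 - y) = 1 := by linear_combination -hy
  have he : Even (p - 1) := by
    rw [Nat.even_iff]; omega
  have ho : Odd p := by
    rw [Nat.odd_iff]; omega
  have s1 := L_symm (p-1) y
  have s2 := L_symm p y
  rw [he.neg_one_pow] at s1
  rw [ho.neg_one_pow] at s2
  have e1 := L_pred_eq (by omega) hP hinv y
  have e2 := L_pred_eq (by omega) hP hinv (1 - y)
  have e3 := L_self_eq (by omega) hP hinv y
  have e4 := L_self_eq (by omega) hP hinv (1 - y)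
  have r := l2_reflect (by omega) hP hinv y (1-y) hyz
  rw [hB] at e3 e4
  have h1 : l1 p inv y = - l2 p inv (1-y) := by
    apply cancel_small hinv 2 (by omega) (by omega)
    push_cast
    linear_combination s1 - e1 + e2 - (s2 - e3 - e4) - 2 * hpp
  rw [r] at h1
  constructor
  · linear_combination e1 + h1
  · linear_combination e3 - h1

end pcubed

section trinomial
variable {R : Type*} [CommRing R]

/-- central trinomial coefficient over a ring -/
def TR (b c : R) (n : ℕ) : R :=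
  ∑ j ∈ range (n/2+1), (n.choose (2*j) : R) * ((2*j).choose j : R) * b^(n-2*j) * c^j

theorem coeff_sq_add (c : R) (i : ℕ) :
    coeff ((X^2 + C c)^i) i = if 2 ∣ i then ((i.choose (i/2) : ℕ) : R) * c^(i/2) else 0 := by
  have h : (X^2 + C c)^i = expand R 2 ((X + C c)^i) := by simp
  rw [h, coeff_expand (by norm_num)]
  split_ifs with h2
  · rw [coeff_X_add_C_pow]
    obtain ⟨j, rfl⟩ := h2
    rw [show 2 * j - 2 * j / 2 = j by omega, show 2 * j / 2 = j by omega]
    ring
  · rfl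

theorem sum_even (f : ℕ → R) (n : ℕ) :
    ∑ i ∈ range (n+1), (if 2 ∣ i then f i else 0) = ∑ j ∈ range (n/2+1), f (2*j) := by
  rw [← sum_filter]
  symm
  apply sum_bij (fun j _ => 2 * j)
  · intro j hj
    rw [mem_range] at hj
    rw [mem_filter, mem_range]
    exact ⟨by omega, dvd_mul_right _ _⟩
  · intro a _ b _ h
    simpa using h
  · intro i hi
    rw [mem_filter, mem_range] at hi
    obtain ⟨j, rfl⟩ := hi.2
    exact ⟨j, by rw [mem_range]; omega, rfl⟩
  · intro _ _; rfl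

theorem TR_eq_coeff (b c : R) (n : ℕ) :
    TR b c n = coeff ((X^2 + C b * X + C c)^n) n := by
  have h0 : (X^2 + C b * X + C c : R[X])^n
      = ∑ i ∈ range (n+1), (X^2 + C c)^i * (C b * X)^(n-i) * (n.choose i : R[X]) := by
    rw [← add_pow]; ring
  rw [h0, finsetSum_coeff]
  have h1 : ∀ i ∈ range (n+1),
      coeff ((X^2 + C c)^i * (C b * X)^(n-i) * (n.choose i : R[X])) n
        = if 2 ∣ i then (n.choose i : R) * ((i.choose (i/2) : ℕ) : R) * b^(n-i) * c^(i/2) else 0 := by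
    intro i hi
    rw [mem_range] at hi
    have e : (X^2 + C c : R[X])^i * (C b * X)^(n-i) * (n.choose i : R[X])
        = C (b^(n-i) * (n.choose i : R)) * ((X^2 + C c)^i * X^(n-i)) := by
      rw [mul_pow, ← C_pow, C_mul, ← C_eq_natCast]; ring
    rw [e, coeff_C_mul]
    have e2 : coeff ((X^2 + C c : R[X])^i * X^(n-i)) n = coeff ((X^2 + C c : R[X])^i) i := by
      conv_lhs => rw [show n = i + (n - i) by omega]
      rw [show i + (n - i) - i = n - i by omega, coeff_mul_X_pow]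
    rw [e2, coeff_sq_add]
    split_ifs
    · ring
    · ring
  rw [sum_congr rfl h1, sum_even]
  unfold TR
  refine sum_congr rfl fun j _ => ?_
  rw [show 2 * j / 2 = j by omega]

theorem TR_eq_L (y s : R) (n : ℕ) :
    TR (s * (1 - 2 * y)) (-(s^2 * y * (1-y))) n = s^n * L n y := by
  rw [TR_eq_coeff]
  have h0 : (X^2 + C (s * (1 - 2 * y)) * X + C (-(s^2 * y * (1-y))) : R[X])
      = (X + C (-(s*y))) * ((X + C (-(s*y))) + C s) := by
    simp only [C_mul, C_neg, C_sub, C_1, C_pow, C_ofNat]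
    ring
  rw [h0, mul_pow, add_pow (X + C (-(s*y))) (C s), mul_sum, finsetSum_coeff]
  unfold L
  rw [mul_sum]
  refine sum_congr rfl fun k hk => ?_
  rw [mem_range] at hk
  have e : (X + C (-(s*y)) : R[X])^n * ((X + C (-(s*y)))^k * (C s)^(n-k) * (n.choose k : R[X]))
      = C (s^(n-k) * (n.choose k : R)) * (X + C (-(s*y)))^(n+k) := by
    rw [pow_add, C_mul, C_pow, ← C_eq_natCast]; ring
  rw [e, coeff_C_mul, coeff_X_add_C_pow, show n + k - n = k by omega, Nat.choose_symm_add]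
  have hs : s^n = s^(n-k) * s^k := by rw [← pow_add]; congr 1; omega
  rw [hs]
  unfold A
  push_cast
  rw [neg_pow, mul_pow]
  ring

end trinomial

end Q249.LegendreSuper
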