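import Mathlib

/-!
# Slow Fibonacci walks: down- and up-integers

Helper file for MP_e2feb3_nt.
-/

namespace Q249.SlowFib

open Real

/-- The `(a₁,a₂)`-Fibonacci walk: `w 1 = a₁`, `w 2 = a₂`, `w (k+2) = w (k+1) + w k` for `k ≥ 1`
(the value at index `0` is a dummy). -/
def w (a₁ a₂ : ℕ) : ℕ → ℕ
  | 0 => 0
  | 1 => a₁
  | 2 => a₂
  | (k+3) => w a₁ a₂ (k+2) + w a₁ a₂ (k+1)

/-- `s n` is the largest index `s ≥ 1` at which some walk with positive starting values equals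
`n`. -/
noncomputable def s (n : ℕ) : ℕ :=
  sSup {s | 1 ≤ s ∧ ∃ a₁ a₂ : ℕ, 1 ≤ a₁ ∧ 1 ≤ a₂ ∧ w a₁ a₂ s = n}

/-- `(a₁,a₂)` is `n`-good. -/
def IsGood (n a₁ a₂ : ℕ) : Prop := 1 ≤ a₁ ∧ 1 ≤ a₂ ∧ w a₁ a₂ (s n) = n

/-- the set of down-integers -/
def Down : Set ℕ :=
  {n | 2 ≤ n ∧ ∃ a₁ a₂, IsGood n a₁ a₂ ∧ (w a₁ a₂ (s n + 1) : ℤ) = ⌊goldenRatio * n⌋}

/-- the set of up-integers -/
def Up : Set ℕ :=
  {n | 2 ≤ n ∧ ∃ a₁ a₂, IsGood n a₁ a₂ ∧ (w a₁ a₂ (s n + 1) : ℤ) = ⌈goldenRatio * n⌉}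

theorem w_step (a₁ a₂ k : ℕ) (hk : 1 ≤ k) : w a₁ a₂ (k+2) = w a₁ a₂ (k+1) + w a₁ a₂ k := by
  obtain ⟨j, rfl⟩ : ∃ j, k = j + 1 := ⟨k - 1, by omega⟩
  rfl

theorem w_pos (a₁ a₂ : ℕ) (h1 : 1 ≤ a₁) (h2 : 1 ≤ a₂) (k : ℕ) (hk : 1 ≤ k) : 1 ≤ w a₁ a₂ k := by
  induction k using Nat.strong_induction_on with
  | _ k ih =>
    match k, hk with
    | 1, _ => exact h1
    | 2, _ => exact h2
    | (j+3), _ =>
      have := ih (j+2) (by omega) (by omega)
      show 1 ≤ w a₁ a₂ (j+2) + w a₁ a₂ (j+1)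
      omega

/-- the walk read backwards from `(n, m)` -/
def v (n m : ℤ) : ℕ → ℤ
  | 0 => m
  | 1 => n
  | (j+2) => v n m j - v n m (j+1)

theorem v_eq (n m : ℤ) (j : ℕ) :
    v n m (j+1) = (-1)^(j+1) * ((Nat.fib j : ℤ) * m - (Nat.fib (j+1) : ℤ) * n) := by
  induction j using Nat.strong_induction_on with
  | _ j ih =>
    match j with
    | 0 => simp [v]
    | 1 => simp [v]
    | (j+2) =>
      have h1 := ih j (by omega)
      have h2 := ih (j+1) (by omega)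
      show v n m (j+1) - v n m (j+1+1) = _
      rw [h1, h2]
      have e1 : (Nat.fib (j+2) : ℤ) = Nat.fib j + Nat.fib (j+1) := by
        rw [Nat.fib_add_two]; push_cast; ring
      have e2 : (Nat.fib (j+2+1) : ℤ) = Nat.fib (j+1) + Nat.fib (j+2) := by
        rw [show j + 2 + 1 = (j+1) + 2 by ring, Nat.fib_add_two]; push_cast; ring
      rw [show j + 1 + 1 = j + 2 by ring, e2, e1, pow_succ, pow_succ, pow_succ]
      ring

theorem walk_v (a₁ a₂ t : ℕ) (j : ℕ) (hj : j ≤ t) :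
    (w a₁ a₂ (t + 1 - j) : ℤ) = v (w a₁ a₂ t) (w a₁ a₂ (t+1)) j := by
  induction j using Nat.strong_induction_on with
  | _ j ih =>
    match j with
    | 0 => simp [v]
    | 1 => simp [v]
    | (j+2) =>
      have h1 := ih j (by omega) (by omega)
      have h2 := ih (j+1) (by omega) (by omega)
      show _ = v _ _ j - v _ _ (j+1)
      rw [← h1, ← h2]
      have h3 := w_step a₁ a₂ (t + 1 - (j+2)) (by omega)
      rw [show t + 1 - (j+2) + 2 = t + 1 - j by omega,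
        show t + 1 - (j+2) + 1 = t + 1 - (j+1) by omega] at h3
      rw [h3]; push_cast; ring

theorem v_walk (n m : ℤ) (t : ℕ) (ht : 1 ≤ t) (hpos : ∀ j ≤ t, 1 ≤ v n m j) (k : ℕ)
    (hk1 : 1 ≤ k) (hk : k ≤ t + 1) :
    (w (v n m t).toNat (v n m (t-1)).toNat k : ℤ) = v n m (t + 1 - k) := by
  induction k using Nat.strong_induction_on with
  | _ k ih =>
    match k, hk1 with
    | 1, _ =>
      show (((v n m t).toNat : ℕ) : ℤ) = _
      have := hpos t le_rfl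
      rw [Int.toNat_of_nonneg (by omega)]
      congr 1
    | 2, _ =>
      show (((v n m (t-1)).toNat : ℕ) : ℤ) = _
      have := hpos (t-1) (by omega)
      rw [Int.toNat_of_nonneg (by omega)]
      congr 1
    | (k+3), _ =>
      have h1 := ih (k+2) (by omega) (by omega) (by omega)
      have h2 := ih (k+1) (by omega) (by omega) (by omega)
      show ((w _ _ (k+2) + w _ _ (k+1) : ℕ) : ℤ) = _
      push_cast
      rw [h1, h2]
      have e : v n m (t + 1 - (k+1)) = v n m (t + 1 - (k+3)) - v n m (t + 1 - (k+2)) := by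
        have : t + 1 - (k+1) = (t + 1 - (k+3)) + 2 := by omega
        rw [this]
        show v n m _ - v n m _ = _
        congr 2
        omega
      have e5 : t + 1 - (k+3) = t - (k+2) := by omega
      rw [e5] at e
      linarith

/-- all the conditions for a walk of index `t` through `n` with next term `m` (`m ≤ ⌊φ n⌋`) -/
def DN (n m t : ℕ) : Prop :=
  ∀ j, 2 * j + 2 ≤ t → Nat.fib (2*j+2) * n < Nat.fib (2*j+1) * m

/-- all the conditions for a walk of index `t` through `n` with next term `m` (`m ≥ ⌈φ n⌉`) -/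
def UN (n m t : ℕ) : Prop :=
  ∀ j, 2 * j + 1 ≤ t → Nat.fib (2*j) * m < Nat.fib (2*j+1) * n

theorem v_odd (n m j : ℕ) : v n m (2*j+1) = (Nat.fib (2*j+1) : ℤ) * n - (Nat.fib (2*j) : ℤ) * m := by
  rw [v_eq, pow_succ, pow_mul]; norm_num

theorem v_even (n m j : ℕ) :
    v n m (2*j+2) = (Nat.fib (2*j+1) : ℤ) * m - (Nat.fib (2*j+2) : ℤ) * n := by
  rw [show 2*j+2 = (2*j+1)+1 by ring, v_eq, pow_succ, pow_succ, pow_mul]; norm_num

theorem conds_of_walk (a₁ a₂ t : ℕ) (h1 : 1 ≤ a₁) (h2 : 1 ≤ a₂) :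
    DN (w a₁ a₂ t) (w a₁ a₂ (t+1)) t ∧ UN (w a₁ a₂ t) (w a₁ a₂ (t+1)) t := by
  constructor
  · intro j hj
    have e1 := walk_v a₁ a₂ t (2*j+2) hj
    have e2 := w_pos a₁ a₂ h1 h2 (t + 1 - (2*j+2)) (by omega)
    rw [v_even] at e1
    have : (1:ℤ) ≤ w a₁ a₂ (t + 1 - (2*j+2)) := by exact_mod_cast e2
    have : ((Nat.fib (2*j+2) * w a₁ a₂ t : ℕ) : ℤ) < ((Nat.fib (2*j+1) * w a₁ a₂ (t+1) : ℕ) : ℤ) := by
      push_cast; linarith
    exact_mod_cast this
  · intro j hj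
    have e1 := walk_v a₁ a₂ t (2*j+1) hj
    have e2 := w_pos a₁ a₂ h1 h2 (t + 1 - (2*j+1)) (by omega)
    rw [v_odd] at e1
    have : (1:ℤ) ≤ w a₁ a₂ (t + 1 - (2*j+1)) := by exact_mod_cast e2
    have : ((Nat.fib (2*j) * w a₁ a₂ (t+1) : ℕ) : ℤ) < ((Nat.fib (2*j+1) * w a₁ a₂ t : ℕ) : ℤ) := by
      push_cast; linarith
    exact_mod_cast this

theorem walk_of_conds (n m t : ℕ) (ht : 1 ≤ t) (hm : 1 ≤ m) (hd : DN n m t) (hu : UN n m t) :
    ∃ a₁ a₂, 1 ≤ a₁ ∧ 1 ≤ a₂ ∧ w a₁ a₂ t = n ∧ w a₁ a₂ (t+1) = m := by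
  have hpos : ∀ j ≤ t, 1 ≤ v n m j := by
    intro j hj
    rcases Nat.even_or_odd' j with ⟨i, rfl | rfl⟩
    · rcases Nat.eq_zero_or_pos i with rfl | hi
      · show (1:ℤ) ≤ (m:ℤ)
        exact_mod_cast hm
      · obtain ⟨k, rfl⟩ : ∃ k, i = k + 1 := ⟨i-1, by omega⟩
        rw [show 2*(k+1) = 2*k+2 by ring, v_even]
        have := hd k (by omega)
        have : ((Nat.fib (2*k+2) * n : ℕ) : ℤ) < ((Nat.fib (2*k+1) * m : ℕ) : ℤ) := by
          exact_mod_cast this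
        push_cast at this; linarith
    · rw [v_odd]
      have := hu i (by omega)
      have : ((Nat.fib (2*i) * m : ℕ) : ℤ) < ((Nat.fib (2*i+1) * n : ℕ) : ℤ) := by
        exact_mod_cast this
      push_cast at this; linarith
  refine ⟨(v n m t).toNat, (v n m (t-1)).toNat, ?_, ?_, ?_, ?_⟩
  · have := hpos t le_rfl; omega
  · have := hpos (t-1) (by omega); omega
  · have := v_walk n m t ht hpos t ht (by omega)
    rw [show t + 1 - t = 1 by omega] at this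
    have h2 : v (n:ℤ) m 1 = n := rfl
    rw [h2] at this
    exact_mod_cast this
  · have := v_walk n m t ht hpos (t+1) (by omega) le_rfl
    rw [show t + 1 - (t+1) = 0 by omega] at this
    have h2 : v (n:ℤ) m 0 = m := rfl
    rw [h2] at this
    exact_mod_cast this

theorem fib_phi (j : ℕ) : (Nat.fib (j+1) : ℝ) - goldenRatio * Nat.fib j = goldenConj^j :=
  Real.fib_succ_sub_goldenRatio_mul_fib j

/-- `1/φ` -/
noncomputable def rho : ℝ := goldenRatio⁻¹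

theorem rho_pos : 0 < rho := inv_pos.2 goldenRatio_pos

theorem conj_eq : goldenConj = -rho := by
  unfold rho; rw [inv_goldenRatio]; ring

theorem fib_phi_even (j : ℕ) :
    (Nat.fib (2*j+1) : ℝ) - goldenRatio * Nat.fib (2*j) = rho^(2*j) := by
  rw [fib_phi, conj_eq, neg_pow, pow_mul]; norm_num

theorem fib_phi_odd (j : ℕ) :
    (Nat.fib (2*j+2) : ℝ) - goldenRatio * Nat.fib (2*j+1) = -rho^(2*j+1) := by
  rw [fib_phi, conj_eq, neg_pow, pow_succ, pow_mul]; norm_num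

/-- `m ≤ φ n` gives all the `UN` conditions. -/
theorem UN_of_le (n m t : ℕ) (h : (m:ℝ) ≤ goldenRatio * n) (hn : 1 ≤ n) : UN n m t := by
  intro j _
  have h1 := fib_phi_even j
  have h2 : (0:ℝ) < rho^(2*j) := pow_pos rho_pos _
  have h3 : (0:ℝ) ≤ Nat.fib (2*j) := Nat.cast_nonneg _
  have hn' : (1:ℝ) ≤ n := by exact_mod_cast hn
  have : ((Nat.fib (2*j) * m : ℕ) : ℝ) < ((Nat.fib (2*j+1) * n : ℕ) : ℝ) := by
    push_cast
    have h4 : (Nat.fib (2*j) : ℝ) * m ≤ Nat.fib (2*j) * (goldenRatio * n) :=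
      mul_le_mul_of_nonneg_left h h3
    have h5 : (Nat.fib (2*j+1) : ℝ) = goldenRatio * Nat.fib (2*j) + rho^(2*j) := by linarith
    rw [h5]
    nlinarith
  exact_mod_cast this

/-- `m ≥ φ n` gives all the `DN` conditions. -/
theorem DN_of_ge (n m t : ℕ) (h : goldenRatio * n ≤ (m:ℝ)) (hn : 1 ≤ n) : DN n m t := by
  intro j _
  have h1 := fib_phi_odd j
  have h2 : (0:ℝ) < rho^(2*j+1) := pow_pos rho_pos _
  have h3 : (0:ℝ) ≤ Nat.fib (2*j+1) := Nat.cast_nonneg _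
  have hn' : (1:ℝ) ≤ n := by exact_mod_cast hn
  have : ((Nat.fib (2*j+2) * n : ℕ) : ℝ) < ((Nat.fib (2*j+1) * m : ℕ) : ℝ) := by
    push_cast
    have h4 : (Nat.fib (2*j+1) : ℝ) * (goldenRatio * n) ≤ Nat.fib (2*j+1) * m :=
      mul_le_mul_of_nonneg_left h h3
    have h5 : (Nat.fib (2*j+2) : ℝ) = goldenRatio * Nat.fib (2*j+1) - rho^(2*j+1) := by linarith
    rw [h5]
    nlinarith
  exact_mod_cast this

theorem DN_mono_m {n m m' t : ℕ} (h : DN n m t) (hm : m ≤ m') : DN n m' t := by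
  intro j hj
  exact lt_of_lt_of_le (h j hj) (Nat.mul_le_mul_left _ hm)

theorem UN_mono_m {n m m' t : ℕ} (h : UN n m t) (hm : m' ≤ m) : UN n m' t := by
  intro j hj
  exact lt_of_le_of_lt (Nat.mul_le_mul_left _ hm) (h j hj)

/-- the integer part of `φ n` -/
noncomputable def fl (n : ℕ) : ℕ := ⌊goldenRatio * n⌋.toNat

theorem fl_cast (n : ℕ) : ((fl n : ℕ) : ℤ) = ⌊goldenRatio * n⌋ := by
  unfold fl
  rw [Int.toNat_of_nonneg]
  exact Int.floor_nonneg.2 (by have := goldenRatio_pos; positivity)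

theorem fl_le (n : ℕ) : (fl n : ℝ) ≤ goldenRatio * n := by
  have h := Int.floor_le (goldenRatio * n)
  rw [← fl_cast] at h
  exact_mod_cast h

theorem lt_fl (n : ℕ) : goldenRatio * n < (fl n : ℝ) + 1 := by
  have h := Int.lt_floor_add_one (goldenRatio * n)
  rw [← fl_cast] at h
  exact_mod_cast h

theorem ne_int (n : ℕ) (hn : 1 ≤ n) (m : ℤ) : goldenRatio * n ≠ m := by
  have h := goldenRatio_irrational.mul_natCast (show n ≠ 0 by omega)
  intro h2
  rw [h2] at h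
  exact h.ne_int m rfl

theorem ceil_eq (n : ℕ) (hn : 1 ≤ n) : ⌈goldenRatio * n⌉ = (fl n : ℤ) + 1 := by
  rw [Int.ceil_eq_iff]
  push_cast
  have h1 := fl_le n
  have h2 := lt_fl n
  have h3 : goldenRatio * n ≠ (fl n : ℝ) := by
    have := ne_int n hn (fl n : ℤ)
    exact_mod_cast this
  refine ⟨?_, h2.le⟩
  have : (fl n : ℝ) < goldenRatio * n := lt_of_le_of_ne h1 (Ne.symm h3)
  linarith

theorem fl_pos (n : ℕ) (hn : 1 ≤ n) : 1 ≤ fl n := by
  have h := lt_fl n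
  have h2 := one_lt_goldenRatio
  have hn' : (1:ℝ) ≤ n := by exact_mod_cast hn
  by_contra h3
  have h4 : fl n = 0 := by omega
  rw [h4] at h
  push_cast at h
  nlinarith

/-- the index set -/
theorem index_iff (n t : ℕ) (hn : 1 ≤ n) (ht : 1 ≤ t) :
    (∃ a₁ a₂ : ℕ, 1 ≤ a₁ ∧ 1 ≤ a₂ ∧ w a₁ a₂ t = n) ↔ DN n (fl n) t ∨ UN n (fl n + 1) t := by
  constructor
  · rintro ⟨a₁, a₂, h1, h2, h3⟩
    obtain ⟨hd, hu⟩ := conds_of_walk a₁ a₂ t h1 h2
    rw [h3] at hd hu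
    rcases le_or_gt (w a₁ a₂ (t+1)) (fl n) with h | h
    · exact Or.inl (DN_mono_m hd h)
    · exact Or.inr (UN_mono_m hu h)
  · rintro (h | h)
    · obtain ⟨a, b, h1, h2, h3, _⟩ := walk_of_conds n (fl n) t ht (fl_pos n hn) h
        (UN_of_le n _ t (fl_le n) hn)
      exact ⟨a, b, h1, h2, h3⟩
    · obtain ⟨a, b, h1, h2, h3, _⟩ := walk_of_conds n (fl n + 1) t ht (by omega)
        (DN_of_ge n _ t (by push_cast; exact (lt_fl n).le) hn) h
      exact ⟨a, b, h1, h2, h3⟩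

theorem DN_anti {n m t t' : ℕ} (h : DN n m t) (ht : t' ≤ t) : DN n m t' :=
  fun j hj => h j (by omega)

theorem UN_anti {n m t t' : ℕ} (h : UN n m t) (ht : t' ≤ t) : UN n m t' :=
  fun j hj => h j (by omega)

theorem DN_one (n m : ℕ) : DN n m 1 := fun j hj => by omega

theorem fib_cast_add (j : ℕ) : (Nat.fib (j+2) : ℤ) = Nat.fib j + Nat.fib (j+1) := by
  rw [Nat.fib_add_two]; push_cast; ring

/-- Cassini, in the two parities. -/
theorem fib_det (j : ℕ) :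
    (Nat.fib (2*j+1) : ℤ) * Nat.fib (2*j+3) = (Nat.fib (2*j+2) : ℤ)^2 + 1 := by
  induction j with
  | zero => norm_num [Nat.fib]
  | succ j ih =>
    have e2 := fib_cast_add (2*j+2)
    have e3 := fib_cast_add (2*j+3)
    have e4 := fib_cast_add (2*j+1)
    rw [show 2*(j+1)+1 = 2*j+3 by ring, show 2*(j+1)+2 = 2*j+2+2 by ring,
      show 2*(j+1)+3 = 2*j+3+2 by ring]
    rw [show 2*j+2+1 = 2*j+3 by ring] at e2
    rw [show 2*j+3+1 = 2*j+2+2 by ring] at e3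
    rw [show 2*j+1+2 = 2*j+3 by ring, show 2*j+1+1 = 2*j+2 by ring] at e4
    rw [e3, e2, e4]
    rw [e4] at ih
    linear_combination ih

theorem fib_det' (j : ℕ) :
    (Nat.fib (2*j) : ℤ) * Nat.fib (2*j+2) = (Nat.fib (2*j+1) : ℤ)^2 - 1 := by
  have e1 := fib_det j
  have e2 := fib_cast_add (2*j)
  have e3 := fib_cast_add (2*j+1)
  rw [show 2*j+1+2 = 2*j+3 by ring, show 2*j+1+1 = 2*j+2 by ring] at e3
  rw [e3] at e1
  have e4 : (Nat.fib (2*j) : ℤ) = Nat.fib (2*j+2) - Nat.fib (2*j+1) := by linarith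
  rw [e4]
  linear_combination -e1

/-- one step down in the `DN` conditions -/
theorem dn_step {n m : ℕ} (j : ℕ) (h : Nat.fib (2*j+4) * n < Nat.fib (2*j+3) * m) :
    Nat.fib (2*j+2) * n < Nat.fib (2*j+1) * m := by
  by_contra hc
  push Not at hc
  have h' : (Nat.fib (2*j+4) : ℤ) * n < Nat.fib (2*j+3) * m := by exact_mod_cast h
  have hc' : (Nat.fib (2*j+1) : ℤ) * m ≤ Nat.fib (2*j+2) * n := by exact_mod_cast hc
  have e1 := fib_det j
  have e2 := fib_cast_add (2*j+2)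
  rw [show 2*j+2+2 = 2*j+4 by ring, show 2*j+2+1 = 2*j+3 by ring] at e2
  have e3 := fib_cast_add (2*j+1)
  rw [show 2*j+1+2 = 2*j+3 by ring, show 2*j+1+1 = 2*j+2 by ring] at e3
  have p1 : (0:ℤ) < Nat.fib (2*j+1) := by exact_mod_cast Nat.fib_pos.2 (by omega)
  have p3 : (0:ℤ) < Nat.fib (2*j+3) := by exact_mod_cast Nat.fib_pos.2 (by omega)
  have hn : (0:ℤ) ≤ n := Int.natCast_nonneg _
  -- F1 F4 n < F1 F3 m ≤ F3 F2 n ; F1 F4 = F2 F3 + 1
  have h1 : (Nat.fib (2*j+1) : ℤ) * (Nat.fib (2*j+4) * n) < Nat.fib (2*j+1) * (Nat.fib (2*j+3) * m) :=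
    mul_lt_mul_of_pos_left h' p1
  have h2 : (Nat.fib (2*j+3) : ℤ) * (Nat.fib (2*j+1) * m) ≤ Nat.fib (2*j+3) * (Nat.fib (2*j+2) * n) :=
    mul_le_mul_of_nonneg_left hc' p3.le
  have h3 : (Nat.fib (2*j+1) : ℤ) * Nat.fib (2*j+4) = Nat.fib (2*j+2) * Nat.fib (2*j+3) + 1 := by
    rw [e2]
    rw [e3] at e1 ⊢
    linear_combination e1
  have h4 : (Nat.fib (2*j+1) : ℤ) * (Nat.fib (2*j+4) * n)
      = (Nat.fib (2*j+2) * Nat.fib (2*j+3) + 1) * n := by rw [← h3]; ring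
  nlinarith

/-- one step down in the `UN` conditions -/
theorem un_step {n m : ℕ} (j : ℕ) (h : Nat.fib (2*j+2) * m < Nat.fib (2*j+3) * n) :
    Nat.fib (2*j) * m < Nat.fib (2*j+1) * n := by
  by_contra hc
  push Not at hc
  have h' : (Nat.fib (2*j+2) : ℤ) * m < Nat.fib (2*j+3) * n := by exact_mod_cast h
  have hc' : (Nat.fib (2*j+1) : ℤ) * n ≤ Nat.fib (2*j) * m := by exact_mod_cast hc
  have e1 := fib_det' j
  have e2 := fib_cast_add (2*j+1)
  rw [show 2*j+1+2 = 2*j+3 by ring, show 2*j+1+1 = 2*j+2 by ring] at e2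
  have e3 := fib_cast_add (2*j)
  have p2 : (0:ℤ) < Nat.fib (2*j+2) := by exact_mod_cast Nat.fib_pos.2 (by omega)
  have p0 : (0:ℤ) ≤ Nat.fib (2*j) := Int.natCast_nonneg _
  have hn : (0:ℤ) < n := by
    by_contra h0
    have : (n:ℤ) = 0 := le_antisymm (not_lt.1 h0) (Int.natCast_nonneg _)
    rw [this, mul_zero] at h'
    have : (0:ℤ) ≤ Nat.fib (2*j+2) * m := by positivity
    linarith
  -- F0 F2 m ≤ F0 F3 n, F2 F1 n ≤ F2 F0 m ; F0 F3 = F1 F2 - 1
  have h1 : (Nat.fib (2*j) : ℤ) * (Nat.fib (2*j+2) * m) ≤ Nat.fib (2*j) * (Nat.fib (2*j+3) * n) :=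
    mul_le_mul_of_nonneg_left h'.le p0
  have h2 : (Nat.fib (2*j+2) : ℤ) * (Nat.fib (2*j+1) * n) ≤ Nat.fib (2*j+2) * (Nat.fib (2*j) * m) :=
    mul_le_mul_of_nonneg_left hc' p2.le
  have h3 : (Nat.fib (2*j) : ℤ) * Nat.fib (2*j+3) = Nat.fib (2*j+1) * Nat.fib (2*j+2) - 1 := by
    rw [e2]
    rw [e3] at e1 ⊢
    linear_combination e1
  have h4 : (Nat.fib (2*j) : ℤ) * (Nat.fib (2*j+3) * n)
      = (Nat.fib (2*j+1) * Nat.fib (2*j+2) - 1) * n := by rw [← h3]; ring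
  nlinarith

/-- the `DN` conditions follow from the last one -/
theorem DN_of_last {n m : ℕ} (j : ℕ) (h : Nat.fib (2*j+2) * n < Nat.fib (2*j+1) * m) :
    DN n m (2*j+3) := by
  induction j with
  | zero =>
    intro i hi
    have : i = 0 := by omega
    subst this
    exact h
  | succ j ih =>
    have h2 := dn_step j h
    intro i hi
    rcases Nat.lt_or_ge i (j+1) with h3 | h3
    · exact ih h2 i (by omega)
    · have : i = j + 1 := by omega
      subst this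
      exact h

/-- the `UN` conditions follow from the last one -/
theorem UN_of_last {n m : ℕ} (j : ℕ) (h : Nat.fib (2*j) * m < Nat.fib (2*j+1) * n) :
    UN n m (2*j+2) := by
  induction j with
  | zero =>
    intro i hi
    have : i = 0 := by omega
    subst this
    exact h
  | succ j ih =>
    have h2 := un_step j h
    intro i hi
    rcases Nat.lt_or_ge i (j+1) with h3 | h3
    · exact ih h2 i (by omega)
    · have : i = j + 1 := by omega
      subst this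
      exact h

/-- criterion for down-integers -/
def CD (n : ℕ) (j : ℕ) : Prop :=
  Nat.fib (2*j+3) * n ≤ Nat.fib (2*j+2) * (fl n + 1) ∧ Nat.fib (2*j+2) * n < Nat.fib (2*j+1) * fl n

/-- criterion for up-integers -/
def CU (n : ℕ) (j : ℕ) : Prop :=
  Nat.fib (2*j+1) * fl n ≤ Nat.fib (2*j+2) * n ∧ Nat.fib (2*j) * (fl n + 1) < Nat.fib (2*j+1) * n

theorem w_ge (a₁ a₂ : ℕ) (h1 : 1 ≤ a₁) (h2 : 1 ≤ a₂) (k : ℕ) : k ≤ w a₁ a₂ k + 1 := by
  induction k using Nat.strong_induction_on with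
  | _ k ih =>
    match k with
    | 0 => omega
    | 1 => omega
    | 2 => show 2 ≤ a₂ + 1; omega
    | (j+3) =>
      have e1 := ih (j+2) (by omega)
      have e2 := w_pos a₁ a₂ h1 h2 (j+1) (by omega)
      show j + 3 ≤ w a₁ a₂ (j+2) + w a₁ a₂ (j+1) + 1
      omega

/-- the set whose supremum is `s n` -/
def idx (n : ℕ) : Set ℕ := {s | 1 ≤ s ∧ ∃ a₁ a₂ : ℕ, 1 ≤ a₁ ∧ 1 ≤ a₂ ∧ w a₁ a₂ s = n}

theorem idx_bdd (n : ℕ) : BddAbove (idx n) := by
  refine ⟨n+1, ?_⟩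
  rintro t ⟨_, a, b, ha, hb, h⟩
  have := w_ge a b ha hb t
  omega

theorem idx_iff (n t : ℕ) (hn : 1 ≤ n) :
    t ∈ idx n ↔ 1 ≤ t ∧ (DN n (fl n) t ∨ UN n (fl n + 1) t) := by
  constructor
  · rintro ⟨h1, h2⟩
    exact ⟨h1, (index_iff n t hn h1).1 h2⟩
  · rintro ⟨h1, h2⟩
    exact ⟨h1, (index_iff n t hn h1).2 h2⟩

theorem idx_nonempty (n : ℕ) (hn : 1 ≤ n) : (idx n).Nonempty :=
  ⟨1, (idx_iff n 1 hn).2 ⟨le_rfl, Or.inl (DN_one n _)⟩⟩

theorem s_mem (n : ℕ) (hn : 1 ≤ n) : s n ∈ idx n :=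
  Nat.sSup_mem (idx_nonempty n hn) (idx_bdd n)

theorem le_s (n t : ℕ) (ht : t ∈ idx n) : t ≤ s n := le_csSup (idx_bdd n) ht

theorem down_of_CD (n j : ℕ) (hn : 2 ≤ n) (h : CD n j) : n ∈ Down ∧ n ∉ Up := by
  obtain ⟨h1, h2⟩ := h
  have hd := DN_of_last j h2
  have hs := le_s n (2*j+3) ((idx_iff n _ (by omega)).2 ⟨by omega, Or.inl hd⟩)
  have hnu : ¬ UN n (fl n + 1) (s n) := by
    intro hu
    have := hu (j+1) (by omega)
    rw [show 2*(j+1) = 2*j+2 by ring, show 2*j+2+1 = 2*j+3 by ring] at this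
    omega
  obtain ⟨hs1, hs2⟩ := (idx_iff n _ (by omega)).1 (s_mem n (by omega))
  have hds := hs2.resolve_right hnu
  constructor
  · refine ⟨hn, ?_⟩
    obtain ⟨a, b, ha, hb, hw, hw'⟩ := walk_of_conds n (fl n) (s n) hs1 (fl_pos n (by omega)) hds
        (UN_of_le n _ _ (fl_le n) (by omega))
    exact ⟨a, b, ⟨ha, hb, hw⟩, by rw [hw', fl_cast]⟩
  · rintro ⟨_, a, b, ⟨ha, hb, hw⟩, hw'⟩
    rw [ceil_eq n (by omega)] at hw'
    have hw'' : w a b (s n + 1) = fl n + 1 := by exact_mod_cast hw'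
    have := (conds_of_walk a b (s n) ha hb).2
    rw [hw, hw''] at this
    exact hnu this

theorem up_of_CU (n j : ℕ) (hn : 2 ≤ n) (h : CU n j) : n ∈ Up ∧ n ∉ Down := by
  obtain ⟨h1, h2⟩ := h
  have hu := UN_of_last j h2
  have hs := le_s n (2*j+2) ((idx_iff n _ (by omega)).2 ⟨by omega, Or.inr hu⟩)
  have hnd : ¬ DN n (fl n) (s n) := by
    intro hd
    have := hd j (by omega)
    omega
  obtain ⟨hs1, hs2⟩ := (idx_iff n _ (by omega)).1 (s_mem n (by omega))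
  have hus := hs2.resolve_left hnd
  constructor
  · refine ⟨hn, ?_⟩
    obtain ⟨a, b, ha, hb, hw, hw'⟩ := walk_of_conds n (fl n + 1) (s n) hs1 (by omega)
        (DN_of_ge n _ _ (by push_cast; exact (lt_fl n).le) (by omega)) hus
    exact ⟨a, b, ⟨ha, hb, hw⟩, by rw [hw', ceil_eq n (by omega)]; push_cast; ring⟩
  · rintro ⟨_, a, b, ⟨ha, hb, hw⟩, hw'⟩
    rw [← fl_cast] at hw'
    have hw'' : w a b (s n + 1) = fl n := by exact_mod_cast hw'
    have := (conds_of_walk a b (s n) ha hb).1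
    rw [hw, hw''] at this
    exact hnd this

theorem not_DN_succ (n : ℕ) (hn : 1 ≤ n) :
    ¬ DN n (fl n) (s n + 1) ∧ ¬ UN n (fl n + 1) (s n + 1) := by
  constructor
  · intro h
    have := le_s n (s n + 1) ((idx_iff n _ hn).2 ⟨by omega, Or.inl h⟩)
    omega
  · intro h
    have := le_s n (s n + 1) ((idx_iff n _ hn).2 ⟨by omega, Or.inr h⟩)
    omega

theorem CD_of_down (n : ℕ) (h : n ∈ Down) : ∃ j, CD n j := by
  obtain ⟨hn, a, b, ⟨ha, hb, hw⟩, hw'⟩ := h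
  rw [← fl_cast] at hw'
  have hw'' : w a b (s n + 1) = fl n := by exact_mod_cast hw'
  have hd := (conds_of_walk a b (s n) ha hb).1
  rw [hw, hw''] at hd
  obtain ⟨h1, h2⟩ := not_DN_succ n (by omega)
  unfold DN at h1
  unfold UN at h2
  push Not at h1 h2
  obtain ⟨j, hj1, hj2⟩ := h1
  have hj3 : 2 * j + 2 = s n + 1 := by
    by_contra hne
    have := hd j (by omega)
    omega
  obtain ⟨i, hi1, hi2⟩ := h2
  have hi0 : i ≠ 0 := by
    rintro rfl
    simp at hi2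
    omega
  obtain ⟨k, rfl⟩ : ∃ k, i = k + 1 := ⟨i-1, by omega⟩
  refine ⟨k, ?_, hd k (by omega)⟩
  rw [show 2*(k+1) = 2*k+2 by ring, show 2*k+2+1 = 2*k+3 by ring] at hi2
  exact hi2

theorem CU_of_up (n : ℕ) (h : n ∈ Up) : ∃ j, CU n j := by
  obtain ⟨hn, a, b, ⟨ha, hb, hw⟩, hw'⟩ := h
  rw [ceil_eq n (by omega)] at hw'
  have hw'' : w a b (s n + 1) = fl n + 1 := by exact_mod_cast hw'
  have hu := (conds_of_walk a b (s n) ha hb).2
  rw [hw, hw''] at hu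
  obtain ⟨h1, h2⟩ := not_DN_succ n (by omega)
  unfold DN at h1
  unfold UN at h2
  push Not at h1 h2
  obtain ⟨j, hj1, hj2⟩ := h2
  have hj3 : 2 * j + 1 = s n + 1 := by
    by_contra hne
    have := hu j (by omega)
    omega
  obtain ⟨i, hi1, hi2⟩ := h1
  exact ⟨i, hi2, hu i (by omega)⟩

/-- real form of the criteria; `θ = φ n - ⌊φ n⌋` -/
noncomputable def th (n : ℕ) : ℝ := goldenRatio * n - fl n

theorem th_nonneg (n : ℕ) : 0 ≤ th n := by have := fl_le n; unfold th; linarith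
theorem th_lt (n : ℕ) : th n < 1 := by have := lt_fl n; unfold th; linarith

theorem CD_iff (n j : ℕ) : CD n j ↔
    n * rho^(2*j+2) ≤ Nat.fib (2*j+2) * (1 - th n) ∧ Nat.fib (2*j+1) * th n < n * rho^(2*j+1) := by
  have e1 := fib_phi_even (j+1)
  rw [show 2*(j+1) = 2*j+2 by ring, show 2*j+2+1 = 2*j+3 by ring] at e1
  have e2 := fib_phi_odd j
  unfold CD th
  rw [← Nat.cast_le (α := ℝ), ← Nat.cast_lt (α := ℝ)]
  push_cast
  have e1' : (Nat.fib (2*j+3) : ℝ) = goldenRatio * Nat.fib (2*j+2) + rho^(2*j+2) := by linarith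
  have e2' : (Nat.fib (2*j+2) : ℝ) * n = (goldenRatio * Nat.fib (2*j+1) - rho^(2*j+1)) * n := by
    rw [show (Nat.fib (2*j+2) : ℝ) = goldenRatio * Nat.fib (2*j+1) - rho^(2*j+1) by linarith]
  rw [e1']
  constructor
  · rintro ⟨h1, h2⟩
    constructor
    · linarith
    · linarith
  · rintro ⟨h1, h2⟩
    constructor
    · linarith
    · linarith

theorem CU_iff (n j : ℕ) : CU n j ↔
    n * rho^(2*j+1) ≤ Nat.fib (2*j+1) * th n ∧ Nat.fib (2*j) * (1 - th n) < n * rho^(2*j) := by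
  have e1 := fib_phi_even j
  have e2 := fib_phi_odd j
  unfold CU th
  rw [← Nat.cast_le (α := ℝ), ← Nat.cast_lt (α := ℝ)]
  push_cast
  have e1' : (Nat.fib (2*j+1) : ℝ) * n = (goldenRatio * Nat.fib (2*j) + rho^(2*j)) * n := by
    rw [show (Nat.fib (2*j+1) : ℝ) = goldenRatio * Nat.fib (2*j) + rho^(2*j) by linarith]
  have e2' : (Nat.fib (2*j+2) : ℝ) * n = (goldenRatio * Nat.fib (2*j+1) - rho^(2*j+1)) * n := by
    rw [show (Nat.fib (2*j+2) : ℝ) = goldenRatio * Nat.fib (2*j+1) - rho^(2*j+1) by linarith]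
  constructor
  · rintro ⟨h1, h2⟩
    constructor
    · linarith
    · linarith
  · rintro ⟨h1, h2⟩
    constructor
    · linarith
    · linarith

theorem rho_lt : rho < 0.6180340 := by
  unfold rho
  rw [inv_goldenRatio, goldenConj]
  have : √5 < 2.236068 := by
    rw [Real.sqrt_lt' (by norm_num)]; norm_num
  linarith

theorem lt_rho : 0.6180339 < rho := by
  unfold rho
  rw [inv_goldenRatio, goldenConj]
  have : 2.2360679 < √5 := by
    rw [Real.lt_sqrt (by norm_num)]; norm_num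
  linarith

theorem phi_eq : goldenRatio = 1 + rho := by
  have := goldenRatio_add_goldenConj
  rw [conj_eq] at this
  linarith

/-- `f_{2j+1}/f_{2j} ≤ 13/8` for `j ≥ 3` -/
theorem ratio_even (j : ℕ) (hj : 3 ≤ j) : 8 * Nat.fib (2*j+1) ≤ 13 * Nat.fib (2*j) := by
  induction j, hj using Nat.le_induction with
  | base => decide
  | succ j hj ih =>
    have e1 : Nat.fib (2*(j+1)) = Nat.fib (2*j) + Nat.fib (2*j+1) := by
      rw [show 2*(j+1) = 2*j+2 by ring, Nat.fib_add_two]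
    have e2 : Nat.fib (2*(j+1)+1) = Nat.fib (2*j+1) + Nat.fib (2*(j+1)) := by
      rw [show 2*(j+1)+1 = (2*j+1)+2 by ring, Nat.fib_add_two]
      rfl
    omega

/-- `f_{2j+2}/f_{2j+1} ≤ 13/8` -/
theorem ratio_odd (j : ℕ) : 8 * Nat.fib (2*j+2) ≤ 13 * Nat.fib (2*j+1) := by
  induction j with
  | zero => decide
  | succ j ih =>
    have e1 : Nat.fib (2*(j+1)+1) = Nat.fib (2*j+1) + Nat.fib (2*j+2) := by
      rw [show 2*(j+1)+1 = (2*j+1)+2 by ring, Nat.fib_add_two]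
    have e2 : Nat.fib (2*(j+1)+2) = Nat.fib (2*j+2) + Nat.fib (2*(j+1)+1) := by
      rw [show 2*(j+1)+2 = (2*j+2)+2 by ring, Nat.fib_add_two]
      rfl
    omega

theorem fib_ge_one (j : ℕ) : (1:ℝ) ≤ Nat.fib (j+1) := by
  exact_mod_cast Nat.fib_pos.2 (by omega)

/-- `n ρ^(2j)` eventually small -/
theorem exists_small (n : ℕ) : ∃ j, (n:ℝ) * rho^(2*j+2) ≤ 0.728 * Nat.fib (2*j+2) ∧
    (n:ℝ) * rho^(2*j+1) ≤ 0.728 * Nat.fib (2*j+1) := by
  have h1 : rho < 1 := by have := rho_lt; linarith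
  have h2 : Filter.Tendsto (fun k : ℕ => (n:ℝ) * rho^k) Filter.atTop (nhds 0) := by
    have := (tendsto_pow_atTop_nhds_zero_of_lt_one rho_pos.le h1).const_mul (n:ℝ)
    simpa using this
  have h3 := h2.eventually (gt_mem_nhds (show (0:ℝ) < 0.728 by norm_num))
  obtain ⟨K, hK⟩ := Filter.eventually_atTop.1 h3
  refine ⟨K, ?_, ?_⟩
  · have a := hK (2*K+2) (by omega)
    have b := fib_ge_one (2*K+1)
    nlinarith
  · have a := hK (2*K+1) (by omega)
    have b := fib_ge_one (2*K)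
    nlinarith

theorem CD_of_small (n : ℕ) (hn : 250 ≤ n) (h : th n ≤ 0.272) : ∃ j, CD n j := by
  classical
  have hex : ∃ j, (n:ℝ) * rho^(2*j+2) ≤ 0.728 * Nat.fib (2*j+2) :=
    (exists_small n).imp fun j hj => hj.1
  obtain ⟨j, hj, hmin⟩ : ∃ j, (n:ℝ) * rho^(2*j+2) ≤ 0.728 * Nat.fib (2*j+2) ∧
      ∀ i < j, 0.728 * Nat.fib (2*i+2) < (n:ℝ) * rho^(2*i+2) :=
    ⟨Nat.find hex, Nat.find_spec hex, fun i hi => not_le.1 (Nat.find_min hex hi)⟩
  have hn' : (250:ℝ) ≤ n := by exact_mod_cast hn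
  have hr1 := lt_rho
  have hr2 := rho_lt
  have hr0 := rho_pos
  -- j ≥ 3
  have hj3 : 3 ≤ j := by
    by_contra hlt
    have : j = 0 ∨ j = 1 ∨ j = 2 := by omega
    have p2 : (0.38:ℝ) < rho^2 := by nlinarith
    have p4 : (0.144:ℝ) < rho^4 := by nlinarith
    have p6 : (0.054:ℝ) < rho^6 := by nlinarith
    rcases this with rfl | rfl | rfl
    · norm_num [Nat.fib] at hj
      nlinarith
    · have : Nat.fib 4 = 3 := by decide
      norm_num [this] at hj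
      nlinarith
    · have : Nat.fib 6 = 8 := by decide
      norm_num [this] at hj
      nlinarith
  have hth := th_nonneg n
  have hf : (0:ℝ) < Nat.fib (2*j+2) := by
    have := fib_ge_one (2*j+1); linarith
  refine ⟨j, (CD_iff n j).2 ⟨?_, ?_⟩⟩
  · nlinarith
  · obtain ⟨k, rfl⟩ : ∃ k, j = k + 1 := ⟨j-1, by omega⟩
    have h1 := hmin k (by omega)
    have h2 := ratio_even (k+1) hj3
    have h2' : (8:ℝ) * Nat.fib (2*(k+1)+1) ≤ 13 * Nat.fib (2*(k+1)) := by exact_mod_cast h2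
    have h3 : (n:ℝ) * rho^(2*(k+1)+1) = rho * (n * rho^(2*k+2)) := by
      rw [show 2*(k+1)+1 = (2*k+2)+1 by ring, pow_succ]; ring
    rw [h3]
    have h4 : rho * (0.728 * Nat.fib (2*k+2)) < rho * (n * rho^(2*k+2)) :=
      mul_lt_mul_of_pos_left h1 hr0
    have h5 : (0:ℝ) < Nat.fib (2*k+2) := by
      have := fib_ge_one (2*k+1); linarith
    have h6 : (Nat.fib (2*(k+1)) : ℝ) = Nat.fib (2*k+2) := by congr 1
    rw [h6] at h2'
    have h7 : (0:ℝ) ≤ Nat.fib (2*(k+1)+1) := Nat.cast_nonneg _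
    nlinarith

theorem CU_of_small (n : ℕ) (hn : 250 ≤ n) (h : 1 - th n ≤ 0.272) : ∃ j, CU n j := by
  classical
  have hex : ∃ j, (n:ℝ) * rho^(2*j+1) ≤ 0.728 * Nat.fib (2*j+1) :=
    (exists_small n).imp fun j hj => hj.2
  obtain ⟨j, hj, hmin⟩ : ∃ j, (n:ℝ) * rho^(2*j+1) ≤ 0.728 * Nat.fib (2*j+1) ∧
      ∀ i < j, 0.728 * Nat.fib (2*i+1) < (n:ℝ) * rho^(2*i+1) :=
    ⟨Nat.find hex, Nat.find_spec hex, fun i hi => not_le.1 (Nat.find_min hex hi)⟩
  have hn' : (250:ℝ) ≤ n := by exact_mod_cast hn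
  have hr1 := lt_rho
  have hr2 := rho_lt
  have hr0 := rho_pos
  have hj1 : 1 ≤ j := by
    by_contra hlt
    have : j = 0 := by omega
    subst this
    norm_num at hj
    nlinarith
  have hth := th_lt n
  have hf : (0:ℝ) < Nat.fib (2*j+1) := by
    have := fib_ge_one (2*j); linarith
  refine ⟨j, (CU_iff n j).2 ⟨?_, ?_⟩⟩
  · nlinarith
  · obtain ⟨k, rfl⟩ : ∃ k, j = k + 1 := ⟨j-1, by omega⟩
    have h1 := hmin k (by omega)
    have h2 := ratio_odd k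
    have h2' : (8:ℝ) * Nat.fib (2*k+2) ≤ 13 * Nat.fib (2*k+1) := by exact_mod_cast h2
    have h3 : (n:ℝ) * rho^(2*(k+1)) = rho * (n * rho^(2*k+1)) := by
      rw [show 2*(k+1) = (2*k+1)+1 by ring, pow_succ]; ring
    rw [h3]
    have h4 : rho * (0.728 * Nat.fib (2*k+1)) < rho * (n * rho^(2*k+1)) :=
      mul_lt_mul_of_pos_left h1 hr0
    have h5 : (0:ℝ) < Nat.fib (2*k+1) := by
      have := fib_ge_one (2*k); linarith
    have h6 : (Nat.fib (2*(k+1)) : ℝ) = Nat.fib (2*k+2) := by congr 1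
    rw [h6]
    have h7 : (0:ℝ) ≤ Nat.fib (2*k+2) := Nat.cast_nonneg _
    nlinarith

/-- transfer between nearby integers -/
theorem CD_transfer (n n' j : ℕ) (hn : 250 ≤ n) (h1 : n ≤ n' + 13) (h2 : n' ≤ n + 13)
    (h : CD n j) (ht : th n' ≤ th n - 0.055) : CD n' j := by
  rw [CD_iff] at h ⊢
  obtain ⟨ha, hb⟩ := h
  have hn' : (250:ℝ) ≤ n := by exact_mod_cast hn
  have h1' : (n:ℝ) ≤ n' + 13 := by exact_mod_cast h1
  have h2' : (n':ℝ) ≤ n + 13 := by exact_mod_cast h2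
  have f2 := fib_ge_one (2*j+1)
  have f1 := fib_ge_one (2*j)
  rw [show 2*j+1+1 = 2*j+2 by ring] at f2
  have r2 : (0:ℝ) < rho^(2*j+2) := pow_pos rho_pos _
  have r1 : (0:ℝ) < rho^(2*j+1) := pow_pos rho_pos _
  have t0 := th_nonneg n
  have t1 := th_lt n
  constructor
  · -- n' r ≤ n r + 13 r ≤ (1 + 0.052) n r
    have a1 : 13 * rho^(2*j+2) ≤ 0.052 * (n * rho^(2*j+2)) := by nlinarith
    have a2 : (n':ℝ) * rho^(2*j+2) ≤ n * rho^(2*j+2) + 13 * rho^(2*j+2) := by nlinarith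
    have a3 : (n:ℝ) * rho^(2*j+2) ≤ Nat.fib (2*j+2) := by nlinarith
    have a4 : (Nat.fib (2*j+2) : ℝ) * (1 - th n + 0.055) ≤ Nat.fib (2*j+2) * (1 - th n') :=
      mul_le_mul_of_nonneg_left (by linarith) (by linarith)
    nlinarith
  · have a1 : 13 * rho^(2*j+1) ≤ 0.052 * (n * rho^(2*j+1)) := by nlinarith
    have a2 : (n:ℝ) * rho^(2*j+1) - 13 * rho^(2*j+1) ≤ n' * rho^(2*j+1) := by nlinarith
    have a4 : (Nat.fib (2*j+1) : ℝ) * th n' ≤ Nat.fib (2*j+1) * (th n - 0.055) :=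
      mul_le_mul_of_nonneg_left ht (by linarith)
    have a5 : (0.948:ℝ) * (Nat.fib (2*j+1) * th n) < 0.948 * (n * rho^(2*j+1)) := by nlinarith
    have a6 : (Nat.fib (2*j+1) : ℝ) * th n ≤ Nat.fib (2*j+1) * 1 :=
      mul_le_mul_of_nonneg_left t1.le (by linarith)
    nlinarith

theorem CU_transfer (n n' j : ℕ) (hn : 250 ≤ n) (h1 : n ≤ n' + 13) (h2 : n' ≤ n + 13)
    (h : CU n j) (ht : th n + 0.055 ≤ th n') : CU n' j := by
  rw [CU_iff] at h ⊢
  obtain ⟨ha, hb⟩ := h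
  have hn' : (250:ℝ) ≤ n := by exact_mod_cast hn
  have h1' : (n:ℝ) ≤ n' + 13 := by exact_mod_cast h1
  have h2' : (n':ℝ) ≤ n + 13 := by exact_mod_cast h2
  have f1 := fib_ge_one (2*j)
  have f0 : (0:ℝ) ≤ Nat.fib (2*j) := Nat.cast_nonneg _
  have r2 : (0:ℝ) < rho^(2*j) := pow_pos rho_pos _
  have r1 : (0:ℝ) < rho^(2*j+1) := pow_pos rho_pos _
  have t0 := th_nonneg n
  have t1 := th_lt n
  constructor
  · have a1 : 13 * rho^(2*j+1) ≤ 0.052 * (n * rho^(2*j+1)) := by nlinarith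
    have a2 : (n':ℝ) * rho^(2*j+1) ≤ n * rho^(2*j+1) + 13 * rho^(2*j+1) := by nlinarith
    have a3 : (n:ℝ) * rho^(2*j+1) ≤ Nat.fib (2*j+1) := by nlinarith
    have a4 : (Nat.fib (2*j+1) : ℝ) * (th n + 0.055) ≤ Nat.fib (2*j+1) * th n' :=
      mul_le_mul_of_nonneg_left ht (by linarith)
    nlinarith
  · have a1 : 13 * rho^(2*j) ≤ 0.052 * (n * rho^(2*j)) := by nlinarith
    have a2 : (n:ℝ) * rho^(2*j) - 13 * rho^(2*j) ≤ n' * rho^(2*j) := by nlinarith
    have a4 : (Nat.fib (2*j) : ℝ) * (1 - th n') ≤ Nat.fib (2*j) * (1 - th n - 0.055) :=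
      mul_le_mul_of_nonneg_left (by linarith) f0
    have a5 : (0.948:ℝ) * (Nat.fib (2*j) * (1 - th n)) < 0.948 * (n * rho^(2*j)) := by nlinarith
    have a6 : (Nat.fib (2*j) : ℝ) * (1 - th n) ≤ Nat.fib (2*j) * 1 :=
      mul_le_mul_of_nonneg_left (by linarith) f0
    nlinarith

/-- identification of the fractional part -/
theorem th_eq (n m : ℕ) (h0 : 0 ≤ goldenRatio * n - m) (h1 : goldenRatio * n - m < 1) :
    th n = goldenRatio * n - m := by
  have e : fl n = m := by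
    have : ⌊goldenRatio * n⌋ = (m:ℤ) := by
      rw [Int.floor_eq_iff]; push_cast; constructor <;> linarith
    rw [← fl_cast] at this
    exact_mod_cast this
  unfold th; rw [e]

/-- fractional part of a shifted integer -/
theorem th_shift (d h K : ℕ) (h0 : 0 ≤ th d + (1 + rho) * h - K)
    (h1 : th d + (1 + rho) * h - K < 1) : th (d + h) = th d + (1 + rho) * h - K := by
  have e : goldenRatio * ((d + h : ℕ) : ℝ) - ((fl d + K : ℕ) : ℝ) = th d + (1 + rho) * h - K := by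
    unfold th; push_cast; rw [phi_eq]; ring
  rw [← e]
  apply th_eq
  · rw [e]; exact h0
  · rw [e]; exact h1

end Q249.SlowFib
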