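import Mathlib
import Pool.Agent.Q249.SlowFib

/-!
# Slow Fibonacci walks: windows of length 13

Helper file for MP_e2feb3_nt.
-/

namespace Q249.SlowFib

open Real

theorem down_at (d h K : ℕ) (hd : 250 ≤ d) (h0 : 0 ≤ th d + (1 + rho) * h - K)
    (h1 : th d + (1 + rho) * h - K ≤ 0.272) : d + h ∈ Down := by
  have e := th_shift d h K h0 (by linarith)
  obtain ⟨j, hj⟩ := CD_of_small (d+h) (by omega) (by rw [e]; exact h1)
  exact (down_of_CD (d+h) j (by omega) hj).1

theorem up_at (d h K : ℕ) (hd : 250 ≤ d) (h0 : 0.728 ≤ th d + (1 + rho) * h - K)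
    (h1 : th d + (1 + rho) * h - K < 1) : d + h ∈ Up := by
  have e := th_shift d h K (by linarith) h1
  obtain ⟨j, hj⟩ := CU_of_small (d+h) (by omega) (by rw [e]; linarith)
  exact (up_of_CU (d+h) j (by omega) hj).1

theorem down_transfer (n n' : ℕ) (hn : 250 ≤ n) (h1 : n ≤ n' + 13) (h2 : n' ≤ n + 13)
    (h : n ∈ Down) (ht : th n' ≤ th n - 0.055) : n' ∈ Down := by
  obtain ⟨j, hj⟩ := CD_of_down n h
  exact (down_of_CD n' j (by omega) (CD_transfer n n' j hn h1 h2 hj ht)).1

theorem up_transfer (n n' : ℕ) (hn : 250 ≤ n) (h1 : n ≤ n' + 13) (h2 : n' ≤ n + 13)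
    (h : n ∈ Up) (ht : th n + 0.055 ≤ th n') : n' ∈ Up := by
  obtain ⟨j, hj⟩ := CU_of_up n h
  exact (up_of_CU n' j (by omega) (CU_transfer n n' j hn h1 h2 hj ht)).1

theorem down_window (d : ℕ) (hd : 250 ≤ d) : ∃ h₁ h₂ h₃ : ℕ, 1 ≤ h₁ ∧ h₁ < h₂ ∧ h₂ < h₃ ∧ h₃ ≤ 13 ∧
    d + h₁ ∈ Down ∧ d + h₂ ∈ Down ∧ d + h₃ ∈ Down := by
  have r1 := lt_rho
  have r2 := rho_lt
  have t0 := th_nonneg d
  have t1 := th_lt d
  rcases le_or_gt (0.9656) (th d) with h0 | h0
  · refine ⟨5, 10, 13, by norm_num, by norm_num, by norm_num, by norm_num,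
      down_at d 5 9 hd ?_ ?_, down_at d 10 17 hd ?_ ?_, down_at d 13 22 hd ?_ ?_⟩ <;>
      push_cast <;> linarith
  rcases le_or_gt (0.9099) (th d) with h1 | h1
  · refine ⟨2, 5, 10, by norm_num, by norm_num, by norm_num, by norm_num,
      down_at d 2 4 hd ?_ ?_, down_at d 5 9 hd ?_ ?_, down_at d 10 17 hd ?_ ?_⟩ <;>
      push_cast <;> linarith
  rcases le_or_gt (0.8197) (th d) with h2 | h2
  · refine ⟨2, 7, 10, by norm_num, by norm_num, by norm_num, by norm_num,
      down_at d 2 4 hd ?_ ?_, down_at d 7 12 hd ?_ ?_, down_at d 10 17 hd ?_ ?_⟩ <;>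
      push_cast <;> linarith
  rcases le_or_gt (0.764) (th d) with h3 | h3
  · refine ⟨2, 7, 12, by norm_num, by norm_num, by norm_num, by norm_num,
      down_at d 2 4 hd ?_ ?_, down_at d 7 12 hd ?_ ?_, down_at d 12 20 hd ?_ ?_⟩ <;>
      push_cast <;> linarith
  rcases le_or_gt (0.6738) (th d) with h4 | h4
  · refine ⟨4, 7, 12, by norm_num, by norm_num, by norm_num, by norm_num,
      down_at d 4 7 hd ?_ ?_, down_at d 7 12 hd ?_ ?_, down_at d 12 20 hd ?_ ?_⟩ <;>
      push_cast <;> linarith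
  rcases le_or_gt (0.5836) (th d) with h5 | h5
  · refine ⟨4, 9, 12, by norm_num, by norm_num, by norm_num, by norm_num,
      down_at d 4 7 hd ?_ ?_, down_at d 9 15 hd ?_ ?_, down_at d 12 20 hd ?_ ?_⟩ <;>
      push_cast <;> linarith
  rcases le_or_gt (0.5279) (th d) with h6 | h6
  · refine ⟨1, 4, 9, by norm_num, by norm_num, by norm_num, by norm_num,
      down_at d 1 2 hd ?_ ?_, down_at d 4 7 hd ?_ ?_, down_at d 9 15 hd ?_ ?_⟩ <;>
      push_cast <;> linarith
  rcases le_or_gt (0.4377) (th d) with h7 | h7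
  · refine ⟨1, 6, 9, by norm_num, by norm_num, by norm_num, by norm_num,
      down_at d 1 2 hd ?_ ?_, down_at d 6 10 hd ?_ ?_, down_at d 9 15 hd ?_ ?_⟩ <;>
      push_cast <;> linarith
  rcases le_or_gt (0.382) (th d) with h8 | h8
  · refine ⟨1, 6, 11, by norm_num, by norm_num, by norm_num, by norm_num,
      down_at d 1 2 hd ?_ ?_, down_at d 6 10 hd ?_ ?_, down_at d 11 18 hd ?_ ?_⟩ <;>
      push_cast <;> linarith
  rcases le_or_gt (0.2918) (th d) with h9 | h9
  · refine ⟨3, 6, 11, by norm_num, by norm_num, by norm_num, by norm_num,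
      down_at d 3 5 hd ?_ ?_, down_at d 6 10 hd ?_ ?_, down_at d 11 18 hd ?_ ?_⟩ <;>
      push_cast <;> linarith
  rcases le_or_gt (0.2017) (th d) with h10 | h10
  · refine ⟨3, 8, 11, by norm_num, by norm_num, by norm_num, by norm_num,
      down_at d 3 5 hd ?_ ?_, down_at d 8 13 hd ?_ ?_, down_at d 11 18 hd ?_ ?_⟩ <;>
      push_cast <;> linarith
  rcases le_or_gt (0.1459) (th d) with h11 | h11
  · refine ⟨3, 8, 13, by norm_num, by norm_num, by norm_num, by norm_num,
      down_at d 3 5 hd ?_ ?_, down_at d 8 13 hd ?_ ?_, down_at d 13 21 hd ?_ ?_⟩ <;>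
      push_cast <;> linarith
  rcases le_or_gt (0.0558) (th d) with h12 | h12
  · refine ⟨5, 8, 13, by norm_num, by norm_num, by norm_num, by norm_num,
      down_at d 5 8 hd ?_ ?_, down_at d 8 13 hd ?_ ?_, down_at d 13 21 hd ?_ ?_⟩ <;>
      push_cast <;> linarith
  refine ⟨5, 10, 13, by norm_num, by norm_num, by norm_num, by norm_num,
      down_at d 5 8 hd ?_ ?_, down_at d 10 16 hd ?_ ?_, down_at d 13 21 hd ?_ ?_⟩ <;>
      push_cast <;> linarith

theorem up_window (d : ℕ) (hd : 250 ≤ d) : ∃ h₁ h₂ h₃ : ℕ, 1 ≤ h₁ ∧ h₁ < h₂ ∧ h₂ < h₃ ∧ h₃ ≤ 13 ∧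
    d + h₁ ∈ Up ∧ d + h₂ ∈ Up ∧ d + h₃ ∈ Up := by
  have r1 := lt_rho
  have r2 := rho_lt
  have t0 := th_nonneg d
  have t1 := th_lt d
  rcases le_or_gt (0.9655) (th d) with h0 | h0
  · refine ⟨3, 8, 11, by norm_num, by norm_num, by norm_num, by norm_num,
      up_at d 3 5 hd ?_ ?_, up_at d 8 13 hd ?_ ?_, up_at d 11 18 hd ?_ ?_⟩ <;>
      push_cast <;> linarith
  rcases le_or_gt (0.9098) (th d) with h1 | h1
  · refine ⟨3, 8, 13, by norm_num, by norm_num, by norm_num, by norm_num,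
      up_at d 3 5 hd ?_ ?_, up_at d 8 13 hd ?_ ?_, up_at d 13 21 hd ?_ ?_⟩ <;>
      push_cast <;> linarith
  rcases le_or_gt (0.8196) (th d) with h2 | h2
  · refine ⟨5, 8, 13, by norm_num, by norm_num, by norm_num, by norm_num,
      up_at d 5 8 hd ?_ ?_, up_at d 8 13 hd ?_ ?_, up_at d 13 21 hd ?_ ?_⟩ <;>
      push_cast <;> linarith
  rcases le_or_gt (0.7639) (th d) with h3 | h3
  · refine ⟨5, 10, 13, by norm_num, by norm_num, by norm_num, by norm_num,
      up_at d 5 8 hd ?_ ?_, up_at d 10 16 hd ?_ ?_, up_at d 13 21 hd ?_ ?_⟩ <;>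
      push_cast <;> linarith
  rcases le_or_gt (0.6737) (th d) with h4 | h4
  · refine ⟨2, 5, 10, by norm_num, by norm_num, by norm_num, by norm_num,
      up_at d 2 3 hd ?_ ?_, up_at d 5 8 hd ?_ ?_, up_at d 10 16 hd ?_ ?_⟩ <;>
      push_cast <;> linarith
  rcases le_or_gt (0.5835) (th d) with h5 | h5
  · refine ⟨2, 7, 10, by norm_num, by norm_num, by norm_num, by norm_num,
      up_at d 2 3 hd ?_ ?_, up_at d 7 11 hd ?_ ?_, up_at d 10 16 hd ?_ ?_⟩ <;>
      push_cast <;> linarith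
  rcases le_or_gt (0.5278) (th d) with h6 | h6
  · refine ⟨2, 7, 12, by norm_num, by norm_num, by norm_num, by norm_num,
      up_at d 2 3 hd ?_ ?_, up_at d 7 11 hd ?_ ?_, up_at d 12 19 hd ?_ ?_⟩ <;>
      push_cast <;> linarith
  rcases le_or_gt (0.4376) (th d) with h7 | h7
  · refine ⟨4, 7, 12, by norm_num, by norm_num, by norm_num, by norm_num,
      up_at d 4 6 hd ?_ ?_, up_at d 7 11 hd ?_ ?_, up_at d 12 19 hd ?_ ?_⟩ <;>
      push_cast <;> linarith
  rcases le_or_gt (0.3819) (th d) with h8 | h8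
  · refine ⟨4, 9, 12, by norm_num, by norm_num, by norm_num, by norm_num,
      up_at d 4 6 hd ?_ ?_, up_at d 9 14 hd ?_ ?_, up_at d 12 19 hd ?_ ?_⟩ <;>
      push_cast <;> linarith
  rcases le_or_gt (0.2917) (th d) with h9 | h9
  · refine ⟨1, 4, 9, by norm_num, by norm_num, by norm_num, by norm_num,
      up_at d 1 1 hd ?_ ?_, up_at d 4 6 hd ?_ ?_, up_at d 9 14 hd ?_ ?_⟩ <;>
      push_cast <;> linarith
  rcases le_or_gt (0.2016) (th d) with h10 | h10
  · refine ⟨1, 6, 9, by norm_num, by norm_num, by norm_num, by norm_num,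
      up_at d 1 1 hd ?_ ?_, up_at d 6 9 hd ?_ ?_, up_at d 9 14 hd ?_ ?_⟩ <;>
      push_cast <;> linarith
  rcases le_or_gt (0.1458) (th d) with h11 | h11
  · refine ⟨1, 6, 11, by norm_num, by norm_num, by norm_num, by norm_num,
      up_at d 1 1 hd ?_ ?_, up_at d 6 9 hd ?_ ?_, up_at d 11 17 hd ?_ ?_⟩ <;>
      push_cast <;> linarith
  rcases le_or_gt (0.0557) (th d) with h12 | h12
  · refine ⟨3, 6, 11, by norm_num, by norm_num, by norm_num, by norm_num,
      up_at d 3 4 hd ?_ ?_, up_at d 6 9 hd ?_ ?_, up_at d 11 17 hd ?_ ?_⟩ <;>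
      push_cast <;> linarith
  refine ⟨3, 8, 11, by norm_num, by norm_num, by norm_num, by norm_num,
      up_at d 3 4 hd ?_ ?_, up_at d 8 12 hd ?_ ?_, up_at d 11 17 hd ?_ ?_⟩ <;>
      push_cast <;> linarith

theorem down_nine (d : ℕ) (hd : 250 ≤ d) (h0 : d ∈ Down) (h9 : d + 9 ∈ Down) :
    ∃ h₁ h₂ h₃ : ℕ, 1 ≤ h₁ ∧ h₁ < h₂ ∧ h₂ < h₃ ∧ h₃ < 9 ∧
    d + h₁ ∈ Down ∧ d + h₂ ∈ Down ∧ d + h₃ ∈ Down := by
  have r1 := lt_rho
  have r2 := rho_lt
  have t0 := th_nonneg d
  have t1 := th_lt d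
  rcases lt_or_ge (th d + (1 + rho) * 9 - 14) 1 with hc | hc
  · have e9 := th_shift d 9 14 (by push_cast; linarith) (by push_cast; exact hc)
    have e2 := th_shift d 2 3 (by push_cast; linarith) (by push_cast; linarith)
    have e4 := th_shift d 4 6 (by push_cast; linarith) (by push_cast; linarith)
    have e5 := th_shift d 5 8 (by push_cast; linarith) (by push_cast; linarith)
    push_cast at e9 e2 e4 e5
    refine ⟨2, 4, 5, by norm_num, by norm_num, by norm_num, by norm_num, ?_, ?_, ?_⟩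
    · exact down_transfer (d+9) (d+2) (by omega) (by omega) (by omega) h9 (by linarith)
    · exact down_transfer (d+9) (d+4) (by omega) (by omega) (by omega) h9 (by linarith)
    · exact down_transfer (d+9) (d+5) (by omega) (by omega) (by omega) h9 (by linarith)
  · have e1 := th_shift d 1 2 (by push_cast; linarith) (by push_cast; linarith)
    have e3 := th_shift d 3 5 (by push_cast; linarith) (by push_cast; linarith)
    have e6 := th_shift d 6 10 (by push_cast; linarith) (by push_cast; linarith)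
    push_cast at e1 e3 e6
    refine ⟨1, 3, 6, by norm_num, by norm_num, by norm_num, by norm_num, ?_, ?_, ?_⟩
    · exact down_transfer d (d+1) (by omega) (by omega) (by omega) h0 (by linarith)
    · exact down_transfer d (d+3) (by omega) (by omega) (by omega) h0 (by linarith)
    · exact down_transfer d (d+6) (by omega) (by omega) (by omega) h0 (by linarith)

theorem down_twelve (d : ℕ) (hd : 250 ≤ d) (h0 : d ∈ Down) (h12 : d + 12 ∈ Down) :
    ∃ h₁ h₂ h₃ : ℕ, 1 ≤ h₁ ∧ h₁ < h₂ ∧ h₂ < h₃ ∧ h₃ < 12 ∧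
    d + h₁ ∈ Down ∧ d + h₂ ∈ Down ∧ d + h₃ ∈ Down := by
  have r1 := lt_rho
  have r2 := rho_lt
  have t0 := th_nonneg d
  have t1 := th_lt d
  rcases lt_or_ge (th d + (1 + rho) * 12 - 19) 1 with hc | hc
  · have e12 := th_shift d 12 19 (by push_cast; linarith) (by push_cast; exact hc)
    have e2 := th_shift d 2 3 (by push_cast; linarith) (by push_cast; linarith)
    have e5 := th_shift d 5 8 (by push_cast; linarith) (by push_cast; linarith)
    have e7 := th_shift d 7 11 (by push_cast; linarith) (by push_cast; linarith)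
    push_cast at e12 e2 e5 e7
    refine ⟨2, 5, 7, by norm_num, by norm_num, by norm_num, by norm_num, ?_, ?_, ?_⟩
    · exact down_transfer (d+12) (d+2) (by omega) (by omega) (by omega) h12 (by linarith)
    · exact down_transfer (d+12) (d+5) (by omega) (by omega) (by omega) h12 (by linarith)
    · exact down_transfer (d+12) (d+7) (by omega) (by omega) (by omega) h12 (by linarith)
  · have e1 := th_shift d 1 2 (by push_cast; linarith) (by push_cast; linarith)
    have e3 := th_shift d 3 5 (by push_cast; linarith) (by push_cast; linarith)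
    have e6 := th_shift d 6 10 (by push_cast; linarith) (by push_cast; linarith)
    push_cast at e1 e3 e6
    refine ⟨1, 3, 6, by norm_num, by norm_num, by norm_num, by norm_num, ?_, ?_, ?_⟩
    · exact down_transfer d (d+1) (by omega) (by omega) (by omega) h0 (by linarith)
    · exact down_transfer d (d+3) (by omega) (by omega) (by omega) h0 (by linarith)
    · exact down_transfer d (d+6) (by omega) (by omega) (by omega) h0 (by linarith)

theorem up_nine (d : ℕ) (hd : 250 ≤ d) (h0 : d ∈ Up) (h9 : d + 9 ∈ Up) :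
    ∃ h₁ h₂ h₃ : ℕ, 1 ≤ h₁ ∧ h₁ < h₂ ∧ h₂ < h₃ ∧ h₃ < 9 ∧
    d + h₁ ∈ Up ∧ d + h₂ ∈ Up ∧ d + h₃ ∈ Up := by
  have r1 := lt_rho
  have r2 := rho_lt
  have t0 := th_nonneg d
  have t1 := th_lt d
  rcases lt_or_ge (th d + (1 + rho) * 9 - 14) 1 with hc | hc
  · have e2 := th_shift d 2 3 (by push_cast; linarith) (by push_cast; linarith)
    have e4 := th_shift d 4 6 (by push_cast; linarith) (by push_cast; linarith)
    have e7 := th_shift d 7 11 (by push_cast; linarith) (by push_cast; linarith)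
    push_cast at e2 e4 e7
    refine ⟨2, 4, 7, by norm_num, by norm_num, by norm_num, by norm_num, ?_, ?_, ?_⟩
    · exact up_transfer d (d+2) (by omega) (by omega) (by omega) h0 (by linarith)
    · exact up_transfer d (d+4) (by omega) (by omega) (by omega) h0 (by linarith)
    · exact up_transfer d (d+7) (by omega) (by omega) (by omega) h0 (by linarith)
  · have e9 := th_shift d 9 15 (by push_cast; linarith) (by push_cast; linarith)
    have e3 := th_shift d 3 5 (by push_cast; linarith) (by push_cast; linarith)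
    have e6 := th_shift d 6 10 (by push_cast; linarith) (by push_cast; linarith)
    have e8 := th_shift d 8 13 (by push_cast; linarith) (by push_cast; linarith)
    push_cast at e9 e3 e6 e8
    refine ⟨3, 6, 8, by norm_num, by norm_num, by norm_num, by norm_num, ?_, ?_, ?_⟩
    · exact up_transfer (d+9) (d+3) (by omega) (by omega) (by omega) h9 (by linarith)
    · exact up_transfer (d+9) (d+6) (by omega) (by omega) (by omega) h9 (by linarith)
    · exact up_transfer (d+9) (d+8) (by omega) (by omega) (by omega) h9 (by linarith)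

theorem up_twelve (d : ℕ) (hd : 250 ≤ d) (h0 : d ∈ Up) (h12 : d + 12 ∈ Up) :
    ∃ h₁ h₂ h₃ : ℕ, 1 ≤ h₁ ∧ h₁ < h₂ ∧ h₂ < h₃ ∧ h₃ < 12 ∧
    d + h₁ ∈ Up ∧ d + h₂ ∈ Up ∧ d + h₃ ∈ Up := by
  have r1 := lt_rho
  have r2 := rho_lt
  have t0 := th_nonneg d
  have t1 := th_lt d
  rcases lt_or_ge (th d + (1 + rho) * 12 - 19) 1 with hc | hc
  · have e2 := th_shift d 2 3 (by push_cast; linarith) (by push_cast; linarith)
    have e5 := th_shift d 5 8 (by push_cast; linarith) (by push_cast; linarith)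
    have e7 := th_shift d 7 11 (by push_cast; linarith) (by push_cast; linarith)
    push_cast at e2 e5 e7
    refine ⟨2, 5, 7, by norm_num, by norm_num, by norm_num, by norm_num, ?_, ?_, ?_⟩
    · exact up_transfer d (d+2) (by omega) (by omega) (by omega) h0 (by linarith)
    · exact up_transfer d (d+5) (by omega) (by omega) (by omega) h0 (by linarith)
    · exact up_transfer d (d+7) (by omega) (by omega) (by omega) h0 (by linarith)
  · have e12 := th_shift d 12 20 (by push_cast; linarith) (by push_cast; linarith)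
    have e1 := th_shift d 1 2 (by push_cast; linarith) (by push_cast; linarith)
    have e3 := th_shift d 3 5 (by push_cast; linarith) (by push_cast; linarith)
    have e6 := th_shift d 6 10 (by push_cast; linarith) (by push_cast; linarith)
    push_cast at e12 e1 e3 e6
    refine ⟨1, 3, 6, by norm_num, by norm_num, by norm_num, by norm_num, ?_, ?_, ?_⟩
    · exact up_transfer (d+12) (d+1) (by omega) (by omega) (by omega) h12 (by linarith)
    · exact up_transfer (d+12) (d+3) (by omega) (by omega) (by omega) h12 (by linarith)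
    · exact up_transfer (d+12) (d+6) (by omega) (by omega) (by omega) h12 (by linarith)

/-! ### small integers -/

theorem fl_of_check (n m : ℕ) (h1 : m * m ≤ m * n + n * n)
    (h2 : (m+1) * n + n * n < (m+1) * (m+1)) : fl n = m := by
  have hs := goldenRatio_sq
  have hp := goldenRatio_pos
  have h1' : (m:ℝ) * m ≤ m * n + n * n := by exact_mod_cast h1
  have h2' : ((m:ℝ)+1) * n + n * n < (m+1) * (m+1) := by exact_mod_cast h2
  have hn : (0:ℝ) ≤ n := Nat.cast_nonneg _
  have hm : (0:ℝ) ≤ m := Nat.cast_nonneg _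
  have a1 : (m:ℝ) ≤ goldenRatio * n := by
    by_contra hc
    push Not at hc
    have hpos : (0:ℝ) ≤ goldenRatio * n := by positivity
    have h3 : 0 < ((m:ℝ) - goldenRatio * n) * (m + (goldenRatio - 1) * n) := by
      apply mul_pos (by linarith)
      have := one_lt_goldenRatio
      nlinarith
    nlinarith
  have a2 : goldenRatio * n < (m:ℝ) + 1 := by
    by_contra hc
    push Not at hc
    have h3 : ((m:ℝ) + 1 - goldenRatio * n) * (m + 1 + (goldenRatio - 1) * n) ≤ 0 := by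
      apply mul_nonpos_of_nonpos_of_nonneg (by linarith)
      have := one_lt_goldenRatio
      nlinarith
    nlinarith
  have : ⌊goldenRatio * n⌋ = (m:ℤ) := by
    rw [Int.floor_eq_iff]; push_cast; exact ⟨a1, a2⟩
  rw [← fl_cast] at this
  exact_mod_cast this

def DM : ℕ := 1859307511022173349454841830794925680526902551867579204993074062114163927861973908381766594639524
def UM : ℕ := 276679524898736732940179875374626434075801970489073564953967545708055797918666641641195492297048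

theorem check_fl : ∀ n < 320, (n*987/610) * (n*987/610) ≤ (n*987/610) * n + n * n ∧
    (n*987/610+1) * n + n * n < (n*987/610+1) * (n*987/610+1) := by
  decide +kernel

theorem check_crit : ∀ n < 320, 2 ≤ n →
    (DM.testBit n = true ∧ UM.testBit n = false ∧ ∃ j < 10, Nat.fib (2*j+3) * n ≤ Nat.fib (2*j+2) * (n*987/610 + 1) ∧
      Nat.fib (2*j+2) * n < Nat.fib (2*j+1) * (n*987/610)) ∨
    (DM.testBit n = false ∧ UM.testBit n = true ∧ ∃ j < 10, Nat.fib (2*j+1) * (n*987/610) ≤ Nat.fib (2*j+2) * n ∧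
      Nat.fib (2*j) * (n*987/610 + 1) < Nat.fib (2*j+1) * n) := by
  decide +kernel

theorem small_iff (n : ℕ) (h1 : n < 320) (h2 : 2 ≤ n) :
    (n ∈ Down ↔ DM.testBit n = true) ∧ (n ∈ Up ↔ UM.testBit n = true) := by
  have hf := check_fl n h1
  have e := fl_of_check n _ hf.1 hf.2
  rcases check_crit n h1 h2 with ⟨a, b, j, _, c1, c2⟩ | ⟨a, b, j, _, c1, c2⟩
  · have h : CD n j := by unfold CD; rw [e]; exact ⟨c1, c2⟩
    have h3 := down_of_CD n j h2 h
    rw [a, b]
    simp [h3.1, h3.2]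
  · have h : CU n j := by unfold CU; rw [e]; exact ⟨c1, c2⟩
    have h3 := up_of_CU n j h2 h
    rw [a, b]
    simp [h3.1, h3.2]

/-- boolean test for three elements of the mask `M` in `(d, d+L)` -/
def win (M d L : ℕ) : Bool :=
  (List.range L).any fun h₁ => (List.range L).any fun h₂ => (List.range L).any fun h₃ =>
    decide (1 ≤ h₁) && decide (h₁ < h₂) && decide (h₂ < h₃) &&
    M.testBit (d+h₁) && M.testBit (d+h₂) && M.testBit (d+h₃)

theorem win_spec (M d L : ℕ) (h : win M d L = true) : ∃ h₁ h₂ h₃ : ℕ,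
    1 ≤ h₁ ∧ h₁ < h₂ ∧ h₂ < h₃ ∧ h₃ < L ∧ M.testBit (d+h₁) = true ∧ M.testBit (d+h₂) = true ∧
    M.testBit (d+h₃) = true := by
  unfold win at h
  simp only [List.any_eq_true, List.mem_range, Bool.and_eq_true, decide_eq_true_eq] at h
  obtain ⟨h₁, _, h₂, _, h₃, hL, ⟨⟨⟨⟨⟨a, b⟩, c⟩, d1⟩, d2⟩, d3⟩⟩ := h
  exact ⟨h₁, h₂, h₃, a, b, c, hL, d1, d2, d3⟩

def chk1 (M d : ℕ) : Bool :=
  !(M.testBit d) || (win M d 14 && (!(M.testBit (d+9)) || win M d 9) &&
    (!(M.testBit (d+12)) || win M d 12))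

theorem small_checks_aux : ((List.range 250).all fun d => chk1 DM d && chk1 UM d) = true := by
  decide +kernel

theorem chk1_spec (M d : ℕ) (h : chk1 M d = true) (hd : M.testBit d = true) :
    win M d 14 = true ∧ (M.testBit (d+9) = true → win M d 9 = true) ∧
      (M.testBit (d+12) = true → win M d 12 = true) := by
  unfold chk1 at h
  rw [hd] at h
  simp only [Bool.not_true, Bool.false_or, Bool.and_eq_true, Bool.or_eq_true,
    Bool.not_eq_true'] at h
  obtain ⟨⟨h1, h2⟩, h3⟩ := h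
  refine ⟨h1, fun h4 => ?_, fun h4 => ?_⟩
  · rcases h2 with h2 | h2
    · rw [h2] at h4; exact absurd h4 (by simp)
    · exact h2
  · rcases h3 with h3 | h3
    · rw [h3] at h4; exact absurd h4 (by simp)
    · exact h3

theorem small_checks (d : ℕ) (hd : d < 250) (_ : 2 ≤ d) :
    (DM.testBit d = true → win DM d 14 = true ∧ (DM.testBit (d+9) = true → win DM d 9 = true) ∧
      (DM.testBit (d+12) = true → win DM d 12 = true)) ∧
    (UM.testBit d = true → win UM d 14 = true ∧ (UM.testBit (d+9) = true → win UM d 9 = true) ∧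
      (UM.testBit (d+12) = true → win UM d 12 = true)) := by
  have h := small_checks_aux
  rw [List.all_eq_true] at h
  have h2 := h d (List.mem_range.2 hd)
  rw [Bool.and_eq_true] at h2
  exact ⟨chk1_spec DM d h2.1, chk1_spec UM d h2.2⟩

theorem three_D (d L : ℕ) (hd : d < 250) (h2 : 2 ≤ d) (hL : L ≤ 14) (h : win DM d L = true) :
    ∃ h₁ h₂ h₃ : ℕ, 1 ≤ h₁ ∧ h₁ < h₂ ∧ h₂ < h₃ ∧ h₃ < L ∧
    d + h₁ ∈ Down ∧ d + h₂ ∈ Down ∧ d + h₃ ∈ Down := by
  obtain ⟨a, b, c, h1, h2', h3, h4, h5, h6, h7⟩ := win_spec _ _ _ h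
  exact ⟨a, b, c, h1, h2', h3, h4, (small_iff _ (by omega) (by omega)).1.2 h5,
    (small_iff _ (by omega) (by omega)).1.2 h6, (small_iff _ (by omega) (by omega)).1.2 h7⟩

theorem three_U (d L : ℕ) (hd : d < 250) (h2 : 2 ≤ d) (hL : L ≤ 14) (h : win UM d L = true) :
    ∃ h₁ h₂ h₃ : ℕ, 1 ≤ h₁ ∧ h₁ < h₂ ∧ h₂ < h₃ ∧ h₃ < L ∧
    d + h₁ ∈ Up ∧ d + h₂ ∈ Up ∧ d + h₃ ∈ Up := by
  obtain ⟨a, b, c, h1, h2', h3, h4, h5, h6, h7⟩ := win_spec _ _ _ h
  exact ⟨a, b, c, h1, h2', h3, h4, (small_iff _ (by omega) (by omega)).2.2 h5,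
    (small_iff _ (by omega) (by omega)).2.2 h6, (small_iff _ (by omega) (by omega)).2.2 h7⟩

/-- the three window properties of a set -/
structure Windows (A : Set ℕ) : Prop where
  w13 : ∀ d ∈ A, ∃ h₁ h₂ h₃ : ℕ, 1 ≤ h₁ ∧ h₁ < h₂ ∧ h₂ < h₃ ∧ h₃ < 14 ∧
    d + h₁ ∈ A ∧ d + h₂ ∈ A ∧ d + h₃ ∈ A
  w9 : ∀ d ∈ A, d + 9 ∈ A → ∃ h₁ h₂ h₃ : ℕ, 1 ≤ h₁ ∧ h₁ < h₂ ∧ h₂ < h₃ ∧ h₃ < 9 ∧
    d + h₁ ∈ A ∧ d + h₂ ∈ A ∧ d + h₃ ∈ A
  w12 : ∀ d ∈ A, d + 12 ∈ A → ∃ h₁ h₂ h₃ : ℕ, 1 ≤ h₁ ∧ h₁ < h₂ ∧ h₂ < h₃ ∧ h₃ < 12 ∧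
    d + h₁ ∈ A ∧ d + h₂ ∈ A ∧ d + h₃ ∈ A

theorem windows_down : Windows Down where
  w13 := by
    intro d hd
    rcases lt_or_ge d 250 with h | h
    · have hd2 : 2 ≤ d := hd.1
      have hc := (small_checks d h hd2).1 ((small_iff d (by omega) hd2).1.1 hd)
      exact three_D d 14 h hd2 le_rfl hc.1
    · obtain ⟨a, b, c, h1, h2, h3, h4, h5⟩ := down_window d h
      exact ⟨a, b, c, h1, h2, h3, by omega, h5⟩
  w9 := by
    intro d hd hd9
    rcases lt_or_ge d 250 with h | h
    · have hd2 : 2 ≤ d := hd.1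
      have hc := (small_checks d h hd2).1 ((small_iff d (by omega) hd2).1.1 hd)
      exact three_D d 9 h hd2 (by norm_num) (hc.2.1 ((small_iff (d+9) (by omega) (by omega)).1.1 hd9))
    · exact down_nine d h hd hd9
  w12 := by
    intro d hd hd12
    rcases lt_or_ge d 250 with h | h
    · have hd2 : 2 ≤ d := hd.1
      have hc := (small_checks d h hd2).1 ((small_iff d (by omega) hd2).1.1 hd)
      exact three_D d 12 h hd2 (by norm_num)
        (hc.2.2 ((small_iff (d+12) (by omega) (by omega)).1.1 hd12))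
    · exact down_twelve d h hd hd12

theorem windows_up : Windows Up where
  w13 := by
    intro d hd
    rcases lt_or_ge d 250 with h | h
    · have hd2 : 2 ≤ d := hd.1
      have hc := (small_checks d h hd2).2 ((small_iff d (by omega) hd2).2.1 hd)
      exact three_U d 14 h hd2 le_rfl hc.1
    · obtain ⟨a, b, c, h1, h2, h3, h4, h5⟩ := up_window d h
      exact ⟨a, b, c, h1, h2, h3, by omega, h5⟩
  w9 := by
    intro d hd hd9
    rcases lt_or_ge d 250 with h | h
    · have hd2 : 2 ≤ d := hd.1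
      have hc := (small_checks d h hd2).2 ((small_iff d (by omega) hd2).2.1 hd)
      exact three_U d 9 h hd2 (by norm_num) (hc.2.1 ((small_iff (d+9) (by omega) (by omega)).2.1 hd9))
    · exact up_nine d h hd hd9
  w12 := by
    intro d hd hd12
    rcases lt_or_ge d 250 with h | h
    · have hd2 : 2 ≤ d := hd.1
      have hc := (small_checks d h hd2).2 ((small_iff d (by omega) hd2).2.1 hd)
      exact three_U d 12 h hd2 (by norm_num)
        (hc.2.2 ((small_iff (d+12) (by omega) (by omega)).2.1 hd12))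
    · exact up_twelve d h hd hd12

/-- the set of gaps of order `ℓ` of an infinite set, enumerated increasingly -/
noncomputable def gaps (A : Set ℕ) (ℓ : ℕ) : Set ℕ :=
  {g | ∃ k, g = Nat.nth (· ∈ A) (k + ℓ) - Nat.nth (· ∈ A) k}

theorem infinite_of_windows {A : Set ℕ} (hA : Windows A) (h0 : A.Nonempty) : A.Infinite := by
  intro hfin
  obtain ⟨d, hd, hmax⟩ := Set.exists_max_image A id hfin h0
  obtain ⟨a, b, c, h1, _, _, _, h5, _⟩ := hA.w13 d hd
  have := hmax (d + a) h5
  simp at this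
  omega

theorem no_three {A : Set ℕ} (hinf : A.Infinite) (k x y z : ℕ) (hx : x ∈ A) (hy : y ∈ A)
    (hz : z ∈ A) (hxy : x < y) (hyz : y < z) (h1 : Nat.nth (· ∈ A) k < x)
    (h2 : z < Nat.nth (· ∈ A) (k+3)) : False := by
  classical
  have hinf' : (Set.ofPred (· ∈ A)).Infinite := hinf
  have ex := Nat.nth_count (p := (· ∈ A)) hx
  have ey := Nat.nth_count (p := (· ∈ A)) hy
  have ez := Nat.nth_count (p := (· ∈ A)) hz
  have hm := Nat.nth_strictMono hinf'
  have a1 : k < Nat.count (· ∈ A) x := by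
    rw [← ex] at h1; exact hm.lt_iff_lt.1 h1
  have a2 : Nat.count (· ∈ A) x < Nat.count (· ∈ A) y := by
    rw [← hm.lt_iff_lt, ex, ey]; exact hxy
  have a3 : Nat.count (· ∈ A) y < Nat.count (· ∈ A) z := by
    rw [← hm.lt_iff_lt, ey, ez]; exact hyz
  have a4 : Nat.count (· ∈ A) z < k + 3 := by
    rw [← ez] at h2; exact hm.lt_iff_lt.1 h2
  omega

theorem gaps_subset {A : Set ℕ} (hA : Windows A) (hinf : A.Infinite) :
    gaps A 3 ⊆ {3, 4, 5, 6, 7, 8, 10, 11, 13} := by
  rintro g ⟨k, rfl⟩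
  have hinf' : (Set.ofPred (· ∈ A)).Infinite := hinf
  have hm := Nat.nth_strictMono hinf'
  have m0 : Nat.nth (· ∈ A) k ∈ A := Nat.nth_mem_of_infinite hinf' k
  have m3 : Nat.nth (· ∈ A) (k+3) ∈ A := Nat.nth_mem_of_infinite hinf' (k+3)
  have l1 := hm (show k < k + 1 by omega)
  have l2 := hm (show k + 1 < k + 2 by omega)
  have l3 := hm (show k + 2 < k + 3 by omega)
  set a := Nat.nth (· ∈ A) k
  set b := Nat.nth (· ∈ A) (k+3) with hb
  have hab : a + 3 ≤ b := by omega
  have h13 : b ≤ a + 13 := by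
    by_contra hc
    obtain ⟨x, y, z, c1, c2, c3, c4, c5, c6, c7⟩ := hA.w13 a m0
    exact no_three hinf k (a+x) (a+y) (a+z) c5 c6 c7 (by omega) (by omega) (by omega) (by omega)
  have h9 : b ≠ a + 9 := by
    intro hc
    obtain ⟨x, y, z, c1, c2, c3, c4, c5, c6, c7⟩ := hA.w9 a m0 (hc ▸ m3)
    exact no_three hinf k (a+x) (a+y) (a+z) c5 c6 c7 (by omega) (by omega) (by omega) (by omega)
  have h12 : b ≠ a + 12 := by
    intro hc
    obtain ⟨x, y, z, c1, c2, c3, c4, c5, c6, c7⟩ := hA.w12 a m0 (hc ▸ m3)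
    exact no_three hinf k (a+x) (a+y) (a+z) c5 c6 c7 (by omega) (by omega) (by omega) (by omega)
  obtain ⟨g, hg⟩ : ∃ g, b = a + g := ⟨b - a, by omega⟩
  rw [hg, Nat.add_sub_cancel_left]
  have : g = 3 ∨ g = 4 ∨ g = 5 ∨ g = 6 ∨ g = 7 ∨ g = 8 ∨ g = 10 ∨ g = 11 ∨ g = 13 := by omega
  simpa using this

/-- exhibiting a gap of order three -/
theorem mem_gaps {A : Set ℕ} (hinf : A.Infinite) (M : ℕ)
    (hM : ∀ n, 2 ≤ n → n < 320 → (n ∈ A ↔ M.testBit n = true)) (d g : ℕ) (h2 : 2 ≤ d)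
    (hg : d + g < 320) (h0 : M.testBit d = true) (h1 : M.testBit (d+g) = true)
    (hc : ((Finset.range g).filter (fun i => M.testBit (d+i) = true)).card = 3) : g ∈ gaps A 3 := by
  classical
  have hinf' : (Set.ofPred (· ∈ A)).Infinite := hinf
  have hd : d ∈ A := (hM d h2 (by omega)).2 h0
  have hdg : d + g ∈ A := (hM (d+g) (by omega) hg).2 h1
  refine ⟨Nat.count (· ∈ A) d, ?_⟩
  have e0 := Nat.nth_count (p := (· ∈ A)) hd
  have e1 := Nat.nth_count (p := (· ∈ A)) hdg
  have e2 : Nat.count (· ∈ A) (d + g) = Nat.count (· ∈ A) d + 3 := by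
    rw [Nat.count_add]
    congr 1
    rw [← hc, Nat.count_eq_card_filter_range]
    have : (Finset.range g).filter (fun k => d + k ∈ A)
        = (Finset.range g).filter (fun i => M.testBit (d+i) = true) := by
      apply Finset.filter_congr
      intro i hi
      rw [Finset.mem_range] at hi
      exact hM (d+i) (by omega) (by omega)
    rw [this]
  rw [e2] at e1
  rw [e0, e1]
  omega

end Q249.SlowFib
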