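import Mathlib
import Pool.Agent.Q249.LegendreSuper

/-!
# Recurrences and a closed form for the central trinomial / Motzkin sums with b = c = 3
-/

namespace Q249.LegendreSuper
open Finset

/-- generalized Motzkin number over a ring -/
def MR {R : Type*} [CommRing R] (b c : R) (n : ℕ) : R :=
  ∑ j ∈ range (n/2+1), (n.choose (2*j) : R) * (catalan j : R) * b^(n-2*j) * c^j

/-- normalised trinomial sum -/
def aN (N n : ℕ) (x : ℚ) : ℚ := ∑ j ∈ range N, (n.choose (2*j) : ℚ) * ((2*j).choose j : ℚ) * x^j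
/-- normalised Motzkin sum -/
def mN (N n : ℕ) (x : ℚ) : ℚ := ∑ j ∈ range N, (n.choose (2*j) : ℚ) * (catalan j : ℚ) * x^j

theorem TR_eq_aN (N n : ℕ) (h : n/2 + 1 ≤ N) : TR (3:ℚ) 3 n = 3^n * aN N n (1/3) := by
  unfold TR aN
  rw [mul_sum]
  apply sum_subset_zero_on_sdiff
  · intro j hj; rw [mem_range] at *; omega
  · intro j hj
    rw [mem_sdiff, mem_range, mem_range] at hj
    rw [Nat.choose_eq_zero_of_lt (by omega)]
    simp
  · intro j hj
    rw [mem_range] at hj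
    have h3 : (3:ℚ)^n = 3^(n-2*j) * (3^j * 3^j) := by
      rw [← pow_add, ← pow_add]; congr 1; omega
    rw [h3, one_div, inv_pow]
    field_simp

theorem MR_eq_mN (N n : ℕ) (h : n/2 + 1 ≤ N) : MR (3:ℚ) 3 n = 3^n * mN N n (1/3) := by
  unfold MR mN
  rw [mul_sum]
  apply sum_subset_zero_on_sdiff
  · intro j hj; rw [mem_range] at *; omega
  · intro j hj
    rw [mem_sdiff, mem_range, mem_range] at hj
    rw [Nat.choose_eq_zero_of_lt (by omega)]
    simp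
  · intro j hj
    rw [mem_range] at hj
    have h3 : (3:ℚ)^n = 3^(n-2*j) * (3^j * 3^j) := by
      rw [← pow_add, ← pow_add]; congr 1; omega
    rw [h3, one_div, inv_pow]
    field_simp

theorem cb_succ (i : ℕ) : ((2*(i+1)).choose (i+1) : ℚ) = 2 * (2*i+1) * (catalan i : ℚ) := by
  have h1 := Nat.succ_mul_centralBinom_succ i
  have h2 := succ_mul_catalan_eq_centralBinom i
  rw [Nat.centralBinom_eq_two_mul_choose (i+1), ← h2] at h1
  have h3 : (((i+1) * (2*(i+1)).choose (i+1) : ℕ) : ℚ) = ((2 * (2*i+1) * ((i+1) * catalan i) : ℕ) : ℚ) := by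
    rw [h1]
  push_cast at h3
  have hi : (i:ℚ) + 1 ≠ 0 := by positivity
  apply mul_left_cancel₀ hi
  linear_combination h3

theorem cb_cat (i : ℕ) : ((2*i).choose i : ℚ) = (i+1) * (catalan i : ℚ) := by
  have h2 := succ_mul_catalan_eq_centralBinom i
  rw [Nat.centralBinom_eq_two_mul_choose] at h2
  exact_mod_cast h2.symm

theorem odd_choose (m i : ℕ) : ((m.choose (2*i+1) : ℕ) : ℚ) * (2*i+1) = m.choose (2*i) * ((m:ℚ) - 2*i) := by
  rcases le_or_gt (2*i) m with h | h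
  · have := Nat.choose_succ_right_eq m (2*i)
    have h2 : ((m - 2*i : ℕ) : ℚ) = (m:ℚ) - 2*i := by push_cast [h]; ring
    rw [← h2]; exact_mod_cast this
  · simp [Nat.choose_eq_zero_of_lt h, Nat.choose_eq_zero_of_lt (Nat.lt_succ_of_lt h)]

theorem term_T (m i : ℕ) :
    ((m:ℚ)+2) * ((m+2).choose (2*(i+1)) : ℚ) * ((2*(i+1)).choose (i+1) : ℚ)
    - (2*m+3) * ((m+1).choose (2*(i+1)) : ℚ) * ((2*(i+1)).choose (i+1) : ℚ)
    + (m+1) * (m.choose (2*(i+1)) : ℚ) * ((2*(i+1)).choose (i+1) : ℚ)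
    = 4 * (m+1) * (m.choose (2*i) : ℚ) * ((2*i).choose i : ℚ) := by
  rw [cb_succ, cb_cat]
  have e1 : ((m+1).choose (2*(i+1)) : ℚ) = m.choose (2*i+1) + m.choose (2*(i+1)) := by
    rw [show 2*(i+1) = (2*i+1)+1 by ring, Nat.choose_succ_succ]; push_cast; ring
  have e2 : ((m+2).choose (2*(i+1)) : ℚ)
      = m.choose (2*i) + 2 * m.choose (2*i+1) + m.choose (2*(i+1)) := by
    rw [show 2*(i+1) = (2*i+1)+1 by ring, Nat.choose_succ_succ, Nat.choose_succ_succ,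
      Nat.choose_succ_succ]
    push_cast; ring
  rw [e1, e2]
  have h := odd_choose m i
  linear_combination 2 * (catalan i : ℚ) * h

theorem term_M (m i : ℕ) :
    ((m+2).choose (2*(i+1)) : ℚ) * ((2*(i+1)).choose (i+1) : ℚ)
    - ((m+1).choose (2*(i+1)) : ℚ) * ((2*(i+1)).choose (i+1) : ℚ)
    = 2 * (m+1) * (m.choose (2*i) : ℚ) * (catalan i : ℚ) := by
  rw [cb_succ]
  have e2 : ((m+2).choose (2*(i+1)) : ℚ)
      = (m+1).choose (2*i+1) + (m+1).choose (2*(i+1)) := by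
    rw [show 2*(i+1) = (2*i+1)+1 by ring, Nat.choose_succ_succ]
    push_cast; ring
  have e3 : (((m+1).choose (2*i+1) : ℕ) : ℚ) * (2*i+1) = (m+1) * (m.choose (2*i) : ℚ) := by
    have := Nat.add_one_mul_choose_eq m (2*i)
    exact_mod_cast this.symm
  rw [e2]
  linear_combination 2 * (catalan i : ℚ) * e3

theorem aN_rec (N m : ℕ) (x : ℚ) :
    ((m:ℚ)+2) * aN (N+1) (m+2) x - (2*m+3) * aN (N+1) (m+1) x + (m+1) * aN (N+1) m x
      = 4 * x * (m+1) * aN N m x := by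
  unfold aN
  rw [sum_range_succ', sum_range_succ', sum_range_succ']
  simp only [mul_zero, Nat.choose_zero_right, Nat.cast_one, pow_zero, mul_one]
  rw [mul_add, mul_add, mul_add, mul_sum, mul_sum, mul_sum, mul_sum]
  have : ∀ i ∈ range N, 4 * x * ((m:ℚ)+1) * ((m.choose (2*i) : ℚ) * ((2*i).choose i : ℚ) * x^i)
    = ((m:ℚ)+2) * (((m+2).choose (2*(i+1)) : ℚ) * ((2*(i+1)).choose (i+1) : ℚ) * x^(i+1))
    - (2*m+3) * (((m+1).choose (2*(i+1)) : ℚ) * ((2*(i+1)).choose (i+1) : ℚ) * x^(i+1))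
    + (m+1) * ((m.choose (2*(i+1)) : ℚ) * ((2*(i+1)).choose (i+1) : ℚ) * x^(i+1)) := by
    intro i _
    have := term_T m i
    rw [pow_succ]
    linear_combination (-x * x^i) * this
  rw [sum_congr rfl this, sum_add_distrib, sum_sub_distrib]
  ring

theorem mN_rel (N m : ℕ) (x : ℚ) :
    aN (N+1) (m+2) x - aN (N+1) (m+1) x = 2 * x * (m+1) * mN N m x := by
  unfold aN mN
  rw [sum_range_succ', sum_range_succ']
  simp only [mul_zero, Nat.choose_zero_right, Nat.cast_one, pow_zero, mul_one]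
  rw [mul_sum]
  have : ∀ i ∈ range N, 2 * x * ((m:ℚ)+1) * ((m.choose (2*i) : ℚ) * (catalan i : ℚ) * x^i)
    = ((m+2).choose (2*(i+1)) : ℚ) * ((2*(i+1)).choose (i+1) : ℚ) * x^(i+1)
    - ((m+1).choose (2*(i+1)) : ℚ) * ((2*(i+1)).choose (i+1) : ℚ) * x^(i+1) := by
    intro i _
    have := term_M m i
    rw [pow_succ]
    linear_combination (-x * x^i) * this
  rw [sum_congr rfl this, sum_sub_distrib]
  ring

theorem TR_rec (m : ℕ) :
    ((m:ℚ)+2) * TR (3:ℚ) 3 (m+2) = 3*(2*m+3) * TR (3:ℚ) 3 (m+1) + 3*(m+1) * TR (3:ℚ) 3 m := by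
  rw [TR_eq_aN (m+2+1) (m+2) (by omega), TR_eq_aN (m+2+1) (m+1) (by omega),
    TR_eq_aN (m+2+1) m (by omega)]
  have h := aN_rec (m+2) m (1/3)
  have h2 : aN (m+2) m (1/3) = aN (m+2+1) m (1/3) := by
    have e1 := TR_eq_aN (m+2) m (by omega)
    have e2 := TR_eq_aN (m+2+1) m (by omega)
    have h3 : (3:ℚ)^m ≠ 0 := by positivity
    exact mul_left_cancel₀ h3 (e1.symm.trans e2)
  rw [h2] at h
  rw [pow_succ, pow_succ]
  linear_combination 9 * 3^m * h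

theorem MR_rel (m : ℕ) :
    TR (3:ℚ) 3 (m+2) - 3 * TR (3:ℚ) 3 (m+1) = 6 * (m+1) * MR (3:ℚ) 3 m := by
  rw [TR_eq_aN (m+2+1) (m+2) (by omega), TR_eq_aN (m+2+1) (m+1) (by omega),
    MR_eq_mN (m+2) m (by omega)]
  have h := mN_rel (m+2) m (1/3)
  rw [pow_succ, pow_succ]
  linear_combination 9 * 3^m * h

theorem TR_zero' : TR (3:ℚ) 3 0 = 1 := by simp [TR]
theorem TR_one' : TR (3:ℚ) 3 1 = 3 := by simp [TR]
theorem MR_zero' : MR (3:ℚ) 3 0 = 1 := by simp [MR]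

theorem closed_form (m : ℕ) :
    2 * ((m:ℚ)+2) * (-3)^(m+1) * (∑ k ∈ range (m+1), TR (3:ℚ) 3 k * MR (3:ℚ) 3 k / (-3)^k)
      = (m+1) * (m+2) * (TR (3:ℚ) 3 (m+1))^2 - 3*(m+1)*(2*m+3) * TR (3:ℚ) 3 (m+1) * TR (3:ℚ) 3 m
        - 3*(m+1)^2 * (TR (3:ℚ) 3 m)^2 := by
  induction m with
  | zero => simp [TR_zero', TR_one', MR_zero']; norm_num
  | succ m ih =>
    rw [sum_range_succ, mul_add]
    have r1 := TR_rec m
    have r2 := TR_rec (m+1)
    have r3 := MR_rel (m+1)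
    set a := TR (3:ℚ) 3 m
    set b := TR (3:ℚ) 3 (m+1)
    set c := TR (3:ℚ) 3 (m+1+1)
    set d := TR (3:ℚ) 3 (m+1+2)
    set e := MR (3:ℚ) 3 (m+1)
    set S := ∑ k ∈ range (m+1), TR (3:ℚ) 3 k * MR (3:ℚ) 3 k / (-3)^k
    have r1' : ((m:ℚ)+2) * c = 3*(2*m+3) * b + 3*(m+1) * a := r1
    push_cast at r2 r3 ⊢
    have hpow : ((-3:ℚ))^(m+1+1) * (b * e / (-3)^(m+1)) = -3 * (b * e) := by
      rw [pow_succ]
      field_simp
    have hm2 : ((m:ℚ)+2) ≠ 0 := by positivity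
    apply mul_left_cancel₀ hm2
    have e1 : ((m:ℚ)+2) * (2 * ((m:ℚ)+1+2) * (-3)^(m+1+1) * S)
        = -3 * ((m:ℚ)+3) * (2 * ((m:ℚ)+2) * (-3)^(m+1) * S) := by
      rw [pow_succ]; ring
    have e2 : ((m:ℚ)+2) * (2 * ((m:ℚ)+1+2) * (-3)^(m+1+1) * (b * e / (-3)^(m+1)))
        = 2 * (m+2) * (m+3) * (-3 * (b * e)) := by
      rw [← hpow]; ring
    rw [mul_add, e1, e2, ih]
    linear_combination (((m:ℚ)+3) * b) * r3 - b * r2
      - ((m:ℚ)+3) * (3 * (m+1) * a + (m+2) * c) * r1'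

end Q249.LegendreSuper
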