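import Mathlib

/-!
Definitions for the Ulam sequence and sums of at most two Ulam numbers.
-/

namespace Q249.Ulam

/-- `u` (indexed from `1`; the value `u 0` is irrelevant) is the Ulam sequence with initial values
`1, 2`: for `n ≥ 3`, `u n` is the least integer greater than `u (n - 1)` that can be written in
exactly one way as `u i + u j` with `1 ≤ i < j < n`. -/
structure IsUlamSeq (u : ℕ → ℕ) : Prop where
  one : u 1 = 1
  two : u 2 = 2
  least : ∀ n, 3 ≤ n → IsLeast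
    {m | u (n - 1) < m ∧
      ∃! p : ℕ × ℕ, (1 ≤ p.1 ∧ p.1 < p.2 ∧ p.2 < n) ∧ u p.1 + u p.2 = m} (u n)

/-- `m` is a term `u i` (`i ≥ 1`), or a sum `u i + u j` of two terms with `1 ≤ i < j`. -/
def SumOfAtMostTwo (u : ℕ → ℕ) (m : ℕ) : Prop :=
  (∃ i, 1 ≤ i ∧ u i = m) ∨ ∃ i j, 1 ≤ i ∧ i < j ∧ u i + u j = m

/-- The Lucas numbers: `L_0 = 2`, `L_1 = 1`, `L_{n+2} = L_{n+1} + L_n`. -/
def lucas : ℕ → ℕ
  | 0 => 2
  | 1 => 1
  | n + 2 => lucas (n + 1) + lucas n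

end Q249.Ulam
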