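import Pool.Agent.Q249.UlamDefs

/-!
Computation of the Ulam numbers up to `6765` by bit masks, and its consequences.
-/

namespace Q249.Ulam

/-- The Ulam numbers up to `6765`, in decreasing order. -/
def us : List ℕ :=
  [6740, 6738, 6735, 6723, 6721, 6652, 6635, 6633, 6586, 6569, 6567, 6552, 6550, 6525, 6523,
   6520, 6481, 6479, 6459, 6457, 6437, 6435, 6420, 6418, 6410, 6393, 6391, 6366, 6354, 6352,
   6327, 6325, 6322, 6310, 6308, 6283, 6244, 6242, 6239, 6178, 6176, 6156, 6154, 6134, 6112,
   6110, 6107, 6068, 6051, 6049, 6046, 6029, 6027, 6024, 5946, 5944, 5902, 5900, 5895, 5880,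
   5878, 5875, 5873, 5858, 5856, 5853, 5829, 5826, 5814, 5812, 5797, 5795, 5770, 5768, 5765,
   5687, 5685, 5665, 5663, 5616, 5599, 5597, 5550, 5533, 5531, 5516, 5514, 5489, 5487, 5484,
   5384, 5382, 5357, 5335, 5318, 5316, 5296, 5294, 5291, 5274, 5272, 5269, 5252, 5250, 5208,
   5206, 5186, 5184, 5181, 5164, 5162, 5159, 5118, 5096, 5081, 5079, 5059, 5057, 5052, 5049,
   5037, 5035, 5032, 5020, 5018, 4998, 4996, 4971, 4969, 4927, 4925, 4905, 4903, 4900, 4883,
   4881, 4878, 4800, 4798, 4756, 4754, 4734, 4732, 4729, 4707, 4668, 4666, 4646, 4644, 4641,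
   4624, 4622, 4619, 4602, 4600, 4580, 4578, 4536, 4534, 4531, 4519, 4517, 4470, 4453, 4451,
   4409, 4407, 4404, 4392, 4390, 4370, 4368, 4365, 4363, 4343, 4341, 4326, 4324, 4297, 4294,
   4260, 4258, 4233, 4211, 4187, 4167, 4165, 4155, 4153, 4150, 4148, 4121, 4118, 4101, 4057,
   4040, 4038, 4018, 3994, 3991, 3974, 3962, 3960, 3952, 3930, 3918, 3916, 3886, 3874, 3872,
   3825, 3808, 3806, 3764, 3762, 3759, 3742, 3740, 3725, 3723, 3698, 3696, 3691, 3671, 3669,
   3649, 3632, 3630, 3625, 3622, 3610, 3608, 3605, 3593, 3591, 3549, 3547, 3544, 3527, 3525,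
   3495, 3483, 3481, 3476, 3473, 3456, 3454, 3451, 3417, 3415, 3395, 3393, 3390, 3373, 3371,
   3368, 3305, 3290, 3288, 3263, 3261, 3239, 3236, 3219, 3217, 3214, 3207, 3205, 3153, 3131,
   3109, 3107, 3092, 3090, 3085, 3070, 3068, 3065, 3043, 3041, 3038, 3031, 3029, 2987, 2985,
   2921, 2919, 2916, 2899, 2897, 2833, 2831, 2816, 2814, 2811, 2809, 2789, 2787, 2762, 2750,
   2748, 2723, 2721, 2696, 2674, 2662, 2660, 2650, 2635, 2633, 2630, 2628, 2618, 2616, 2613,
   2589, 2584, 2581, 2574, 2572, 2552, 2550, 2525, 2513, 2511, 2486, 2484, 2481, 2464, 2462,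
   2447, 2445, 2420, 2418, 2393, 2371, 2354, 2332, 2330, 2327, 2288, 2254, 2252, 2249, 2247,
   2178, 2156, 2134, 2117, 2115, 2112, 2095, 2093, 2090, 2056, 2054, 2034, 2032, 2012, 2010,
   1985, 1968, 1966, 1946, 1944, 1941, 1919, 1902, 1900, 1858, 1856, 1853, 1836, 1834, 1814,
   1812, 1792, 1790, 1770, 1765, 1748, 1724, 1721, 1709, 1707, 1682, 1660, 1648, 1646, 1643,
   1641, 1616, 1604, 1602, 1594, 1553, 1550, 1538, 1536, 1531, 1516, 1514, 1509, 1492, 1489,
   1472, 1470, 1465, 1462, 1433, 1431, 1428, 1406, 1404, 1389, 1387, 1377, 1360, 1355, 1340,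
   1338, 1335, 1313, 1311, 1308, 1296, 1257, 1252, 1230, 1208, 1191, 1186, 1169, 1167, 1164,
   1157, 1155, 1125, 1103, 1101, 1081, 1079, 1052, 1037, 1035, 1032, 1030, 1025, 1023, 1020,
   1018, 991, 986, 983, 949, 927, 905, 893, 891, 866, 864, 861, 849, 847, 820, 800, 798, 783,
   781, 751, 739, 734, 732, 722, 720, 695, 690, 688, 685, 673, 668, 646, 627, 624, 612, 607, 605,
   602, 585, 568, 566, 546, 544, 524, 522, 502, 497, 485, 483, 456, 451, 441, 434, 431, 429, 414,
   412, 409, 402, 400, 390, 382, 370, 363, 358, 356, 341, 339, 324, 319, 316, 309, 282, 273, 260,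
   258, 253, 243, 241, 238, 236, 221, 219, 209, 206, 197, 189, 182, 180, 177, 175, 155, 148, 145,
   138, 131, 126, 114, 106, 102, 99, 97, 87, 82, 77, 72, 69, 62, 57, 53, 48, 47, 38, 36, 28, 26,
   18, 16, 13, 11, 8, 6, 4, 3, 2, 1]

/-- Bit masks: members, sums with at least one representation, sums with at least two. -/
def masks : List ℕ → ℕ × ℕ × ℕ
  | [] => (0, 0, 0)
  | u :: l =>
    let r := masks l
    let new := r.1 <<< u
    (r.1 ||| (1 <<< u), r.2.1 ||| new, r.2.2 ||| (r.2.1 &&& new))

/-- Number of representations of `m` as a sum of two list entries at different places. -/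
def c : List ℕ → ℕ → ℕ
  | [], _ => 0
  | u :: l, m => c l m + if u ≤ m ∧ m - u ∈ l then 1 else 0

theorem masks_spec (l : List ℕ) (m : ℕ) :
    ((masks l).1.testBit m = true ↔ m ∈ l) ∧
    ((masks l).2.1.testBit m = true ↔ 1 ≤ c l m) ∧
    ((masks l).2.2.testBit m = true ↔ 2 ≤ c l m) := by
  induction l generalizing m with
  | nil => simp [masks, c]
  | cons u l ih =>
    have hnew : ((masks l).1 <<< u).testBit m = true ↔ (u ≤ m ∧ m - u ∈ l) := by
      rw [Nat.testBit_shiftLeft]
      simp [(ih (m - u)).1]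
    obtain ⟨h1, h2, h3⟩ := ih m
    refine ⟨?_, ?_, ?_⟩
    · simp only [masks, Nat.testBit_or, Bool.or_eq_true, h1, List.mem_cons]
      rw [Nat.one_shiftLeft, Nat.testBit_two_pow]
      simp only [decide_eq_true_eq]
      tauto
    · simp only [masks, Nat.testBit_or, Bool.or_eq_true, h2, hnew, c]
      split_ifs with h <;> simp [h]
    · simp only [masks, Nat.testBit_or, Nat.testBit_and, Bool.or_eq_true, Bool.and_eq_true, h2, h3,
        hnew, c]
      split_ifs with h
      · simp only [h, and_true]; omega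
      · simp [h]

theorem c_eq_card (l : List ℕ) (hl : l.Pairwise (· > ·)) (m : ℕ) :
    c l m = (l.toFinset.filter (fun b => b ≤ m ∧ m - b ∈ l ∧ m - b < b)).card := by
  induction l with
  | nil => simp [c]
  | cons u l ih =>
    rw [List.pairwise_cons] at hl
    obtain ⟨hu, hl⟩ := hl
    have hu' : u ∉ l.toFinset := fun h => absurd (hu u (List.mem_toFinset.1 h)) (lt_irrefl _)
    rw [List.toFinset_cons, Finset.filter_insert]
    have hrest : l.toFinset.filter (fun b => b ≤ m ∧ m - b ∈ u :: l ∧ m - b < b) =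
        l.toFinset.filter (fun b => b ≤ m ∧ m - b ∈ l ∧ m - b < b) := by
      apply Finset.filter_congr
      intro b hb
      have hbu := hu b (List.mem_toFinset.1 hb)
      simp only [List.mem_cons]
      constructor
      · rintro ⟨h1, h2, h3⟩
        refine ⟨h1, ?_, h3⟩
        rcases h2 with h2 | h2
        · omega
        · exact h2
      · rintro ⟨h1, h2, h3⟩
        exact ⟨h1, Or.inr h2, h3⟩
    simp only [c]
    rw [hrest, ih hl]
    by_cases h : u ≤ m ∧ m - u ∈ l
    · have h' : u ≤ m ∧ m - u ∈ u :: l ∧ m - u < u :=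
        ⟨h.1, List.mem_cons_of_mem _ h.2, hu _ h.2⟩
      rw [if_pos h, if_pos h', Finset.card_insert_of_notMem]
      intro hh
      exact hu' (Finset.mem_filter.1 hh).1
    · have h' : ¬ (u ≤ m ∧ m - u ∈ u :: l ∧ m - u < u) := by
        rintro ⟨h1, h2, h3⟩
        rw [List.mem_cons] at h2
        rcases h2 with h2 | h2
        · omega
        · exact h ⟨h1, h2⟩
      rw [if_neg h, if_neg h', add_zero]

theorem us_sorted : us.Pairwise (· > ·) := by
  have h : us.IsChain (· > ·) := by decide +kernel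
  exact List.isChain_iff_pairwise.1 h

theorem us_check : ((masks us).2.1 ^^^ (masks us).2.2) % 2 ^ 6766 = (masks us).1 ^^^ 6 ∧
    (masks us).2.1.testBit 3571 = false ∧ (masks us).2.1.testBit 6765 = false ∧
    (masks us).1.testBit 3571 = false ∧ (masks us).1.testBit 6765 = false ∧
    (masks us).1.testBit 1 = true ∧ (masks us).1.testBit 2 = true ∧
    (masks us).1.testBit 0 = false := by
  decide +kernel

/-- Membership in the computed list is the uniqueness of the representation. -/
theorem mem_us_iff (m : ℕ) (h3 : 3 ≤ m) (hm : m ≤ 6765) : m ∈ us ↔ c us m = 1 := by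
  obtain ⟨h1, h2, h4⟩ := masks_spec us m
  obtain ⟨hx, -⟩ := us_check
  have hbit : ((masks us).1).testBit m =
      ((masks us).2.1.testBit m ^^ (masks us).2.2.testBit m) := by
    have := congrArg (fun x => Nat.testBit x m) hx
    simp only [Nat.testBit_mod_two_pow, Nat.testBit_xor] at this
    rw [show decide (m < 6766) = true by simp; omega, Bool.true_and] at this
    rw [this]
    have h6 : Nat.testBit 6 m = false := by
      apply Nat.testBit_lt_two_pow
      calc 6 < 2 ^ 3 := by norm_num
        _ ≤ 2 ^ m := Nat.pow_le_pow_right (by norm_num) h3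
    rw [h6, Bool.xor_false]
  rw [← h1, hbit]
  by_cases ha : (masks us).2.1.testBit m = true <;> by_cases hb : (masks us).2.2.testBit m = true
  · have := h4.1 hb
    simp only [ha, hb, Bool.xor_self, Bool.false_eq_true, false_iff]
    omega
  · have h5 := h2.1 ha
    have h6 : ¬ 2 ≤ c us m := fun h => hb (h4.2 h)
    rw [Bool.not_eq_true] at hb
    simp only [ha, hb, Bool.xor_false, true_iff]
    omega
  · have h5 := h4.1 hb
    exact absurd (h2.2 (by omega)) ha
  · have h5 : ¬ 1 ≤ c us m := fun h => ha (h2.2 h)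
    rw [Bool.not_eq_true] at ha hb
    simp only [ha, hb, Bool.xor_self, Bool.false_eq_true, false_iff]
    omega

/-- The number `c us m` is `1` iff there is exactly one pair of distinct list members. -/
theorem c_eq_one_iff (m : ℕ) : c us m = 1 ↔
    ∃! p : ℕ × ℕ, (p.1 ∈ us ∧ p.2 ∈ us ∧ p.1 < p.2) ∧ p.1 + p.2 = m := by
  rw [c_eq_card us us_sorted, Finset.card_eq_one]
  constructor
  · rintro ⟨b, hb⟩
    have hbm : b ∈ us.toFinset.filter (fun b => b ≤ m ∧ m - b ∈ us ∧ m - b < b) := by
      rw [hb]; exact Finset.mem_singleton_self _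
    rw [Finset.mem_filter, List.mem_toFinset] at hbm
    obtain ⟨h1, h2, h3, h4⟩ := hbm
    refine ⟨(m - b, b), ⟨⟨h3, h1, h4⟩, by simp; omega⟩, ?_⟩
    rintro ⟨x, y⟩ ⟨⟨hx, hy, hxy⟩, hs⟩
    simp only at hx hy hxy hs
    have hy' : y ∈ us.toFinset.filter (fun b => b ≤ m ∧ m - b ∈ us ∧ m - b < b) := by
      rw [Finset.mem_filter, List.mem_toFinset]
      have : m - y = x := by omega
      rw [this]
      exact ⟨hy, by omega, hx, hxy⟩
    rw [hb, Finset.mem_singleton] at hy'
    ext <;> simp <;> omega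
  · rintro ⟨⟨x, y⟩, ⟨⟨hx, hy, hxy⟩, hs⟩, huniq⟩
    simp only at hx hy hxy hs
    refine ⟨y, ?_⟩
    ext b
    rw [Finset.mem_filter, List.mem_toFinset, Finset.mem_singleton]
    constructor
    · rintro ⟨h1, h2, h3, h4⟩
      have := huniq (m - b, b) ⟨⟨h3, h1, h4⟩, by simp; omega⟩
      exact congrArg Prod.snd this
    · rintro rfl
      have : m - b = x := by omega
      rw [this]
      exact ⟨hy, by omega, hx, hxy⟩

theorem c_eq_zero (m : ℕ) (h : (masks us).2.1.testBit m = false) :
    ¬ ∃ x y, x ∈ us ∧ y ∈ us ∧ x < y ∧ x + y = m := by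
  have h0 : c us m = 0 := by
    have := (masks_spec us m).2.1
    rw [h] at this
    have h1 : ¬ 1 ≤ c us m := fun hh => by simpa using this.2 hh
    omega
  rw [c_eq_card us us_sorted, Finset.card_eq_zero] at h0
  rintro ⟨x, y, hx, hy, hxy, hs⟩
  have : y ∈ us.toFinset.filter (fun b => b ≤ m ∧ m - b ∈ us ∧ m - b < b) := by
    rw [Finset.mem_filter, List.mem_toFinset]
    have : m - y = x := by omega
    rw [this]
    exact ⟨hy, by omega, hx, hxy⟩
  rw [h0] at this
  simp at this

section seq

variable {u : ℕ → ℕ} (hu : IsUlamSeq u)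
include hu

theorem lt_succ (n : ℕ) (hn : 1 ≤ n) : u n < u (n + 1) := by
  rcases Nat.lt_or_ge n 2 with h | h
  · have : n = 1 := by omega
    subst this
    rw [hu.one, hu.two]; norm_num
  · have := (hu.least (n + 1) (by omega)).1.1
    simpa using this

theorem strict {i j : ℕ} (hi : 1 ≤ i) (hij : i < j) : u i < u j := by
  induction j with
  | zero => omega
  | succ j ih =>
    rcases Nat.lt_or_ge i j with h | h
    · exact lt_trans (ih h) (lt_succ hu j (by omega))
    · have : i = j := by omega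
      subst this
      exact lt_succ hu i hi

theorem inj {i j : ℕ} (hi : 1 ≤ i) (hj : 1 ≤ j) (h : u i = u j) : i = j := by
  rcases lt_trichotomy i j with h1 | h1 | h1
  · exact absurd h (strict hu hi h1).ne
  · exact h1
  · exact absurd h (strict hu hj h1).ne'

theorem lt_of_lt {i j : ℕ} (hj : 1 ≤ j) (h : u i < u j) (_hi : 1 ≤ i) : i < j := by
  by_contra hcon
  rcases Nat.lt_or_ge j i with h1 | h1
  · exact absurd (strict hu hj h1) (by omega)
  · have : i = j := by omega
    subst this
    omega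

theorem ge_self (n : ℕ) (hn : 1 ≤ n) : n ≤ u n := by
  induction n with
  | zero => omega
  | succ n ih =>
    rcases Nat.eq_zero_or_pos n with h | h
    · subst h; rw [hu.one]
    · have := ih h
      have := lt_succ hu n h
      omega

/-- `m ≥ 3` is an Ulam number iff it is in exactly one way a sum of two distinct Ulam numbers. -/
theorem ulam_iff (m : ℕ) (hm : 3 ≤ m) : (∃ n, 1 ≤ n ∧ u n = m) ↔
    ∃! p : ℕ × ℕ, ((∃ i, 1 ≤ i ∧ u i = p.1) ∧ (∃ j, 1 ≤ j ∧ u j = p.2) ∧ p.1 < p.2) ∧
      p.1 + p.2 = m := by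
  have hpos : ∀ i, 1 ≤ i → 1 ≤ u i := fun i hi => le_trans hi (ge_self hu i hi)
  constructor
  · rintro ⟨n, hn, rfl⟩
    have hn3 : 3 ≤ n := by
      by_contra h
      have : n = 1 ∨ n = 2 := by omega
      rcases this with h | h
      · rw [h, hu.one] at hm; omega
      · rw [h, hu.two] at hm; omega
    obtain ⟨-, ⟨⟨i, j⟩, ⟨⟨hi, hij, hj⟩, hs⟩, huniq⟩⟩ := (hu.least n hn3).1
    simp only at hi hij hj hs
    refine ⟨(u i, u j), ⟨⟨⟨i, hi, rfl⟩, ⟨j, by omega, rfl⟩, strict hu hi hij⟩, hs⟩, ?_⟩
    rintro ⟨x, y⟩ ⟨⟨⟨i', hi', hx⟩, ⟨j', hj', hy⟩, hxy⟩, hs'⟩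
    simp only at hx hy hxy hs'
    subst hx; subst hy
    have h1 : i' < j' := lt_of_lt hu hj' hxy hi'
    have h2 : j' < n := by
      apply lt_of_lt hu hn _ hj'
      have := hpos i' hi'
      omega
    have := huniq (i', j') ⟨⟨hi', h1, h2⟩, hs'⟩
    rw [Prod.mk.injEq] at this
    rw [this.1, this.2]
  · rintro ⟨⟨x, y⟩, ⟨⟨⟨i, hi, hx⟩, ⟨j, hj, hy⟩, hxy⟩, hs⟩, huniq⟩
    simp only at hx hy hxy hs
    subst hx; subst hy
    -- least index with value at least m
    have hex : ∃ n, 1 ≤ n ∧ m ≤ u n := ⟨m, by omega, ge_self hu m (by omega)⟩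
    classical
    set n := Nat.find hex with hn
    obtain ⟨hn1, hnm⟩ := Nat.find_spec hex
    rw [← hn] at hn1 hnm
    have hn3 : 3 ≤ n := by
      by_contra h
      have : n = 1 ∨ n = 2 := by omega
      rcases this with h | h
      · rw [h, hu.one] at hnm; omega
      · rw [h, hu.two] at hnm; omega
    have hprev : u (n - 1) < m := by
      have := Nat.find_min hex (m := n - 1) (by omega)
      by_contra hcon
      exact this ⟨by omega, by omega⟩
    have hcand : m ∈ {m | u (n - 1) < m ∧
        ∃! p : ℕ × ℕ, (1 ≤ p.1 ∧ p.1 < p.2 ∧ p.2 < n) ∧ u p.1 + u p.2 = m} := by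
      refine ⟨hprev, (i, j), ⟨⟨hi, lt_of_lt hu hj hxy hi, ?_⟩, hs⟩, ?_⟩
      · apply lt_of_lt hu hn1 _ hj
        have := hpos i hi
        omega
      · rintro ⟨i', j'⟩ ⟨⟨hi', hij', hj'⟩, hs'⟩
        simp only at hi' hij' hj' hs'
        have := huniq (u i', u j') ⟨⟨⟨i', hi', rfl⟩, ⟨j', by omega, rfl⟩,
          strict hu hi' hij'⟩, hs'⟩
        rw [Prod.mk.injEq] at this
        rw [inj hu hi' hi this.1, inj hu (by omega) hj this.2]
    have := (hu.least n hn3).2 hcand
    exact ⟨n, hn1, by omega⟩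

/-- Up to `6765` the Ulam numbers are exactly the entries of the list `us`. -/
theorem ulam_iff_mem (m : ℕ) (hm : m ≤ 6765) : (∃ n, 1 ≤ n ∧ u n = m) ↔ m ∈ us := by
  induction m using Nat.strong_induction_on with
  | _ m ih =>
    have hpos : ∀ i, 1 ≤ i → 1 ≤ u i := fun i hi => le_trans hi (ge_self hu i hi)
    obtain ⟨-, -, -, -, -, hb1, hb2, hb0⟩ := us_check
    rcases Nat.lt_or_ge m 3 with h | h
    · interval_cases m
      · constructor
        · rintro ⟨n, hn, h0⟩
          have := hpos n hn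
          omega
        · intro h0
          have := (masks_spec us 0).1.2 h0
          rw [hb0] at this
          simp at this
      · exact ⟨fun _ => (masks_spec us 1).1.1 hb1, fun _ => ⟨1, le_rfl, hu.one⟩⟩
      · exact ⟨fun _ => (masks_spec us 2).1.1 hb2, fun _ => ⟨2, by norm_num, hu.two⟩⟩
    · have h0us : 0 ∉ us := by
        intro h0
        have := (masks_spec us 0).1.2 h0
        rw [hb0] at this
        simp at this
      rw [ulam_iff hu m h, mem_us_iff m h hm, c_eq_one_iff]
      constructor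
      · rintro ⟨⟨x, y⟩, ⟨⟨hx, hy, hxy⟩, hs⟩, huniq⟩
        simp only at hx hy hxy hs
        have hx1 : 1 ≤ x := by obtain ⟨i, hi, rfl⟩ := hx; exact hpos i hi
        refine ⟨(x, y), ⟨⟨(ih x (by omega) (by omega)).1 hx, (ih y (by omega) (by omega)).1 hy,
          hxy⟩, hs⟩, ?_⟩
        rintro ⟨x', y'⟩ ⟨⟨hx', hy', hxy'⟩, hs'⟩
        simp only at hx' hy' hxy' hs'
        have hx'1 : 1 ≤ x' := by
          rcases Nat.eq_zero_or_pos x' with h0 | h0
          · rw [h0] at hx'; exact absurd hx' h0us
          · exact h0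
        exact huniq (x', y') ⟨⟨(ih x' (by omega) (by omega)).2 hx',
          (ih y' (by omega) (by omega)).2 hy', hxy'⟩, hs'⟩
      · rintro ⟨⟨x, y⟩, ⟨⟨hx, hy, hxy⟩, hs⟩, huniq⟩
        simp only at hx hy hxy hs
        have hx1 : 1 ≤ x := by
          rcases Nat.eq_zero_or_pos x with h0 | h0
          · rw [h0] at hx; exact absurd hx h0us
          · exact h0
        refine ⟨(x, y), ⟨⟨(ih x (by omega) (by omega)).2 hx, (ih y (by omega) (by omega)).2 hy,
          hxy⟩, hs⟩, ?_⟩
        rintro ⟨x', y'⟩ ⟨⟨hx', hy', hxy'⟩, hs'⟩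
        simp only at hx' hy' hxy' hs'
        have hx'1 : 1 ≤ x' := by obtain ⟨i, hi, rfl⟩ := hx'; exact hpos i hi
        exact huniq (x', y') ⟨⟨(ih x' (by omega) (by omega)).1 hx',
          (ih y' (by omega) (by omega)).1 hy', hxy'⟩, hs'⟩

theorem not_sum (m : ℕ) (hm : m ≤ 6765) (h1 : (masks us).1.testBit m = false)
    (h2 : (masks us).2.1.testBit m = false) : ¬ SumOfAtMostTwo u m := by
  have hpos : ∀ i, 1 ≤ i → 1 ≤ u i := fun i hi => le_trans hi (ge_self hu i hi)
  rintro (h | ⟨i, j, hi, hij, hs⟩)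
  · have := (masks_spec us m).1.2 ((ulam_iff_mem hu m hm).1 h)
    rw [h1] at this
    simp at this
  · apply c_eq_zero m h2
    have hi' := hpos i hi
    have hj' := hpos j (by omega)
    exact ⟨u i, u j, (ulam_iff_mem hu (u i) (by omega)).1 ⟨i, hi, rfl⟩,
      (ulam_iff_mem hu (u j) (by omega)).1 ⟨j, by omega, rfl⟩, strict hu hi hij, hs⟩

theorem not_sum_3571 : ¬ SumOfAtMostTwo u 3571 :=
  not_sum hu 3571 (by norm_num) us_check.2.2.2.1 us_check.2.1

theorem not_sum_6765 : ¬ SumOfAtMostTwo u 6765 :=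
  not_sum hu 6765 (by norm_num) us_check.2.2.2.2.1 us_check.2.2.1

end seq

/-! ### Existence of the Ulam sequence -/

/-- The candidates for the next term, given the earlier terms `f 1, ..., f (n - 1)`. -/
def cand (f : ℕ → ℕ) (n : ℕ) : Set ℕ :=
  {m | f (n - 1) < m ∧ ∃! p : ℕ × ℕ, (1 ≤ p.1 ∧ p.1 < p.2 ∧ p.2 < n) ∧ f p.1 + f p.2 = m}

/-- The first `n` terms, built step by step. -/
noncomputable def build : ℕ → ℕ → ℕ
  | 0 => fun i => i
  | n + 1 => fun i => if i ≤ n ∨ n + 1 < 3 then build n i else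
      if i = n + 1 then sInf (cand (build n) (n + 1)) else build n i

theorem build_succ_of_le {n i : ℕ} (h : i ≤ n) : build (n + 1) i = build n i := by
  simp [build, h]

theorem build_stable {n m i : ℕ} (h : i ≤ n) (hnm : n ≤ m) : build m i = build n i := by
  induction m with
  | zero => have : n = 0 := by omega
            subst this; rfl
  | succ m ih =>
    rcases Nat.lt_or_ge n (m + 1) with h1 | h1
    · rw [build_succ_of_le (by omega), ih (by omega)]
    · have : n = m + 1 := by omega
      subst this; rfl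

theorem exists_ulam : ∃ u, IsUlamSeq u := by
  classical
  set v : ℕ → ℕ := fun n => build n n with hv
  have hone : v 1 = 1 := by simp [hv, build]
  have htwo : v 2 = 2 := by simp [hv, build]
  have hagree : ∀ n i, i ≤ n → build n i = v i := fun n i hi => by
    rw [hv]; exact build_stable le_rfl hi
  have hcand : ∀ n, 1 ≤ n → cand (build (n - 1)) n = cand v n := by
    intro n hn
    ext m
    simp only [cand, Set.mem_ofPred_eq]
    rw [hagree (n - 1) (n - 1) le_rfl]
    refine and_congr_right fun _ => ?_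
    have : ∀ p : ℕ × ℕ, ((1 ≤ p.1 ∧ p.1 < p.2 ∧ p.2 < n) ∧
        build (n - 1) p.1 + build (n - 1) p.2 = m) ↔
        ((1 ≤ p.1 ∧ p.1 < p.2 ∧ p.2 < n) ∧ v p.1 + v p.2 = m) := by
      rintro ⟨a, b⟩
      refine and_congr_right fun h => ?_
      simp only at h ⊢
      rw [hagree (n - 1) a (by omega), hagree (n - 1) b (by omega)]
    exact existsUnique_congr this
  have hval : ∀ n, 3 ≤ n → v n = sInf (cand v n) := by
    intro n hn
    obtain ⟨k, rfl⟩ : ∃ k, n = k + 1 := ⟨n - 1, by omega⟩
    have h1 : v (k + 1) = sInf (cand (build k) (k + 1)) := by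
      simp only [hv, build]
      rw [if_neg (by omega), if_pos trivial]
    rw [h1]
    have := hcand (k + 1) (by omega)
    simp only [Nat.add_sub_cancel] at this
    rw [this]
  -- monotonicity and nonemptiness, by induction
  have hmain : ∀ n, 3 ≤ n → (∀ i j, 1 ≤ i → i < j → j < n → v i < v j) ∧
      v n ∈ cand v n := by
    intro n
    induction n using Nat.strong_induction_on with
    | _ n ih =>
      intro hn
      have hmono : ∀ i j, 1 ≤ i → i < j → j < n → v i < v j := by
        intro i j hi hij hj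
        rcases Nat.lt_or_ge j 3 with h | h
        · have h1 : i = 1 := by omega
          have h2 : j = 2 := by omega
          rw [h1, h2, hone, htwo]; norm_num
        · obtain ⟨hm1, hm2⟩ := ih j hj h
          have h3 : v (j - 1) < v j := hm2.1
          rcases Nat.lt_or_ge i (j - 1) with h4 | h4
          · exact lt_trans (hm1 i (j - 1) hi h4 (by omega)) h3
          · have : i = j - 1 := by omega
            rw [this]; exact h3
      refine ⟨hmono, ?_⟩
      have hne : (cand v n).Nonempty := by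
        have hposv : ∀ i, 1 ≤ i → i < n → 1 ≤ v i := by
          intro i hi hin
          rcases Nat.lt_or_ge 1 i with h | h
          · have := hmono 1 i le_rfl h hin
            rw [hone] at this
            omega
          · have : i = 1 := by omega
            rw [this, hone]
        have hmono' : ∀ i j, 1 ≤ i → i ≤ j → j < n → v i ≤ v j := by
          intro i j hi hij hj
          rcases Nat.lt_or_ge i j with h | h
          · exact (hmono i j hi h hj).le
          · have : i = j := by omega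
            rw [this]
        refine ⟨v (n - 2) + v (n - 1), ?_, (n - 2, n - 1), ⟨⟨by omega, by simp; omega,
          by simp; omega⟩, rfl⟩, ?_⟩
        · have := hposv (n - 2) (by omega) (by omega)
          omega
        · rintro ⟨i, j⟩ ⟨⟨hi, hij, hj⟩, hs⟩
          simp only at hi hij hj hs
          have h1 : j = n - 1 := by
            by_contra hcon
            have h2 : v j ≤ v (n - 2) := hmono' j (n - 2) (by omega) (by omega) (by omega)
            have h3 : v i < v (n - 1) := hmono i (n - 1) hi (by omega) (by omega)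
            omega
          subst h1
          have h2 : i = n - 2 := by
            by_contra hcon
            have h3 : v i < v (n - 2) := hmono i (n - 2) hi (by omega) (by omega)
            omega
          rw [h2]
      rw [hval n hn]
      exact Nat.sInf_mem hne
  refine ⟨v, hone, htwo, fun n hn => ⟨(hmain n hn).2, fun m hm => ?_⟩⟩
  rw [hval n hn]
  exact Nat.sInf_le hm

end Q249.Ulam
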